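import Pool.Agent.TH255.HK.Frame
import Pool.Agent.TH255.HC.Gadget

/-!
# Codes of integers in a number field
-/

set_option autoImplicit false

open Height

namespace Pool.Agent.TH255.HK

open Pool.Agent.TH942
open Pool.Agent.TH255.HC (G U U_ne U_inj zsmul_G U_neg Tol LER H gK gL g_spec Cmp cmp_LER)

variable {K : Type} [Field K] [NumberField K]

lemma pX_rat (P : PtK ℚ) : pX P = HC.ptX P := by
  cases P <;> rfl

lemma pY_rat (P : PtK ℚ) : pY P = HC.ptY P := by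
  cases P <;> rfl

lemma two_smul_G (t : PtK ℚ) : ∃ m : ℤ, (2 : ℤ) • t = (2 * m) • G := by
  have hG := (HC.isO_iff _).mp HC.isO_G
  obtain ⟨R, hR⟩ := hG
  have h1 : HC.IsO (G + (t + t)) := by
    rw [HC.isO_iff]
    refine ⟨R + t, ?_⟩
    nth_rewrite 1 [hR]
    abel
  obtain ⟨m, hm⟩ := (HC.isO_iff_G _).mp h1
  refine ⟨m, ?_⟩
  rw [add_smul, one_smul, add_comm (_ • G) G] at hm
  rw [two_smul]
  exact add_left_cancel hm

/-- the pair `(x, y)` codes the integer `n` -/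
def Cd (x y : K) (n : ℤ) : Prop :=
  x = algebraMap ℚ K (HC.ptX (U n)) ∧ y = algebraMap ℚ K (HC.ptY (U n))

lemma Cd.inj {x y : K} {m n : ℤ} (h : Cd x y m) (h' : Cd x y n) : m = n := by
  apply U_inj
  have h1 := (algebraMap ℚ K).injective (h.1.symm.trans h'.1)
  have h2 := (algebraMap ℚ K).injective (h.2.symm.trans h'.2)
  exact HC.pt_ext (U_ne m) (U_ne n) h1 h2

variable {B : ℕ}

lemma dk_col {x1 y1 x2 y2 x3 y3 : (ℕ → K) → K} (h1 : PF x1) (k1 : PF y1) (h2 : PF x2)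
    (k2 : PF y2) (h3 : PF x3) (k3 : PF y3) :
    DK B (fun _ v => Col (x1 v) (y1 v) (x2 v) (y2 v) (x3 v) (y3 v)) := by
  have h : DK B (fun _ v => ∃ u : ℕ → K, y1 v = u 0 * x1 v + u 1 ∧ y2 v = u 0 * x2 v + u 1 ∧
      y3 v = u 0 * x3 v + u 1 ∧ x1 v + x2 v + x3 v = u 0 ^ 2 ∧
      x1 v * x2 v + x1 v * x3 v + x2 v * x3 v = -2 - 2 * u 0 * u 1 ∧
      x1 v * x2 v * x3 v = u 1 ^ 2) := by
    refine DK.exs ?_
    have l : PF (fun v : ℕ → K => v (2 * 0 + 1)) := PF.od 0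
    have m : PF (fun v : ℕ → K => v (2 * 1 + 1)) := PF.od 1
    refine (DK.eq k1.ev ((l.mul h1.ev).add m)).and ?_
    refine (DK.eq k2.ev ((l.mul h2.ev).add m)).and ?_
    refine (DK.eq k3.ev ((l.mul h3.ev).add m)).and ?_
    refine (DK.eq ((h1.ev.add h2.ev).add h3.ev) (l.pow 2)).and ?_
    refine (DK.eq (((h1.ev.mul h2.ev).add (h1.ev.mul h3.ev)).add (h2.ev.mul h3.ev))
      (((PF.lit 2).neg).sub (((PF.lit 2).mul l).mul m))).and ?_
    exact DK.eq ((h1.ev.mul h2.ev).mul h3.ev) (m.pow 2)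
  refine h.congr fun _ _ v => ?_
  constructor
  · rintro ⟨l, m, h⟩
    exact ⟨fun n => if n = 0 then l else m, by simpa using h⟩
  · rintro ⟨u, h⟩
    exact ⟨u 0, u 1, h⟩

lemma dk_cd_const {x y : (ℕ → K) → K} (hx : PF x) (hy : PF y) (n : ℤ) :
    DK B (fun _ v => Cd (x v) (y v) n) :=
  (DK.eq hx (PF.const _)).and (DK.eq hy (PF.const _))

/-! ### multiples -/

/-- `(x', y') = (k + 1) (x, y)` -/
def MulR : ℕ → K → K → K → K → Prop
  | 0, x, y, x', y' => x' = x ∧ y' = y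
  | k + 1, x, y, x', y' => ∃ a b : K, MulR k x y a b ∧ Col x y a b x' (-y')

lemma mulR_sound [DecidableEq K] {P : PtK K} (hP : P ≠ 0) (k : ℕ) (x' y' : K)
    (h : MulR k (pX P) (pY P) x' y') :
    (k + 1) • P ≠ 0 ∧ x' = pX ((k + 1) • P) ∧ y' = pY ((k + 1) • P) := by
  induction k generalizing x' y' with
  | zero =>
    rw [zero_add, one_smul]
    exact ⟨hP, h⟩
  | succ k ih =>
    have e : (k + 1 + 1) • P = P + (k + 1) • P := by rw [succ_nsmul, add_comm]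
    rw [e]
    obtain ⟨a, b, h1, h2⟩ := h
    obtain ⟨h0, rfl, rfl⟩ := ih a b h1
    exact (col_add_iff hP h0 x' y').mp h2

lemma mulR_compl [DecidableEq K] {P : PtK K} (hP : ∀ n : ℕ, n ≠ 0 → n • P ≠ 0) (k : ℕ) :
    MulR k (pX P) (pY P) (pX ((k + 1) • P)) (pY ((k + 1) • P)) := by
  have hP1 : P ≠ 0 := by simpa using hP 1 one_ne_zero
  induction k with
  | zero => simp [MulR]
  | succ k ih =>
    have e : (k + 1 + 1) • P = P + (k + 1) • P := by rw [succ_nsmul, add_comm]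
    refine ⟨_, _, ih, ?_⟩
    rw [col_add_iff hP1 (hP _ (Nat.succ_ne_zero k)), e]
    refine ⟨?_, rfl, rfl⟩
    rw [← e]
    exact hP _ (Nat.succ_ne_zero _)

lemma dk_mulR (k : ℕ) : ∀ {x y x' y' : (ℕ → K) → K}, PF x → PF y → PF x' → PF y' →
    DK B (fun _ v => MulR k (x v) (y v) (x' v) (y' v)) := by
  induction k with
  | zero =>
    intro x y x' y' hx hy hx' hy'
    exact (DK.eq hx' hx).and (DK.eq hy' hy)
  | succ k ih =>
    intro x y x' y' hx hy hx' hy'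
    have h : DK B (fun _ v => ∃ u : ℕ → K, MulR k (x v) (y v) (u 0) (u 1) ∧
        Col (x v) (y v) (u 0) (u 1) (x' v) (- y' v)) := by
      refine DK.exs ((ih hx.ev hy.ev (PF.od 0) (PF.od 1)).and ?_)
      exact dk_col hx.ev hy.ev (PF.od 0) (PF.od 1) hx'.ev hy'.ev.neg
    refine h.congr fun _ _ v => ?_
    constructor
    · rintro ⟨a, b, h⟩
      exact ⟨fun n => if n = 0 then a else b, by simpa using h⟩
    · rintro ⟨u, h⟩
      exact ⟨u 0, u 1, h⟩

/-! ### the points which are codes -/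

section code

variable [DecidableEq K]

lemma mp_smul_ne (K : Type) [Field K] [NumberField K] [DecidableEq K] {k : ℤ} (hk : k ≠ 0) :
    k • mp (algebraMap ℚ K) G ≠ 0 := by
  rw [← map_zsmul]
  apply mp_ne
  intro h
  exact hk (zsmul_G h)

/-- the test for one point `w` -/
def Test (κ : ℕ) (w : PtK K) (R : K → K → Prop) (x y : K) : Prop :=
  ∃ x1 y1 x2 y2 : K,
    Col x y (pX ((κ : ℤ) • w)) (pY ((κ : ℤ) • w)) x1 (-y1) ∧
    Col x y (pX ((-(κ + 1) : ℤ) • w)) (pY ((-(κ + 1) : ℤ) • w)) x2 (-y2) ∧ R x1 x2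

lemma dk_test (κ : ℕ) (w : PtK K) {x y : (ℕ → K) → K} (hx : PF x) (hy : PF y) :
    DK B (fun R v => Test κ w R (x v) (y v)) := by
  have h : DK B (fun R v => ∃ u : ℕ → K,
      Col (x v) (y v) (pX ((κ : ℤ) • w)) (pY ((κ : ℤ) • w)) (u 0) (- u 1) ∧
      Col (x v) (y v) (pX ((-(κ + 1) : ℤ) • w)) (pY ((-(κ + 1) : ℤ) • w)) (u 2) (- u 3) ∧
      R (u 0) (u 2)) := by
    refine DK.exs ?_
    refine (dk_col hx.ev hy.ev (PF.const _) (PF.const _) (PF.od 0) (PF.od 1).neg).and ?_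
    refine (dk_col hx.ev hy.ev (PF.const _) (PF.const _) (PF.od 2) (PF.od 3).neg).and ?_
    exact DK.rel (PF.od 0) (PF.od 2)
  refine h.congr fun R _ v => ?_
  constructor
  · rintro ⟨x1, y1, x2, y2, h⟩
    exact ⟨fun n => if n = 0 then x1 else if n = 1 then y1 else if n = 2 then x2 else y2,
      by simpa using h⟩
  · rintro ⟨u, h⟩
    exact ⟨u 0, u 1, u 2, u 3, h⟩

/-- the codes -/
theorem dk_code (hB : 1 ≤ B) {x y : (ℕ → K) → K} (hx : PF x) (hy : PF y) :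
    DK B (fun _ v => ∃ n : ℤ, Cd (x v) (y v) n) := by
  have hB' : (1 : ℝ) ≤ B := by exact_mod_cast hB
  obtain ⟨W, N₀, κ, hN₀, hκw, hcompl, hsound⟩ :=
    exists_iso K (fun m h => zsmul_G h) two_smul_G hB'
  set g := mp (algebraMap ℚ K) G with hg
  set N := 2 * N₀ with hN
  obtain ⟨k, hk⟩ : ∃ k, N = k + 1 := ⟨N - 1, by omega⟩
  have h : DK B (fun R v => ∃ u : ℕ → K, u 1 ^ 2 = u 0 ^ 3 - 2 * u 0 ∧
      MulR k (u 0) (u 1) (u 2) (u 3) ∧ (∀ w ∈ W.toList, Test κ w R (u 2) (u 3)) ∧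
      u 4 ∈ ((List.range N).map fun i : ℕ => pX (mp (algebraMap ℚ K) (U (i : ℤ)))) ∧
      u 5 ^ 2 = u 4 ^ 3 - 2 * u 4 ∧ Col (u 4) (u 5) (u 2) (u 3) (x v) (- y v)) := by
    refine DK.exs ?_
    refine (DK.eq ((PF.od 1).pow 2) (((PF.od 0).pow 3).sub ((PF.lit 2).mul (PF.od 0)))).and ?_
    refine (dk_mulR k (PF.od 0) (PF.od 1) (PF.od 2) (PF.od 3)).and ?_
    refine (DK.list _ fun w => dk_test κ w (PF.od 2) (PF.od 3)).and ?_
    refine (DK.mem (PF.od 4) _).and ?_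
    refine (DK.eq ((PF.od 5).pow 2) (((PF.od 4).pow 3).sub ((PF.lit 2).mul (PF.od 4)))).and ?_
    exact dk_col (PF.od 4) (PF.od 5) (PF.od 2) (PF.od 3) hx.ev hy.ev.neg
  refine h.congr fun R hR v => ?_
  have hUg : ∀ n : ℤ, mp (algebraMap ℚ K) (U n) = (2 * n + 1) • g := by
    intro n
    rw [U, map_zsmul]
  have hcd : ∀ (n : ℤ), Cd (pX (mp (algebraMap ℚ K) (U n))) (pY (mp (algebraMap ℚ K) (U n))) n := by
    intro n
    rw [pX_mp, pY_mp, pX_rat, pY_rat]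
    exact ⟨rfl, rfl⟩
  constructor
  · rintro ⟨n, hn⟩
    obtain ⟨i, j, hi, hj, hij⟩ : ∃ (i : ℕ) (j : ℤ), i < N ∧ j ≠ 0 ∧ n = i + N₀ * j := by
      have hpos : (0 : ℤ) < N₀ := by exact_mod_cast Nat.pos_of_ne_zero hN₀
      have h1 := Int.emod_nonneg n hpos.ne'
      have h2 := Int.emod_lt_of_pos n hpos
      have h3 := Int.emod_add_mul_ediv n N₀
      by_cases hq : n / (N₀ : ℤ) = 0
      · refine ⟨(n % N₀).toNat + N₀, -1, ?_, by norm_num, ?_⟩
        · omega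
        · rw [hq] at h3
          push_cast
          rw [Int.toNat_of_nonneg h1]
          linarith
      · refine ⟨(n % N₀).toNat, n / N₀, by omega, hq, ?_⟩
        rw [Int.toNat_of_nonneg h1]
        linarith
    have hnt : ∀ m : ℕ, m ≠ 0 → m • (j • g) ≠ 0 := by
      intro m hm
      rw [← natCast_zsmul, ← mul_smul]
      exact mp_smul_ne K (mul_ne_zero (by exact_mod_cast hm) hj)
    have ha0 : j • g ≠ 0 := by simpa using hnt 1 one_ne_zero
    have hNa : (k + 1) • (j • g) = (N : ℤ) • (j • g) := by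
      rw [← hk, natCast_zsmul]
    have hNa0 : (N : ℤ) • (j • g) ≠ 0 := by
      rw [← hNa]
      exact hnt _ (Nat.succ_ne_zero k)
    refine ⟨fun t => if t = 0 then pX (j • g) else if t = 1 then pY (j • g) else
      if t = 2 then pX ((N : ℤ) • (j • g)) else if t = 3 then pY ((N : ℤ) • (j • g)) else
      if t = 4 then pX (mp (algebraMap ℚ K) (U (i : ℤ))) else
        pY (mp (algebraMap ℚ K) (U (i : ℤ))), ?_, ?_, ?_, ?_, ?_, ?_⟩
    · simpa using pt_eq ha0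
    · have := mulR_compl hnt k
      rw [hNa] at this
      simpa using this
    · intro w hw
      rw [Finset.mem_toList] at hw
      obtain ⟨h1, h2, h3⟩ := hcompl j hj w hw
      obtain ⟨h4, h5⟩ := hκw w hw
      refine ⟨_, pY ((N : ℤ) • (j • g) + (κ : ℤ) • w), _,
        pY ((N : ℤ) • (j • g) + (-(κ + 1) : ℤ) • w),
        (col_add_iff (by simpa using hNa0) h4 _ _).mpr ⟨h1, rfl, rfl⟩,
        (col_add_iff (by simpa using hNa0) h5 _ _).mpr ⟨h2, rfl, rfl⟩, ?_⟩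
      exact hR.1 _ _ h3
    · refine List.mem_map.2 ⟨i, List.mem_range.2 hi, ?_⟩
      norm_num
    · have := pt_eq (mp_ne (τ := algebraMap ℚ K) (U_ne (i : ℤ)))
      simpa using this
    · have h6 : mp (algebraMap ℚ K) (U (i : ℤ)) + (N : ℤ) • (j • g) =
          mp (algebraMap ℚ K) (U n) := by
        rw [hUg, hUg, ← mul_smul, ← add_smul]
        congr 1
        rw [hij, hN]
        push_cast
        ring
      have h7 := (col_add_iff (mp_ne (τ := algebraMap ℚ K) (U_ne (i : ℤ))) hNa0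
        (pX (mp (algebraMap ℚ K) (U n))) (pY (mp (algebraMap ℚ K) (U n)))).mpr
          ⟨by rw [h6]; exact mp_ne (U_ne n), by rw [h6], by rw [h6]⟩
      have h8 := hcd n
      rw [hn.1, hn.2, ← h8.1, ← h8.2]
      simpa using h7
  · rintro ⟨u, h1, h2, h3, h4, h5, h6⟩
    obtain ⟨a, ha, hax, hay⟩ := exists_pt h1
    rw [← hax, ← hay] at h2
    obtain ⟨hNa0, e2, e3⟩ := mulR_sound ha k _ _ h2
    have hNa : (k + 1) • a = (N : ℤ) • a := by rw [← hk, natCast_zsmul]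
    rw [hNa] at hNa0 e2 e3
    obtain ⟨j, hj⟩ := hsound a (by
      intro w hw
      obtain ⟨x1, y1, x2, y2, c1, c2, hr⟩ := h3 w (Finset.mem_toList.mpr hw)
      obtain ⟨h7, h8⟩ := hκw w hw
      rw [e2, e3, col_add_iff hNa0 h7] at c1
      rw [e2, e3, col_add_iff hNa0 h8] at c2
      refine ⟨c1.1, c2.1, ?_⟩
      rw [← c1.2.1, ← c2.2.1]
      exact hR.2 _ _ hr)
    rw [List.mem_map] at h4
    obtain ⟨i, -, hi⟩ := h4
    obtain ⟨V, hV, hVx, hVy⟩ := exists_pt h5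
    obtain ⟨i', hi'⟩ : ∃ i' : ℤ, V = mp (algebraMap ℚ K) (U i') := by
      rcases (pX_eq_iff hV (mp_ne (τ := algebraMap ℚ K) (U_ne (i : ℤ)))).mp
        (hVx.trans hi.symm) with h9 | h9
      · exact ⟨i, h9⟩
      · refine ⟨-i - 1, ?_⟩
        rw [h9, ← map_neg, U_neg]
    rw [← hVx, ← hVy, e2, e3, col_add_iff hV hNa0] at h6
    obtain ⟨-, h7, h8⟩ := h6
    refine ⟨i' + j, ?_⟩
    have h9 : V + (N : ℤ) • a = mp (algebraMap ℚ K) (U (i' + j)) := by
      rw [hi', hj, hUg, hUg, ← add_smul]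
      congr 1
      ring
    rw [h7, h8, h9]
    exact hcd _

end code

end Pool.Agent.TH255.HK
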