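import Pool.Agent.TH255.HK.Low

/-!
# Recognizing `(2 n + 1)²` by two comparisons of heights
-/

set_option autoImplicit false

open Height NumberField Module Real

namespace Pool.Agent.TH255.HK.Core

open Pool.Agent.TH255.HC (Pt ptX IsO H G U ht_mult)
open Pool.Agent.TH255.HK.Low (logHeight_rat logHeight_nat low)

variable {K : Type} [Field K] [NumberField K]

lemma le_iff {B : ℕ} (hB : 1 ≤ B) (x y : K) :
    B * mulHeight₁ x ≤ mulHeight₁ y ↔ Real.log B + logHeight₁ x ≤ logHeight₁ y := by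
  have hB' : (0 : ℝ) < B := by exact_mod_cast hB
  rw [logHeight₁_eq_log_mulHeight₁, logHeight₁_eq_log_mulHeight₁,
    ← Real.log_mul hB'.ne' (mulHeight₁_pos x).ne',
    Real.log_le_log_iff (mul_pos hB' (mulHeight₁_pos x)) (mulHeight₁_pos y)]

lemma ge_iff {B : ℕ} (hB : 1 ≤ B) (x y : K) :
    mulHeight₁ x ≤ B * mulHeight₁ y ↔ logHeight₁ x ≤ Real.log B + logHeight₁ y := by
  have hB' : (0 : ℝ) < B := by exact_mod_cast hB
  rw [logHeight₁_eq_log_mulHeight₁, logHeight₁_eq_log_mulHeight₁,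
    ← Real.log_mul hB'.ne' (mulHeight₁_pos y).ne',
    Real.log_le_log_iff (mulHeight₁_pos x) (mul_pos hB' (mulHeight₁_pos y))]

lemma U_mul (n k : ℕ) : U ((2 * (n * k) + n + k : ℕ) : ℤ) = (2 * n + 1) • U (k : ℤ) := by
  rw [U, U, ← natCast_zsmul, ← mul_smul]
  congr 1
  push_cast
  ring

/-- heights of the codes -/
lemma ht_U : ∃ c K₀ : ℝ, 0 < c ∧ 0 ≤ K₀ ∧ ∀ n : ℕ,
    c * (2 * n + 1) ^ 2 - K₀ ≤ Real.log (H (ptX (U n))) ∧
      Real.log (H (ptX (U n))) ≤ c * (2 * n + 1) ^ 2 + K₀ := by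
  obtain ⟨c, K₀, hc, hK, h⟩ := ht_mult
  refine ⟨c, K₀, hc, hK, fun n => ?_⟩
  have h1 := h (2 * (n : ℤ) + 1) (by omega)
  rw [abs_le] at h1
  push_cast at h1
  change c * (2 * n + 1) ^ 2 - K₀ ≤ Real.log (H (ptX ((2 * (n : ℤ) + 1) • G))) ∧
    Real.log (H (ptX ((2 * (n : ℤ) + 1) • G))) ≤ c * (2 * n + 1) ^ 2 + K₀
  constructor <;> linarith [h1.1, h1.2]

/-- the element `c (x(k) - c x(k'))`, `2 k' + 1 = (2 n + 1) (2 k + 1)` -/
noncomputable def ff (n k : ℕ) (c : K) : K :=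
  c * (algebraMap ℚ K (ptX (U k)) - c * algebraMap ℚ K (ptX (U ((2 * (n * k) + n + k : ℕ) : ℤ))))

/-- soundness -/
theorem sound (K : Type) [Field K] [NumberField K] {B : ℕ} (hB : 1 ≤ B) :
    ∃ k₀ : ℕ, ∀ (n k a : ℕ) (c : K), n ≤ k → k₀ ≤ k → c ≠ 0 →
      2 * (2 * a + 1) ^ 2 + (2 * k + 1) ^ 2 ≤ 2 * ((2 * n + 1) * (2 * k + 1)) ^ 2 →
      mulHeight₁ (c ^ 24) ≤ B * mulHeight₁ (algebraMap ℚ K (ptX (U k))) →
      mulHeight₁ (ff n k c) ≤ B * mulHeight₁ (algebraMap ℚ K (ptX (U a))) →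
      c = (2 * n + 1) ^ 2 := by
  obtain ⟨c₀, K₀, hc₀, hK₀, hU⟩ := ht_U
  set C₁ : ℝ := 9 / 8 * Real.log B + 17 / 8 * K₀ + 2 with hC₁
  have hB' : (1 : ℝ) ≤ B := by exact_mod_cast hB
  have hlB : 0 ≤ Real.log B := Real.log_nonneg hB'
  obtain ⟨k₀, hk₀⟩ := exists_nat_gt ((C₁ + 3) / (3 / 8 * c₀))
  rw [div_lt_iff₀ (by positivity)] at hk₀
  refine ⟨k₀, fun n k a c hnk hk hc hA h24 hff => ?_⟩
  by_contra hne
  rw [ge_iff hB, logHeight_rat] at h24 hff
  rw [logHeight₁_pow] at h24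
  have hOk : IsO ((2 * n + 1) • U (k : ℤ)) := by
    rw [← U_mul]; exact HC.isO_U _
  have h1 := low (P := U (k : ℤ)) (n := 2 * n + 1) (Nat.succ_ne_zero _) hOk hc (by
    push_cast
    exact hne)
  rw [← U_mul] at h1
  change _ ≤ logHeight₁ (ff n k c) + _ + _ at h1
  set d : ℝ := (finrank ℚ K : ℝ) with hd
  have hd1 : 1 ≤ d := by
    rw [hd]
    exact_mod_cast (Module.finrank_pos (R := ℚ) (M := K))
  have h2 := (hU (2 * (n * k) + n + k)).1
  have h3 := (hU a).2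
  have h4 := (hU k).2
  set N : ℝ := 2 * n + 1 with hN
  set M : ℝ := 2 * k + 1 with hM
  set A : ℝ := 2 * a + 1 with hAd
  have hNM : (2 * ((2 * (n * k) + n + k : ℕ) : ℝ) + 1) = N * M := by
    rw [hN, hM]; push_cast; ring
  rw [hNM] at h2
  have hA' : A ^ 2 ≤ (N ^ 2 - 1 / 2) * M ^ 2 := by
    have : (2 : ℝ) * A ^ 2 + M ^ 2 ≤ 2 * (N * M) ^ 2 := by
      rw [hN, hM, hAd]
      exact_mod_cast hA
    nlinarith
  have hN1 : 1 ≤ N := by
    have : (0 : ℝ) ≤ n := Nat.cast_nonneg _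
    rw [hN]; linarith
  have hNM' : N ≤ M := by
    have : (n : ℝ) ≤ k := by exact_mod_cast hnk
    rw [hN, hM]; linarith
  have hlN : Real.log ((2 * n + 1 : ℕ) : ℝ) ≤ M := by
    push_cast
    rw [← hN]
    have := Real.log_le_sub_one_of_pos (show 0 < N by linarith)
    linarith
  have hkM : (k₀ : ℝ) ≤ M := by
    have : (k₀ : ℝ) ≤ k := by exact_mod_cast hk
    have h0 : (0 : ℝ) ≤ k := Nat.cast_nonneg _
    rw [hM]; linarith
  -- the inequalities
  have e1 : d * (c₀ * (N * M) ^ 2 - K₀) ≤ d * Real.log (H (ptX (U ((2 * (n * k) + n + k : ℕ) : ℤ)))) :=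
    mul_le_mul_of_nonneg_left h2 (by linarith)
  have e2 : d * Real.log (H (ptX (U a))) ≤ d * (c₀ * ((N ^ 2 - 1 / 2) * M ^ 2) + K₀) := by
    apply mul_le_mul_of_nonneg_left _ (by linarith)
    have := mul_le_mul_of_nonneg_left hA' hc₀.le
    linarith
  have e3 : d * Real.log (H (ptX (U k))) ≤ d * (c₀ * M ^ 2 + K₀) :=
    mul_le_mul_of_nonneg_left h4 (by linarith)
  have e4 : d * (3 * Real.log ((2 * n + 1 : ℕ) : ℝ) + 2) ≤ d * (3 * M + 2) :=
    mul_le_mul_of_nonneg_left (by linarith) (by linarith)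
  have e5 : Real.log B ≤ d * Real.log B := le_mul_of_one_le_left hlB hd1
  push_cast at h24
  have e6 : 3 * logHeight₁ c ≤ 1 / 8 * (Real.log B + d * Real.log (H (ptX (U k)))) := by linarith
  have e7 : d * (3 / 8 * c₀ * M ^ 2) ≤ d * (C₁ + 3 * M) := by
    rw [hC₁]
    nlinarith
  have e8 : 3 / 8 * c₀ * M ^ 2 ≤ C₁ + 3 * M := le_of_mul_le_mul_left e7 (by linarith)
  have hC₁0 : 0 ≤ C₁ := by rw [hC₁]; positivity
  have e9 : (C₁ + 3) * M < 3 / 8 * c₀ * M ^ 2 := by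
    have h5 : C₁ + 3 < M * (3 / 8 * c₀) := lt_of_lt_of_le hk₀
      (mul_le_mul_of_nonneg_right hkM (by positivity))
    have h6 : 0 < M := by linarith
    nlinarith
  nlinarith

/-- completeness -/
theorem complete (K : Type) [Field K] [NumberField K] {B : ℕ} (hB : 1 ≤ B) (k₀ n : ℕ) :
    ∃ k a : ℕ, n ≤ k ∧ k₀ ≤ k ∧
      2 * (2 * a + 1) ^ 2 + (2 * k + 1) ^ 2 ≤ 2 * ((2 * n + 1) * (2 * k + 1)) ^ 2 ∧
      B * mulHeight₁ (((2 * n + 1 : K) ^ 2) ^ 24) ≤ mulHeight₁ (algebraMap ℚ K (ptX (U k))) ∧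
      B * mulHeight₁ (ff n k ((2 * n + 1 : K) ^ 2)) ≤ mulHeight₁ (algebraMap ℚ K (ptX (U a))) := by
  obtain ⟨c₀, K₀, hc₀, hK₀, hU⟩ := ht_U
  have hB' : (1 : ℝ) ≤ B := by exact_mod_cast hB
  have hlB : 0 ≤ Real.log B := Real.log_nonneg hB'
  set C₁ : ℝ := Real.log B + 5 + 48 * (2 * n + 1) + 3 * K₀ with hC₁
  obtain ⟨j', hj'⟩ := exists_nat_gt (C₁ / (1 / 4 * c₀))
  rw [div_lt_iff₀ (by positivity)] at hj'
  set j : ℕ := j' + k₀ + 1 with hj
  have hj1 : 1 ≤ j := by omega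
  set Nn : ℕ := 2 * n + 1 with hNn
  have hNn1 : 1 ≤ Nn := by omega
  set k : ℕ := 32 * Nn * j with hk
  have h10 : 10 * j ≤ 32 * Nn ^ 2 * j := by
    have : 10 ≤ 32 * Nn ^ 2 := by
      have := Nat.one_le_pow 2 Nn hNn1
      omega
    exact Nat.mul_le_mul_right _ this
  obtain ⟨a, ha⟩ : ∃ a : ℕ, (a : ℤ) = 32 * Nn ^ 2 * j + n - 10 * j := by
    refine ⟨32 * Nn ^ 2 * j + n - 10 * j, ?_⟩
    rw [Nat.cast_sub (by omega)]
    push_cast
    ring
  have hkj : j ≤ k := by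
    rw [hk]
    have : 1 ≤ 32 * Nn := by omega
    nlinarith
  have hnk : n ≤ k := by
    rw [hk]
    have : n ≤ 32 * Nn := by omega
    calc n ≤ 32 * Nn * 1 := by omega
      _ ≤ 32 * Nn * j := Nat.mul_le_mul_left _ hj1
  set N : ℝ := 2 * n + 1 with hN
  set M : ℝ := 2 * k + 1 with hM
  set A : ℝ := 2 * a + 1 with hAd
  have hNc : (Nn : ℝ) = N := by rw [hNn, hN]; push_cast; ring
  have hMj : M = 64 * N * j + 1 := by rw [hM, hk]; push_cast; rw [hNc]; ring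
  have hAj : A = N * M - 20 * j := by
    have h1 : (a : ℝ) = 32 * N ^ 2 * j + n - 10 * j := by
      rw [← hNc]
      exact_mod_cast ha
    rw [hAd, h1, hMj, hN]
    ring
  have hjr : (1 : ℝ) ≤ j := by exact_mod_cast hj1
  have hN1 : 1 ≤ N := by
    have : (0 : ℝ) ≤ n := Nat.cast_nonneg _
    rw [hN]; linarith
  have hNj : 1 ≤ N * j := one_le_mul_of_one_le_of_one_le hN1 hjr
  have hA1 : A ^ 2 ≤ (N ^ 2 - 1 / 2) * M ^ 2 := by
    rw [hAj, hMj]
    have h1 : (j : ℝ) ^ 2 ≤ (N * j) ^ 2 := by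
      have : (j : ℝ) ≤ N * j := le_mul_of_one_le_left (by linarith) hN1
      exact pow_le_pow_left₀ (by linarith) this 2
    nlinarith
  have hA2 : (N ^ 2 - 3 / 4) * M ^ 2 ≤ A ^ 2 := by
    rw [hAj, hMj]
    nlinarith [sq_nonneg (N * j), sq_nonneg (j : ℝ)]
  have hMj' : (j : ℝ) ≤ M := by
    rw [hMj]
    nlinarith
  have hM1 : 1 ≤ M := by linarith
  have hbig : C₁ ≤ 1 / 4 * c₀ * M ^ 2 := by
    have h1 : (j' : ℝ) ≤ M := by
      have : (j' : ℝ) ≤ j := by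
        have : j' ≤ j := by omega
        exact_mod_cast this
      linarith
    have h2 : C₁ ≤ M * (1 / 4 * c₀) := hj'.le.trans
      (mul_le_mul_of_nonneg_right h1 (by positivity))
    nlinarith [mul_pos (show (0 : ℝ) < 1 / 4 by norm_num) hc₀]
  set d : ℝ := (finrank ℚ K : ℝ) with hd
  have hd1 : 1 ≤ d := by
    rw [hd]
    exact_mod_cast (Module.finrank_pos (R := ℚ) (M := K))
  have e5 : Real.log B ≤ d * Real.log B := le_mul_of_one_le_left hlB hd1
  have hlN : Real.log N ≤ N := by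
    have := Real.log_le_sub_one_of_pos (show 0 < N by linarith)
    linarith
  have hlN0 : 0 ≤ Real.log N := Real.log_nonneg hN1
  have hNK : (2 * n + 1 : K) = (Nn : K) := by rw [hNn]; push_cast; ring
  have hNh : logHeight₁ (2 * n + 1 : K) = d * Real.log N := by
    rw [hNK, logHeight_nat (by omega), hNc]
  refine ⟨k, a, hnk, by omega, ?_, ?_, ?_⟩
  · have h1 : (2 : ℝ) * A ^ 2 + M ^ 2 ≤ 2 * (N * M) ^ 2 := by nlinarith
    rw [hAd, hM, hN] at h1
    exact_mod_cast h1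
  · rw [le_iff hB, logHeight₁_pow, logHeight₁_pow, hNh, logHeight_rat]
    have h1 := (hU k).1
    rw [← hM] at h1
    have h2 : Real.log B + 48 * Real.log N ≤ Real.log (H (ptX (U k))) := by
      have : 48 * N ≤ C₁ - Real.log B - 3 * K₀ - 5 := by rw [hC₁]; linarith
      have h3 : 0 ≤ c₀ * M ^ 2 := by positivity
      linarith
    have h3 := mul_le_mul_of_nonneg_left h2 (show 0 ≤ d by linarith)
    push_cast
    linarith
  · have hOk : IsO ((2 * n + 1) • U (k : ℤ)) := by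
      rw [← U_mul]; exact HC.isO_U _
    have h1 := Pad.H_le (P := U (k : ℤ)) (n := 2 * n + 1) (Nat.succ_ne_zero _) (HC.isO_U _) hOk
    rw [← U_mul] at h1
    set f : ℚ := (((2 * n + 1 : ℕ) : ℚ)) ^ 2 * (ptX (U k) - (((2 * n + 1 : ℕ) : ℚ)) ^ 2 *
      ptX (U ((2 * (n * k) + n + k : ℕ) : ℤ))) with hf
    have e0 : ff n k ((2 * n + 1 : K) ^ 2) = algebraMap ℚ K f := by
      rw [hf, ff, map_mul, map_sub, map_mul, map_pow, map_natCast]
      push_cast
      ring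
    rw [le_iff hB, e0, logHeight_rat, logHeight_rat]
    have hH : ∀ q : ℚ, (0 : ℝ) < H q := fun q => by exact_mod_cast HC.H_pos q
    have h2 : Real.log (H f) + Real.log (H (ptX (U k))) ≤
        Real.log 6 + 4 * Real.log N +
          Real.log (H (ptX (U ((2 * (n * k) + n + k : ℕ) : ℤ)))) := by
      have h3 : ((H f : ℕ) : ℝ) * H (ptX (U k)) ≤
          6 * N ^ 4 * H (ptX (U ((2 * (n * k) + n + k : ℕ) : ℤ))) := by
        rw [← hNc]
        exact_mod_cast h1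
      have h4 := Real.log_le_log (mul_pos (hH _) (hH _)) h3
      rw [Real.log_mul (hH _).ne' (hH _).ne', Real.log_mul (by positivity) (hH _).ne',
        Real.log_mul (by norm_num) (by positivity), Real.log_pow] at h4
      push_cast at h4 ⊢
      exact h4
    have h5 := (hU k).1
    have h6 := (hU a).1
    have h7 := (hU (2 * (n * k) + n + k)).2
    have hNM : (2 * ((2 * (n * k) + n + k : ℕ) : ℝ) + 1) = N * M := by
      rw [hN, hM]; push_cast; ring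
    rw [hNM] at h7
    rw [← hM] at h5
    rw [← hAd] at h6
    have hlog6 : Real.log 6 ≤ 5 := by
      have := Real.log_le_sub_one_of_pos (show (0 : ℝ) < 6 by norm_num)
      linarith
    have h8 : Real.log B + Real.log (H f) ≤ Real.log (H (ptX (U a))) := by
      have h9 := mul_le_mul_of_nonneg_left hA2 hc₀.le
      have h10 : C₁ = Real.log B + 5 + 48 * N + 3 * K₀ := hC₁
      nlinarith
    have h9 := mul_le_mul_of_nonneg_left h8 (show 0 ≤ d by linarith)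
    linarith

end Pool.Agent.TH255.HK.Core
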