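import Pool.Agent.TH942.Par

/-!
# The curve `y² = x³ - 2 x` over a field of characteristic zero: the group law in coordinates,
and the action of field homomorphisms
-/

set_option autoImplicit false

open WeierstrassCurve

namespace Pool.Agent.TH255.HK

open Pool.Agent.TH942

/-- the points of `y² = x³ - 2 x` over `K` -/
abbrev PtK (K : Type) [Field K] : Type := SPt (-2 : K) 0

section one

variable {K : Type} [Field K]

/-- first coordinate (`0` for the point at infinity) -/
def pX : PtK K → K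
  | .zero => 0
  | .some x _ _ => x

/-- second coordinate (`0` for the point at infinity) -/
def pY : PtK K → K
  | .zero => 0
  | .some _ y _ => y

@[simp] lemma pX_some {x y : K} (h : (sw (-2 : K) 0).toAffine.Nonsingular x y) :
    pX (Affine.Point.some x y h) = x := rfl
@[simp] lemma pY_some {x y : K} (h : (sw (-2 : K) 0).toAffine.Nonsingular x y) :
    pY (Affine.Point.some x y h) = y := rfl
@[simp] lemma pX_zero : pX (0 : PtK K) = 0 := rfl
@[simp] lemma pY_zero : pY (0 : PtK K) = 0 := rfl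

lemma W_negY (x y : K) : (sw (-2 : K) 0).toAffine.negY x y = -y := by
  simp [Affine.negY, sw]

lemma W_addX (x₁ x₂ l : K) : (sw (-2 : K) 0).toAffine.addX x₁ x₂ l = l ^ 2 - x₁ - x₂ := by
  simp [Affine.addX, sw]

lemma W_addY (x₁ x₂ y₁ l : K) :
    (sw (-2 : K) 0).toAffine.addY x₁ x₂ y₁ l = -(l * ((l ^ 2 - x₁ - x₂) - x₁) + y₁) := by
  rw [Affine.addY, W_negY, Affine.negAddY, W_addX]

/-- case analysis on nonzero points -/
lemma exists_some {P : PtK K} (hP : P ≠ 0) :
    ∃ (x y : K) (h : (sw (-2 : K) 0).toAffine.Nonsingular x y), P = Affine.Point.some x y h := by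
  cases P with
  | zero => exact absurd rfl hP
  | some x y h => exact ⟨x, y, h, rfl⟩

theorem pX_neg (P : PtK K) : pX (-P) = pX P := by
  cases P with
  | zero => rfl
  | some x y h => rw [Affine.Point.neg_some]; rfl

theorem pY_neg (P : PtK K) : pY (-P) = - pY P := by
  cases P with
  | zero => change (0 : K) = - 0; simp
  | some x y h => rw [Affine.Point.neg_some, pY_some, pY_some, W_negY]

theorem pt_ext {P Q : PtK K} (hP : P ≠ 0) (hQ : Q ≠ 0) (h : pX P = pX Q) (h' : pY P = pY Q) :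
    P = Q := by
  obtain ⟨x, y, hxy, rfl⟩ := exists_some hP
  obtain ⟨x', y', hxy', rfl⟩ := exists_some hQ
  simp only [pX_some, pY_some] at h h'
  subst h h'
  rfl

variable [CharZero K]

lemma hD : 4 * (-2 : K) ^ 3 + 27 * 0 ^ 2 ≠ 0 := by norm_num

lemma nonsingular_iff {x y : K} :
    (sw (-2 : K) 0).toAffine.Nonsingular x y ↔ y ^ 2 = x ^ 3 - 2 * x := by
  constructor
  · intro h
    have := sw_eqn.mp h.1
    linear_combination this
  · intro h
    exact sw_nonsing hD (by linear_combination h)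

theorem pt_eq {P : PtK K} (h : P ≠ 0) : pY P ^ 2 = pX P ^ 3 - 2 * pX P := by
  obtain ⟨x, y, hxy, rfl⟩ := exists_some h
  exact nonsingular_iff.mp hxy

theorem pX_eq_iff {P Q : PtK K} (hP : P ≠ 0) (hQ : Q ≠ 0) : pX P = pX Q ↔ P = Q ∨ P = -Q := by
  constructor
  · intro h
    obtain ⟨x, y, hxy, rfl⟩ := exists_some hP
    obtain ⟨x', y', hxy', rfl⟩ := exists_some hQ
    simp only [pX_some] at h
    subst h
    have h1 := nonsingular_iff.mp hxy
    have h2 := nonsingular_iff.mp hxy'
    have h3 : y ^ 2 = y' ^ 2 := by rw [h1, h2]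
    rcases sq_eq_sq_iff_eq_or_eq_neg.mp h3 with h4 | h4
    · left; subst h4; rfl
    · right
      rw [Affine.Point.neg_some]
      subst h4
      simp only [W_negY]
  · rintro (h | h)
    · rw [h]
    · rw [h, pX_neg]

/-- every affine solution is a point -/
theorem exists_pt {x y : K} (h : y ^ 2 = x ^ 3 - 2 * x) :
    ∃ P : PtK K, P ≠ 0 ∧ pX P = x ∧ pY P = y :=
  ⟨Affine.Point.some x y (nonsingular_iff.mpr h), Affine.Point.some_ne_zero _, rfl, rfl⟩

variable [DecidableEq K]

theorem pt_add {P Q : PtK K} (hP : P ≠ 0) (hQ : Q ≠ 0) (h : pX P ≠ pX Q) :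
    let l := (pY P - pY Q) / (pX P - pX Q)
    P + Q ≠ 0 ∧ pX (P + Q) = l ^ 2 - pX P - pX Q ∧
      pY (P + Q) = - (l * (pX (P + Q) - pX P) + pY P) := by
  obtain ⟨x, y, hxy, rfl⟩ := exists_some hP
  obtain ⟨x', y', hxy', rfl⟩ := exists_some hQ
  simp only [pX_some, pY_some] at h ⊢
  rw [Affine.Point.add_of_X_ne h]
  refine ⟨Affine.Point.some_ne_zero _, ?_, ?_⟩
  · rw [pX_some, W_addX, Affine.slope_of_X_ne h]
  · rw [pX_some, pY_some, W_addX, W_addY, Affine.slope_of_X_ne h]

theorem pt_dbl {P : PtK K} (hP : P ≠ 0) (h : pY P ≠ 0) :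
    let l := (3 * pX P ^ 2 - 2) / (2 * pY P)
    P + P ≠ 0 ∧ pX (P + P) = l ^ 2 - 2 * pX P ∧
      pY (P + P) = - (l * (pX (P + P) - pX P) + pY P) := by
  obtain ⟨x, y, hxy, rfl⟩ := exists_some hP
  simp only [pX_some, pY_some] at h ⊢
  have hy : y ≠ (sw (-2 : K) 0).toAffine.negY x y := by
    rw [W_negY]
    intro h1
    apply h
    have h2 : 2 * y = 0 := by linear_combination h1
    exact (mul_eq_zero.mp h2).resolve_left two_ne_zero
  have hsl : (sw (-2 : K) 0).toAffine.slope x x y y = (3 * x ^ 2 - 2) / (2 * y) := by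
    rw [Affine.slope_of_Y_ne rfl hy, W_negY]
    simp only [sw]
    congr 1 <;> ring
  rw [Affine.Point.add_self_of_Y_ne hy]
  have h1 : pX (Affine.Point.some ((sw (-2 : K) 0).toAffine.addX x x
      ((sw (-2 : K) 0).toAffine.slope x x y y))
      ((sw (-2 : K) 0).toAffine.addY x x y ((sw (-2 : K) 0).toAffine.slope x x y y))
      (Affine.nonsingular_add hxy hxy
        fun hxy => hy hxy.right)) = ((3 * x ^ 2 - 2) / (2 * y)) ^ 2 - 2 * x := by
    rw [pX_some, W_addX, hsl]; ring
  refine ⟨Affine.Point.some_ne_zero _, h1, ?_⟩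
  rw [h1, pY_some, W_addY, hsl]; ring

/-! ### collinear triples -/

omit [CharZero K] [DecidableEq K] in
/-- the points `(xᵢ, yᵢ)` are the intersection of the curve with a line (with multiplicities) -/
def Col (x1 y1 x2 y2 x3 y3 : K) : Prop :=
  ∃ l m : K, y1 = l * x1 + m ∧ y2 = l * x2 + m ∧ y3 = l * x3 + m ∧ x1 + x2 + x3 = l ^ 2 ∧
    x1 * x2 + x1 * x3 + x2 * x3 = -2 - 2 * l * m ∧ x1 * x2 * x3 = m ^ 2

theorem col_iff {P Q R : PtK K} (hP : P ≠ 0) (hQ : Q ≠ 0) (hR : R ≠ 0) :
    Col (pX P) (pY P) (pX Q) (pY Q) (pX R) (pY R) ↔ P + Q + R = 0 := by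
  constructor
  · rintro ⟨l, m, h1, h2, h3, e1, e2, e3⟩
    by_cases hx : pX P = pX Q
    · -- a tangent
      have hy : pY P = pY Q := by rw [h1, h2, hx]
      have hPQ : P = Q := pt_ext hP hQ hx hy
      subst hPQ
      have hl : 2 * l * pY P = 3 * pX P ^ 2 - 2 := by
        rw [h1]
        linear_combination 2 * pX P * (-1 : K) * e1 + (1 : K) * e2
      have hY : pY P ≠ 0 := by
        intro h0
        have e := pt_eq hP
        rw [h0] at hl e
        have h4 : 4 * pX P = 0 := by linear_combination 3 * e - pX P * hl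
        have h5 : pX P = 0 := (mul_eq_zero.mp h4).resolve_left (by norm_num)
        rw [h5] at hl
        norm_num at hl
      obtain ⟨k1, k2, k3⟩ := pt_dbl hP hY
      have hl' : (3 * pX P ^ 2 - 2) / (2 * pY P) = l := by
        rw [div_eq_iff (mul_ne_zero two_ne_zero hY)]
        linear_combination -hl
      rw [hl'] at k2 k3
      have e1' : pX R = l ^ 2 - 2 * pX P := by linear_combination e1
      have : P + P = -R := by
        apply pt_ext k1 (neg_ne_zero.mpr hR)
        · rw [pX_neg, k2, e1']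
        · rw [pY_neg, k3, k2, h3, h1, e1']
          ring
      rw [this, neg_add_cancel]
    · obtain ⟨k1, k2, k3⟩ := pt_add hP hQ hx
      have hsub : pX P - pX Q ≠ 0 := sub_ne_zero.mpr hx
      have hl' : (pY P - pY Q) / (pX P - pX Q) = l := by
        rw [div_eq_iff hsub, h1, h2]
        ring
      rw [hl'] at k2 k3
      have e1' : pX R = l ^ 2 - pX P - pX Q := by linear_combination e1
      have : P + Q = -R := by
        apply pt_ext k1 (neg_ne_zero.mpr hR)
        · rw [pX_neg, k2, e1']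
        · rw [pY_neg, k3, k2, h3, h1, e1']
          ring
      rw [this, neg_add_cancel]
  · intro h
    have hPQ : P + Q = -R := by rwa [add_eq_zero_iff_eq_neg] at h
    have hPQ0 : P + Q ≠ 0 := by rw [hPQ]; exact neg_ne_zero.mpr hR
    have hXR : pX R = pX (P + Q) := by rw [hPQ, pX_neg]
    have hYR : pY R = - pY (P + Q) := by rw [hPQ, pY_neg, neg_neg]
    have eP := pt_eq hP
    have eQ := pt_eq hQ
    by_cases hx : pX P = pX Q
    · have hPQ' : P = Q := by
        rcases (pX_eq_iff hP hQ).mp hx with h1 | h1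
        · exact h1
        · exfalso; apply hPQ0; rw [h1]; exact neg_add_cancel _
      subst hPQ'
      have hY : pY P ≠ 0 := by
        intro h0
        apply hPQ0
        have : P = -P := pt_ext hP (neg_ne_zero.mpr hP) (pX_neg P).symm (by rw [pY_neg, h0, neg_zero])
        nth_rewrite 2 [this]
        exact add_neg_cancel P
      obtain ⟨-, k2, k3⟩ := pt_dbl hP hY
      refine ⟨(3 * pX P ^ 2 - 2) / (2 * pY P),
        pY P - (3 * pX P ^ 2 - 2) / (2 * pY P) * pX P, by ring, by ring, ?_, ?_, ?_, ?_⟩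
      · rw [hXR, hYR, k3]; ring
      · rw [hXR, k2]; ring
      · rw [hXR, k2]
        field_simp
        ring
      · rw [hXR, k2]
        field_simp
        linear_combination (-4 * pY P ^ 2) * eP + 0 * eQ
    · obtain ⟨-, k2, k3⟩ := pt_add hP hQ hx
      have hsub : pX P - pX Q ≠ 0 := sub_ne_zero.mpr hx
      set l := (pY P - pY Q) / (pX P - pX Q) with hl
      have hl' : l * (pX P - pX Q) = pY P - pY Q := by rw [hl]; field_simp
      refine ⟨l, pY P - l * pX P, by ring, by linear_combination hl', ?_, ?_, ?_, ?_⟩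
      · rw [hXR, hYR, k3]; ring
      · rw [hXR, k2]; ring
      · have h3 : (pX P - pX Q) * (pX P * pX Q + pX P * pX R + pX Q * pX R
            - (-2 - 2 * l * (pY P - l * pX P))) = 0 := by
          have hQl : pY Q = pY P - l * (pX P - pX Q) := by rw [hl']; ring
          have hR' : pX R = l ^ 2 - pX P - pX Q := by rw [hXR, k2]
          rw [hQl] at eQ
          rw [hR']
          linear_combination eP - eQ
        have h4 := (mul_eq_zero.mp h3).resolve_left hsub
        linear_combination h4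
      · have h3 : (pX P - pX Q) * (pX P * pX Q * pX R
            - (pY P - l * pX P) ^ 2) = 0 := by
          have hQl : pY Q = pY P - l * (pX P - pX Q) := by rw [hl']; ring
          have hR' : pX R = l ^ 2 - pX P - pX Q := by rw [hXR, k2]
          rw [hQl] at eQ
          rw [hR']
          linear_combination pX Q * eP - pX P * eQ
        have h4 := (mul_eq_zero.mp h3).resolve_left hsub
        linear_combination h4

omit [CharZero K] [DecidableEq K] in
lemma Col.on {x1 y1 x2 y2 x3 y3 : K} (h : Col x1 y1 x2 y2 x3 y3) :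
    y1 ^ 2 = x1 ^ 3 - 2 * x1 ∧ y2 ^ 2 = x2 ^ 3 - 2 * x2 ∧ y3 ^ 2 = x3 ^ 3 - 2 * x3 := by
  obtain ⟨l, m, h1, h2, h3, e1, e2, e3⟩ := h
  refine ⟨?_, ?_, ?_⟩
  · rw [h1]; linear_combination x1 ^ 2 * (-1) * e1 + x1 * e2 + (-1) * e3
  · rw [h2]; linear_combination x2 ^ 2 * (-1) * e1 + x2 * e2 + (-1) * e3
  · rw [h3]; linear_combination x3 ^ 2 * (-1) * e1 + x3 * e2 + (-1) * e3

/-- addition of points, in coordinates: `(x₃, y₃) = (x₁, y₁) + (x₂, y₂)` -/
lemma col_add_iff {P Q : PtK K} (hP : P ≠ 0) (hQ : Q ≠ 0) (x y : K) :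
    Col (pX P) (pY P) (pX Q) (pY Q) x (-y) ↔ P + Q ≠ 0 ∧ x = pX (P + Q) ∧ y = pY (P + Q) := by
  constructor
  · intro h
    obtain ⟨S, hS, hSx, hSy⟩ := exists_pt h.on.2.2
    rw [← hSx, ← hSy, col_iff hP hQ hS] at h
    have h1 : P + Q = -S := by rwa [add_eq_zero_iff_eq_neg] at h
    rw [h1, pX_neg, pY_neg, hSx, hSy, neg_neg]
    exact ⟨neg_ne_zero.mpr hS, rfl, rfl⟩
  · rintro ⟨h0, rfl, rfl⟩
    have h1 : -(P + Q) ≠ 0 := neg_ne_zero.mpr h0
    have := (col_iff hP hQ h1).mpr (by abel)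
    rwa [pX_neg, pY_neg] at this

end one

/-! ### field homomorphisms -/

section two

variable {K L M : Type} [Field K] [CharZero K] [Field L] [CharZero L] [Field M] [CharZero M]

/-- the image of a point under a field homomorphism, as a function -/
def mapFun (τ : K →+* L) : PtK K → PtK L
  | .zero => .zero
  | .some x y h => Affine.Point.some (τ x) (τ y) (nonsingular_iff.mpr (by
      have := nonsingular_iff.mp h
      rw [← map_pow, this, map_sub, map_pow, map_mul, map_ofNat]))

lemma mapFun_zero (τ : K →+* L) : mapFun τ 0 = 0 := rfl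

lemma mapFun_ne {τ : K →+* L} {P : PtK K} (hP : P ≠ 0) : mapFun τ P ≠ 0 := by
  obtain ⟨x, y, h, rfl⟩ := exists_some hP
  exact Affine.Point.some_ne_zero _

lemma pX_mapFun (τ : K →+* L) (P : PtK K) : pX (mapFun τ P) = τ (pX P) := by
  cases P with
  | zero => change (0 : L) = τ 0; rw [map_zero]
  | some x y h => rfl

lemma pY_mapFun (τ : K →+* L) (P : PtK K) : pY (mapFun τ P) = τ (pY P) := by
  cases P with
  | zero => change (0 : L) = τ 0; rw [map_zero]
  | some x y h => rfl

omit [CharZero K] [CharZero L] in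
lemma Col.map (τ : K →+* L) {x1 y1 x2 y2 x3 y3 : K} (h : Col x1 y1 x2 y2 x3 y3) :
    Col (τ x1) (τ y1) (τ x2) (τ y2) (τ x3) (τ y3) := by
  obtain ⟨l, m, h1, h2, h3, e1, e2, e3⟩ := h
  refine ⟨τ l, τ m, ?_, ?_, ?_, ?_, ?_, ?_⟩
  · rw [h1]; simp
  · rw [h2]; simp
  · rw [h3]; simp
  · rw [← map_add, ← map_add, e1, map_pow]
  · rw [← map_mul, ← map_mul, ← map_mul, ← map_add, ← map_add, e2]; simp [map_ofNat]
  · rw [← map_mul, ← map_mul, e3, map_pow]

variable [DecidableEq K] [DecidableEq L]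

lemma mapFun_neg (τ : K →+* L) (P : PtK K) : mapFun τ (-P) = -mapFun τ P := by
  by_cases hP : P = 0
  · subst hP
    rw [neg_zero, mapFun_zero, neg_zero]
  · apply pt_ext (mapFun_ne (neg_ne_zero.mpr hP)) (neg_ne_zero.mpr (mapFun_ne hP))
    · rw [pX_mapFun, pX_neg, pX_neg, pX_mapFun]
    · rw [pY_mapFun, pY_neg, pY_neg, pY_mapFun, map_neg]

lemma mapFun_add (τ : K →+* L) (P Q : PtK K) : mapFun τ (P + Q) = mapFun τ P + mapFun τ Q := by
  by_cases hP : P = 0
  · subst hP; rw [zero_add, mapFun_zero, zero_add]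
  by_cases hQ : Q = 0
  · subst hQ; rw [add_zero, mapFun_zero, add_zero]
  by_cases hPQ : P + Q = 0
  · have h1 : P = -Q := by rwa [add_eq_zero_iff_eq_neg] at hPQ
    rw [hPQ, mapFun_zero, h1, mapFun_neg, neg_add_cancel]
  · have h1 : -(P + Q) ≠ 0 := neg_ne_zero.mpr hPQ
    have h2 := ((col_iff hP hQ h1).mpr (by abel)).map τ
    rw [← pX_mapFun, ← pX_mapFun, ← pX_mapFun, ← pY_mapFun, ← pY_mapFun, ← pY_mapFun,
      col_iff (mapFun_ne hP) (mapFun_ne hQ) (mapFun_ne h1), mapFun_neg] at h2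
    exact (add_neg_eq_zero.mp h2).symm

/-- the homomorphism induced by a field homomorphism -/
def mp (τ : K →+* L) : PtK K →+ PtK L where
  toFun := mapFun τ
  map_zero' := rfl
  map_add' := mapFun_add τ

lemma mp_apply (τ : K →+* L) (P : PtK K) : mp τ P = mapFun τ P := rfl
lemma pX_mp (τ : K →+* L) (P : PtK K) : pX (mp τ P) = τ (pX P) := pX_mapFun τ P
lemma pY_mp (τ : K →+* L) (P : PtK K) : pY (mp τ P) = τ (pY P) := pY_mapFun τ P
lemma mp_ne {τ : K →+* L} {P : PtK K} (hP : P ≠ 0) : mp τ P ≠ 0 := mapFun_ne hP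

lemma mp_inj (τ : K →+* L) : Function.Injective (mp τ) := by
  rw [injective_iff_map_eq_zero]
  intro P hP
  by_contra h
  exact mp_ne h hP

lemma mp_comp [DecidableEq M] (τ : K →+* L) (σ : L →+* M) (P : PtK K) :
    mp (σ.comp τ) P = mp σ (mp τ P) := by
  by_cases hP : P = 0
  · subst hP; rw [map_zero, map_zero, map_zero]
  · apply pt_ext (mp_ne hP) (mp_ne (mp_ne hP))
    · rw [pX_mp, pX_mp, pX_mp]; rfl
    · rw [pY_mp, pY_mp, pY_mp]; rfl

end two

end Pool.Agent.TH255.HK
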