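import Pool.Agent.TH255.HK.Iso

/-!
# Existential definitions over a number field, with a comparison of heights
-/

set_option autoImplicit false

open Height

namespace Pool.Agent.TH255.HK

open MvPolynomial

variable {K : Type} [Field K]

/-- `R` is a comparison of heights up to a factor `B`: it contains `B H(x) ≤ H(y)` and is
contained in `H(x) ≤ B H(y)` -/
def BtwK [NumberField K] (B : ℕ) (R : K → K → Prop) : Prop :=
  (∀ x y, B * mulHeight₁ x ≤ mulHeight₁ y → R x y) ∧
    ∀ x y, R x y → mulHeight₁ x ≤ B * mulHeight₁ y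

/-! ### polynomial functions -/

/-- polynomial functions of the environment -/
def PF (f : (ℕ → K) → K) : Prop := ∃ p : MvPolynomial ℕ K, ∀ v, eval v p = f v

theorem PF.var (i : ℕ) : PF (fun v : ℕ → K => v i) := ⟨X i, fun _ => by simp⟩
theorem PF.const (c : K) : PF (fun _ : ℕ → K => c) := ⟨C c, fun _ => by simp⟩
theorem PF.zero : PF (fun _ : ℕ → K => 0) := PF.const 0
theorem PF.one : PF (fun _ : ℕ → K => 1) := PF.const 1
theorem PF.lit (n : ℕ) [n.AtLeastTwo] : PF (fun _ : ℕ → K => (OfNat.ofNat n : K)) := PF.const _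

section
variable {f g : (ℕ → K) → K}

theorem PF.add (hf : PF f) (hg : PF g) : PF (fun v => f v + g v) := by
  obtain ⟨p, hp⟩ := hf
  obtain ⟨q, hq⟩ := hg
  exact ⟨p + q, fun v => by rw [map_add, hp, hq]⟩

theorem PF.mul (hf : PF f) (hg : PF g) : PF (fun v => f v * g v) := by
  obtain ⟨p, hp⟩ := hf
  obtain ⟨q, hq⟩ := hg
  exact ⟨p * q, fun v => by rw [map_mul, hp, hq]⟩

theorem PF.sub (hf : PF f) (hg : PF g) : PF (fun v => f v - g v) := by
  obtain ⟨p, hp⟩ := hf
  obtain ⟨q, hq⟩ := hg
  exact ⟨p - q, fun v => by rw [map_sub, hp, hq]⟩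

theorem PF.neg (hf : PF f) : PF (fun v => - f v) := by
  obtain ⟨p, hp⟩ := hf
  exact ⟨-p, fun v => by rw [map_neg, hp]⟩

theorem PF.pow (hf : PF f) (n : ℕ) : PF (fun v => f v ^ n) := by
  obtain ⟨p, hp⟩ := hf
  exact ⟨p ^ n, fun v => by rw [map_pow, hp]⟩

theorem PF.ren (hf : PF f) (r : ℕ → ℕ) : PF (fun v => f (fun n => v (r n))) := by
  obtain ⟨p, hp⟩ := hf
  exact ⟨rename r p, fun v => by rw [eval_rename]; exact hp _⟩

theorem PF.congr' (hf : PF f) (h : ∀ v, g v = f v) : PF g := by
  obtain ⟨p, hp⟩ := hf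
  exact ⟨p, fun v => by rw [hp, h]⟩

/-- the function on the even part of the environment -/
theorem PF.ev (hf : PF f) : PF (fun v => f (fun n => v (2 * n))) := hf.ren _

end

/-- the odd variables -/
theorem PF.od (i : ℕ) : PF (fun v : ℕ → K => v (2 * i + 1)) := PF.var _

/-! ### environments -/

/-- `v` at the even places, `u` at the odd places -/
def mix (v u : ℕ → K) (n : ℕ) : K := if n % 2 = 0 then v (n / 2) else u (n / 2)

@[simp] theorem mix_even (v u : ℕ → K) (n : ℕ) : mix v u (2 * n) = v n := by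
  unfold mix
  rw [if_pos (by omega)]
  congr 1
  omega

@[simp] theorem mix_odd (v u : ℕ → K) (n : ℕ) : mix v u (2 * n + 1) = u n := by
  unfold mix
  rw [if_neg (by omega)]
  congr 1
  omega

theorem mix_ev_fun (v u : ℕ → K) : (fun n => mix v u (2 * n)) = v := funext fun n => mix_even v u n
theorem mix_od_fun (v u : ℕ → K) : (fun n => mix v u (2 * n + 1)) = u :=
  funext fun n => mix_odd v u n

/-- existentially defined relations, in the language with one more relation -/
def DK [NumberField K] (B : ℕ) (P : (K → K → Prop) → (ℕ → K) → Prop) : Prop :=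
  ∃ (F : List (MvPolynomial ℕ K)) (S : List (ℕ × ℕ)), ∀ R, BtwK B R → ∀ v, P R v ↔
    ∃ u, (∀ p ∈ F, eval (mix v u) p = 0) ∧ ∀ s ∈ S, R (mix v u s.1) (mix v u s.2)

variable [NumberField K] {B : ℕ} {P P' : (K → K → Prop) → (ℕ → K) → Prop}

theorem DK.congr (h : DK B P) (h' : ∀ R, BtwK B R → ∀ v, P' R v ↔ P R v) : DK B P' := by
  obtain ⟨F, S, h⟩ := h
  exact ⟨F, S, fun R hR v => (h' R hR v).trans (h R hR v)⟩

theorem DK.eq {f g : (ℕ → K) → K} (hf : PF f) (hg : PF g) : DK B (fun _ v => f v = g v) := by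
  obtain ⟨p, hp⟩ := hf.sub hg
  refine ⟨[rename (fun n => 2 * n) p], [], fun R _ v => ?_⟩
  have key : ∀ u, eval (mix v u) (rename (fun n => 2 * n) p) = f v - g v := by
    intro u
    rw [eval_rename]
    have : mix v u ∘ (fun n => 2 * n) = v := funext fun n => mix_even v u n
    rw [this]
    exact hp v
  constructor
  · intro h
    refine ⟨fun _ => 0, fun q hq => ?_, by simp⟩
    rw [List.mem_singleton] at hq
    rw [hq, key, h, sub_self]
  · rintro ⟨u, hu, -⟩
    have := hu _ (List.mem_singleton.2 rfl)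
    rw [key] at this
    exact sub_eq_zero.mp this

theorem DK.true : DK (K := K) B (fun _ _ => True) :=
  (DK.eq PF.zero PF.zero).congr fun _ _ _ => by simp

/-- the environment of the first formula -/
def g1 (n : ℕ) : ℕ := if n % 2 = 0 then n else 2 * (2 * (n / 2)) + 1
/-- the environment of the second formula -/
def g2 (n : ℕ) : ℕ := if n % 2 = 0 then n else 2 * (2 * (n / 2) + 1) + 1

omit [NumberField K] in
theorem mix_g1 (v u : ℕ → K) (n : ℕ) :
    mix v u (g1 n) = mix v (fun m => u (2 * m)) n := by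
  obtain ⟨m, rfl | rfl⟩ : ∃ m, n = 2 * m ∨ n = 2 * m + 1 := ⟨n / 2, by omega⟩
  · rw [g1, if_pos (by omega), mix_even, mix_even]
  · have h : (2 * m + 1) / 2 = m := by omega
    rw [g1, if_neg (by omega), h, mix_odd, mix_odd]

omit [NumberField K] in
theorem mix_g2 (v u : ℕ → K) (n : ℕ) :
    mix v u (g2 n) = mix v (fun m => u (2 * m + 1)) n := by
  obtain ⟨m, rfl | rfl⟩ : ∃ m, n = 2 * m ∨ n = 2 * m + 1 := ⟨n / 2, by omega⟩
  · rw [g2, if_pos (by omega), mix_even, mix_even]
  · have h : (2 * m + 1) / 2 = m := by omega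
    rw [g2, if_neg (by omega), h, mix_odd, mix_odd]

omit [NumberField K] in
theorem eval_g1 (v u : ℕ → K) (p : MvPolynomial ℕ K) :
    eval (mix v u) (rename g1 p) = eval (mix v (fun m => u (2 * m))) p := by
  rw [eval_rename]
  congr 2
  funext n
  exact mix_g1 v u n

omit [NumberField K] in
theorem eval_g2 (v u : ℕ → K) (p : MvPolynomial ℕ K) :
    eval (mix v u) (rename g2 p) = eval (mix v (fun m => u (2 * m + 1))) p := by
  rw [eval_rename]
  congr 2
  funext n
  exact mix_g2 v u n

theorem DK.and (h : DK B P) (h' : DK B P') : DK B (fun R v => P R v ∧ P' R v) := by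
  obtain ⟨F, S, hp⟩ := h
  obtain ⟨F', S', hq⟩ := h'
  refine ⟨F.map (rename g1) ++ F'.map (rename g2),
    S.map (fun s => (g1 s.1, g1 s.2)) ++ S'.map (fun s => (g2 s.1, g2 s.2)), fun R hR v => ?_⟩
  change P R v ∧ P' R v ↔ _
  rw [hp R hR, hq R hR]
  constructor
  · rintro ⟨⟨a, ha, ha'⟩, ⟨b, hb, hb'⟩⟩
    refine ⟨mix a b, ?_, ?_⟩
    · intro q hq
      rw [List.mem_append, List.mem_map, List.mem_map] at hq
      rcases hq with ⟨p, hp, rfl⟩ | ⟨p, hp, rfl⟩
      · rw [eval_g1, mix_ev_fun]
        exact ha p hp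
      · rw [eval_g2, mix_od_fun]
        exact hb p hp
    · intro s hs
      rw [List.mem_append, List.mem_map, List.mem_map] at hs
      rcases hs with ⟨s, hs, rfl⟩ | ⟨s, hs, rfl⟩
      · simp only [mix_g1, mix_ev_fun]
        exact ha' s hs
      · simp only [mix_g2, mix_od_fun]
        exact hb' s hs
  · rintro ⟨u, hu, hu'⟩
    refine ⟨⟨fun m => u (2 * m), fun p hp => ?_, fun s hs => ?_⟩,
      ⟨fun m => u (2 * m + 1), fun p hp => ?_, fun s hs => ?_⟩⟩
    · rw [← eval_g1]
      exact hu _ (List.mem_append_left _ (List.mem_map_of_mem hp))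
    · have := hu' (g1 s.1, g1 s.2) (List.mem_append_left _ (List.mem_map_of_mem hs))
      rwa [mix_g1, mix_g1] at this
    · rw [← eval_g2]
      exact hu _ (List.mem_append_right _ (List.mem_map_of_mem hp))
    · have := hu' (g2 s.1, g2 s.2)
        (List.mem_append_right _ (List.mem_map.2 ⟨s, hs, rfl⟩))
      rwa [mix_g2, mix_g2] at this

/-- moving a block of variables to the existential ones -/
def g3 (n : ℕ) : ℕ :=
  if n % 2 = 0 then (if (n / 2) % 2 = 0 then n / 2 else 2 * (2 * (n / 4)) + 1)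
  else 2 * (2 * (n / 2) + 1) + 1

omit [NumberField K] in
theorem mix_g3 (v u : ℕ → K) (n : ℕ) :
    mix v u (g3 n) = mix (mix v (fun m => u (2 * m))) (fun m => u (2 * m + 1)) n := by
  obtain ⟨m, rfl | rfl⟩ : ∃ m, n = 2 * m ∨ n = 2 * m + 1 := ⟨n / 2, by omega⟩
  · rw [mix_even]
    obtain ⟨k, rfl | rfl⟩ : ∃ k, m = 2 * k ∨ m = 2 * k + 1 := ⟨m / 2, by omega⟩
    · have h1 : 2 * (2 * k) / 2 = 2 * k := by omega
      rw [g3, if_pos (by omega), if_pos (by omega), h1, mix_even, mix_even]
    · have h1 : 2 * (2 * k + 1) / 4 = k := by omega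
      rw [g3, if_pos (by omega), if_neg (by omega), h1, mix_odd, mix_odd]
  · have h1 : (2 * m + 1) / 2 = m := by omega
    rw [g3, if_neg (by omega), h1, mix_odd, mix_odd]

/-- existential quantification over a block of variables -/
theorem DK.exs {P : (K → K → Prop) → (ℕ → K) → (ℕ → K) → Prop}
    (h : DK B (fun R w => P R (fun n => w (2 * n)) (fun n => w (2 * n + 1)))) :
    DK B (fun R v => ∃ u, P R v u) := by
  obtain ⟨F, S, hp⟩ := h
  refine ⟨F.map (rename g3), S.map (fun s => (g3 s.1, g3 s.2)), fun R hR v => ?_⟩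
  constructor
  · rintro ⟨a, ha⟩
    have h1 := (hp R hR (mix v a)).1 (by simpa only [mix_ev_fun, mix_od_fun] using ha)
    obtain ⟨b, hb, hb'⟩ := h1
    refine ⟨mix a b, ?_, ?_⟩
    · intro q hq
      rw [List.mem_map] at hq
      obtain ⟨p, hp', rfl⟩ := hq
      rw [eval_rename]
      have : mix v (mix a b) ∘ g3 = mix (mix v a) b := by
        funext n
        simp only [Function.comp, mix_g3, mix_ev_fun, mix_od_fun]
      rw [this]
      exact hb p hp'
    · intro s hs
      rw [List.mem_map] at hs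
      obtain ⟨s, hs, rfl⟩ := hs
      simp only [mix_g3, mix_ev_fun, mix_od_fun]
      exact hb' s hs
  · rintro ⟨u, hu, hu'⟩
    refine ⟨fun m => u (2 * m), ?_⟩
    have h1 := (hp R hR (mix v (fun m => u (2 * m)))).2 ⟨fun m => u (2 * m + 1), ?_, ?_⟩
    · simpa only [mix_ev_fun, mix_od_fun] using h1
    · intro p hp'
      have h2 := hu _ (List.mem_map_of_mem (f := rename g3) hp')
      rw [eval_rename] at h2
      have : mix v u ∘ g3 = mix (mix v (fun m => u (2 * m))) (fun m => u (2 * m + 1)) := by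
        funext n
        simp only [Function.comp, mix_g3]
      rw [this] at h2
      exact h2
    · intro s hs
      have := hu' (g3 s.1, g3 s.2) (List.mem_map.2 ⟨s, hs, rfl⟩)
      rwa [mix_g3, mix_g3] at this

/-- renaming the free variables -/
theorem DK.ren (h : DK B P) (r : ℕ → ℕ) : DK B (fun R v => P R (fun n => v (r n))) := by
  obtain ⟨F, S, hp⟩ := h
  let k : ℕ → ℕ := fun n => if n % 2 = 0 then 2 * r (n / 2) else n
  have hk : ∀ (v u : ℕ → K) n, mix v u (k n) = mix (fun n => v (r n)) u n := by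
    intro v u n
    obtain ⟨m, rfl | rfl⟩ : ∃ m, n = 2 * m ∨ n = 2 * m + 1 := ⟨n / 2, by omega⟩
    · have h1 : 2 * m / 2 = m := by omega
      simp only [k]
      rw [if_pos (by omega), h1, mix_even, mix_even]
    · simp only [k]
      rw [if_neg (by omega), mix_odd, mix_odd]
  have hk' : ∀ v u : ℕ → K, mix v u ∘ k = mix (fun n => v (r n)) u :=
    fun v u => funext fun n => hk v u n
  refine ⟨F.map (rename k), S.map (fun s => (k s.1, k s.2)), fun R hR v => ?_⟩
  change P R (fun n => v (r n)) ↔ _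
  rw [hp R hR]
  refine exists_congr fun u => ?_
  refine and_congr ?_ ?_
  · constructor
    · intro h q hq
      rw [List.mem_map] at hq
      obtain ⟨p, hp', rfl⟩ := hq
      rw [eval_rename, hk']
      exact h p hp'
    · intro h p hp'
      have := h _ (List.mem_map_of_mem (f := rename k) hp')
      rwa [eval_rename, hk'] at this
  · constructor
    · intro h s hs
      rw [List.mem_map] at hs
      obtain ⟨s, hs, rfl⟩ := hs
      simp only [hk]
      exact h s hs
    · intro h s hs
      have := h (k s.1, k s.2) (List.mem_map.2 ⟨s, hs, rfl⟩)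
      rwa [hk, hk] at this

/-- the relation itself -/
theorem DK.rel {f g : (ℕ → K) → K} (hf : PF f) (hg : PF g) :
    DK B (fun R v => R (f v) (g v)) := by
  have h0 : DK (K := K) B (fun R v => R (v 1) (v 3)) := by
    refine ⟨[], [(2, 6)], fun R _ v => ?_⟩
    constructor
    · intro h
      refine ⟨fun _ => 0, by simp, ?_⟩
      intro s hs
      rw [List.mem_singleton] at hs
      subst hs
      exact (mix_even v _ 1).symm ▸ (mix_even v _ 3).symm ▸ h
    · rintro ⟨u, -, h⟩
      have := h (2, 6) (List.mem_singleton.2 rfl)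
      have e1 : mix v u 2 = v 1 := mix_even v u 1
      have e2 : mix v u 6 = v 3 := mix_even v u 3
      simp only [e1, e2] at this
      exact this
  have h1 : DK B (fun R v => ∃ u : ℕ → K, (u 0 = f v ∧ u 1 = g v) ∧ R (u 0) (u 1)) := by
    refine DK.exs (((DK.eq (PF.od 0) hf.ev).and (DK.eq (PF.od 1) hg.ev)).and ?_)
    exact h0
  refine h1.congr fun R _ v => ?_
  constructor
  · intro h
    exact ⟨fun n => if n = 0 then f v else g v, ⟨by simp, by simp⟩, by simpa using h⟩
  · rintro ⟨u, ⟨h0, h1⟩, h⟩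
    rwa [h0, h1] at h

theorem DK.ne {f g : (ℕ → K) → K} (hf : PF f) (hg : PF g) : DK B (fun _ v => f v ≠ g v) := by
  have h : DK B (fun _ v => ∃ u : ℕ → K, (f v - g v) * u 0 = 1) :=
    DK.exs (DK.eq ((hf.ev.sub hg.ev).mul (PF.od 0)) PF.one)
  refine h.congr fun _ _ v => ?_
  constructor
  · intro h
    exact ⟨fun _ => (f v - g v)⁻¹, mul_inv_cancel₀ (sub_ne_zero.2 h)⟩
  · rintro ⟨a, ha⟩ h
    rw [h, sub_self, zero_mul] at ha
    exact zero_ne_one ha

theorem DK.list {α : Type*} (L : List α) {Q : α → (K → K → Prop) → (ℕ → K) → Prop}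
    (h : ∀ a, DK B (Q a)) : DK B (fun R v => ∀ a ∈ L, Q a R v) := by
  induction L with
  | nil => exact DK.true.congr fun _ _ _ => by simp
  | cons a L ih => exact ((h a).and ih).congr fun _ _ _ => by simp

/-- the value lies in a finite list -/
theorem DK.mem {f : (ℕ → K) → K} (hf : PF f) (L : List K) : DK B (fun _ v => f v ∈ L) := by
  have h : PF (fun v => (L.map (fun c => f v - c)).prod) := by
    induction L with
    | nil => exact PF.one.congr' fun v => by simp
    | cons c L ih => exact ((hf.sub (PF.const c)).mul ih).congr' fun v => by simp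
  refine (DK.eq h PF.zero).congr fun _ _ v => ?_
  rw [List.prod_eq_zero_iff, List.mem_map]
  constructor
  · intro h
    exact ⟨f v, h, sub_self _⟩
  · rintro ⟨c, hc, h⟩
    rwa [sub_eq_zero.mp h]

/-- the final form: finitely many polynomials, finitely many comparisons -/
theorem DK.final {Q : K → Prop} (h : DK B (fun _ v => Q (v 0))) :
    ∃ (n : ℕ) (F : List (MvPolynomial (Fin (n + 1)) K)) (S : List (Fin (n + 1) × Fin (n + 1))),
      ∀ R : K → K → Prop, BtwK B R → ∀ x : K, Q x ↔ ∃ y : Fin (n + 1) → K, y 0 = x ∧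
        (∀ p ∈ F, eval y p = 0) ∧ ∀ s ∈ S, R (y s.1) (y s.2) := by
  classical
  obtain ⟨F, S, hp⟩ := h
  obtain ⟨N, hN, hS⟩ : ∃ N : ℕ, (∀ p ∈ F, ∀ i ∈ p.vars, i < N) ∧ ∀ s ∈ S, s.1 < N ∧ s.2 < N := by
    refine ⟨(F.map (fun p => p.vars.sup id)).sum + (S.map (fun s => s.1 + s.2)).sum + 1,
      fun p hp i hi => ?_, fun s hs => ?_⟩
    · have h1 : id i ≤ p.vars.sup id := Finset.le_sup hi
      have h2 : p.vars.sup id ≤ (F.map (fun p => p.vars.sup id)).sum :=
        List.single_le_sum (fun _ _ => Nat.zero_le _) _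
          (List.mem_map_of_mem (f := fun p : MvPolynomial ℕ K => p.vars.sup id) hp)
      simp only [id] at h1
      omega
    · have : s.1 + s.2 ≤ (S.map (fun s => s.1 + s.2)).sum :=
        List.single_le_sum (fun _ _ => Nat.zero_le _) _ (List.mem_map_of_mem hs)
      omega
  let g : ℕ → Fin (N + 1) := fun n => if h : n < N + 1 then ⟨n, h⟩ else 0
  have hg : ∀ n, n < N → ((g n : Fin (N + 1)) : ℕ) = n := by
    intro n hn
    simp only [g]
    rw [dif_pos (by omega)]
  have key : ∀ (w : ℕ → K) (y : Fin (N + 1) → K), (∀ i : Fin (N + 1), y i = w i) →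
      (∀ p ∈ F, eval y (rename g p) = eval w p) ∧
        ∀ s ∈ S, y (g s.1) = w s.1 ∧ y (g s.2) = w s.2 := by
    intro w y hw
    refine ⟨fun p hp => ?_, fun s hs => ?_⟩
    · rw [eval_rename]
      apply MvPolynomial.eval₂Hom_congr' rfl _ rfl
      intro i hi _
      simp only [Function.comp]
      rw [hw, hg i (hN p hp i hi)]
    · rw [hw, hw, hg _ (hS s hs).1, hg _ (hS s hs).2]
      exact ⟨rfl, rfl⟩
  refine ⟨N, F.map (rename g), S.map (fun s => (g s.1, g s.2)), fun R hR x => ?_⟩
  constructor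
  · intro hx
    obtain ⟨u, hu, hu'⟩ := (hp R hR (fun _ => x)).1 hx
    obtain ⟨k1, k2⟩ := key (mix (fun _ => x) u) (fun i => mix (fun _ => x) u i) (fun _ => rfl)
    refine ⟨fun i => mix (fun _ => x) u i, mix_even _ u 0, fun q hq => ?_, ?_⟩
    · rw [List.mem_map] at hq
      obtain ⟨p, hp', rfl⟩ := hq
      rw [k1 p hp']
      exact hu p hp'
    · intro s hs
      rw [List.mem_map] at hs
      obtain ⟨s, hs, rfl⟩ := hs
      change R (mix (fun _ => x) u (g s.1)) (mix (fun _ => x) u (g s.2))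
      rw [(k2 s hs).1, (k2 s hs).2]
      exact hu' s hs
  · rintro ⟨y, hy, hp0, hR'⟩
    set w : ℕ → K := fun n => if h : n < N + 1 then y ⟨n, h⟩ else 0 with hw
    have hyw : ∀ i : Fin (N + 1), y i = w i := by
      intro i
      simp only [w]
      rw [dif_pos i.2]
    obtain ⟨k1, k2⟩ := key w y hyw
    have hmix : mix (fun n => w (2 * n)) (fun n => w (2 * n + 1)) = w := by
      funext n
      obtain ⟨m, rfl | rfl⟩ : ∃ m, n = 2 * m ∨ n = 2 * m + 1 := ⟨n / 2, by omega⟩
      · rw [mix_even]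
      · rw [mix_odd]
    have h1 := (hp R hR (fun n => w (2 * n))).2 ⟨fun n => w (2 * n + 1), fun p hp' => by
      rw [hmix, ← k1 p hp']; exact hp0 _ (List.mem_map_of_mem (f := rename g) hp'),
      fun s hs => by
        rw [hmix, ← (k2 s hs).1, ← (k2 s hs).2]
        exact hR' _ (List.mem_map_of_mem (f := fun s : ℕ × ℕ => (g s.1, g s.2)) hs)⟩
    have h2 : w (2 * 0) = x := by
      rw [← hy, hyw]; rfl
    change Q (w (2 * 0)) at h1
    rwa [h2] at h1

end Pool.Agent.TH255.HK
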