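import Pool.Agent.TH255.HK.Code

/-!
# The relations between coded integers, over a number field
-/

set_option autoImplicit false

open Height

namespace Pool.Agent.TH255.HK

open Pool.Agent.TH942
open Pool.Agent.TH255.HC (G U U_ne U_inj zsmul_G U_neg Tol LER H gK gL g_spec Cmp cmp_LER Btw T
  T_ne U_add_T_ne U_add_T_add_ne smul_U_ne)

variable {K : Type} [Field K] [NumberField K]

/-- the restriction of a relation to the rational numbers -/
def ratR (R : K → K → Prop) (x y : ℚ) : Prop := R (algebraMap ℚ K x) (algebraMap ℚ K y)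

/-- the tolerance for the rational numbers -/
noncomputable def tau (B : ℕ) : Tol := ⟨B, Real.log B, 0, by norm_num⟩

lemma log_rat (q : ℚ) : Real.log (mulHeight₁ (algebraMap ℚ K q)) =
    Module.finrank ℚ K * Real.log (H q) := by
  have h := ht_hom (algebraMap ℚ K) q
  rw [Module.finrank_self, Nat.cast_one, one_mul, logHeight₁_eq_log_mulHeight₁,
    logHeight₁_eq_log_mulHeight₁, ← HC.H_cast] at h
  exact h

lemma btw_rat {B : ℕ} (hB : 1 ≤ B) {R : K → K → Prop} (hR : BtwK B R) :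
    Btw (tau B) (ratR R) := by
  have hB' : (1 : ℝ) ≤ B := by exact_mod_cast hB
  have hlB : 0 ≤ Real.log B := Real.log_nonneg hB'
  have hd : (1 : ℝ) ≤ Module.finrank ℚ K := by
    exact_mod_cast (Module.finrank_pos (R := ℚ) (M := K))
  have hpos : ∀ x : K, 0 < mulHeight₁ x := fun x => lt_of_lt_of_le one_pos (one_le_mulHeight₁ x)
  have hH : ∀ q : ℚ, (0 : ℝ) < H q := fun q => by exact_mod_cast HC.H_pos q
  constructor
  · intro x y hxy
    apply hR.1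
    have h1 : ((B * H x : ℕ) : ℝ) ≤ H y := by
      have : B * H x ≤ H y := hxy
      exact_mod_cast this
    push_cast at h1
    have h2 : Real.log B + Real.log (H x) ≤ Real.log (H y) := by
      rw [← Real.log_mul (by linarith) (hH x).ne']
      exact Real.log_le_log (mul_pos (by linarith) (hH x)) h1
    apply (Real.log_le_log_iff (mul_pos (by linarith) (hpos _)) (hpos _)).mp
    rw [Real.log_mul (by linarith) (hpos _).ne', log_rat, log_rat]
    nlinarith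
  · intro x y hxy
    have h1 := Real.log_le_log (hpos _) (hR.2 _ _ hxy)
    rw [Real.log_mul (by linarith) (hpos _).ne', log_rat, log_rat] at h1
    change Real.log (H x) ≤ Real.log (H y) + Real.log B * (1 + Real.log (H y)) ^ (0 : ℝ)
    rw [Real.rpow_zero, mul_one]
    by_contra hc
    push Not at hc
    nlinarith

variable {B : ℕ} [DecidableEq K]

lemma mp_rat (P : PtK ℚ) : pX (mp (algebraMap ℚ K) P) = algebraMap ℚ K (HC.ptX P) ∧
    pY (mp (algebraMap ℚ K) P) = algebraMap ℚ K (HC.ptY P) := by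
  rw [pX_mp, pY_mp, pX_rat, pY_rat]
  exact ⟨rfl, rfl⟩

lemma mulR_rat {P : PtK ℚ} (hP : ∀ n : ℕ, n ≠ 0 → n • P ≠ 0) (k : ℕ) (x' y' : K) :
    MulR k (algebraMap ℚ K (HC.ptX P)) (algebraMap ℚ K (HC.ptY P)) x' y' ↔
      x' = algebraMap ℚ K (HC.ptX ((k + 1) • P)) ∧ y' = algebraMap ℚ K (HC.ptY ((k + 1) • P)) := by
  have hP1 : P ≠ 0 := by simpa using hP 1 one_ne_zero
  obtain ⟨e1, e2⟩ := mp_rat (K := K) P
  obtain ⟨e3, e4⟩ := mp_rat (K := K) ((k + 1) • P)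
  rw [← e1, ← e2, ← e3, ← e4, map_nsmul]
  constructor
  · intro h
    exact (mulR_sound (mp_ne hP1) k x' y' h).2
  · rintro ⟨rfl, rfl⟩
    refine mulR_compl (fun n hn => ?_) k
    rw [← map_nsmul]
    exact mp_ne (hP n hn)

lemma col_rat {P Q : PtK ℚ} (hP : P ≠ 0) (hQ : Q ≠ 0) (x y : K) :
    Col (algebraMap ℚ K (HC.ptX P)) (algebraMap ℚ K (HC.ptY P)) (algebraMap ℚ K (HC.ptX Q))
      (algebraMap ℚ K (HC.ptY Q)) x (-y) ↔ P + Q ≠ 0 ∧ x = algebraMap ℚ K (HC.ptX (P + Q)) ∧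
        y = algebraMap ℚ K (HC.ptY (P + Q)) := by
  obtain ⟨e1, e2⟩ := mp_rat (K := K) P
  obtain ⟨e3, e4⟩ := mp_rat (K := K) Q
  obtain ⟨e5, e6⟩ := mp_rat (K := K) (P + Q)
  rw [← e1, ← e2, ← e3, ← e4, ← e5, ← e6, col_add_iff (mp_ne hP) (mp_ne hQ), map_add]
  refine and_congr_left fun _ => ?_
  rw [← map_add]
  constructor
  · intro h h0
    rw [h0, map_zero] at h
    exact h rfl
  · intro h
    exact mp_ne h

/-- the comparison is existentially definable -/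
theorem dk_le (hB : 1 ≤ B) {x1 y1 x2 y2 x3 y3 x4 y4 : (ℕ → K) → K} (h1 : PF x1) (k1 : PF y1)
    (h2 : PF x2) (k2 : PF y2) (h3 : PF x3) (k3 : PF y3) (h4 : PF x4) (k4 : PF y4) :
    DK B (fun R v => ∃ a b c d : ℤ, Cd (x1 v) (y1 v) a ∧ Cd (x2 v) (y2 v) b ∧
      Cd (x3 v) (y3 v) c ∧ Cd (x4 v) (y4 v) d ∧ LER (tau B) (ratR R) a b c d) := by
  obtain ⟨k, hk⟩ : ∃ k, gK (tau B) = k + 1 := ⟨gK (tau B) - 1, by
    have : gK (tau B) ≠ 0 := by
      intro h0
      have := (g_spec (tau B)).1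
      rw [h0] at this
      simp at this
    omega⟩
  have h : DK B (fun R v => (∃ n : ℤ, Cd (x1 v) (y1 v) n) ∧ (∃ n : ℤ, Cd (x2 v) (y2 v) n) ∧
      (∃ n : ℤ, Cd (x3 v) (y3 v) n) ∧ (∃ n : ℤ, Cd (x4 v) (y4 v) n) ∧
      ∃ u : ℕ → K, MulR k (x1 v) (y1 v) (u 0) (u 1) ∧ MulR k (x2 v) (y2 v) (u 2) (u 3) ∧
        MulR k (x3 v) (y3 v) (u 4) (u 5) ∧ MulR k (x4 v) (y4 v) (u 6) (u 7) ∧
        (2 ^ gL (tau B) * u 8 = u 4 * u 6) ∧ R (u 0 * u 2) (u 8)) := by
    refine (dk_code hB h1 k1).and ((dk_code hB h2 k2).and ((dk_code hB h3 k3).and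
      ((dk_code hB h4 k4).and (DK.exs ?_))))
    refine (dk_mulR k h1.ev k1.ev (PF.od 0) (PF.od 1)).and ?_
    refine (dk_mulR k h2.ev k2.ev (PF.od 2) (PF.od 3)).and ?_
    refine (dk_mulR k h3.ev k3.ev (PF.od 4) (PF.od 5)).and ?_
    refine (dk_mulR k h4.ev k4.ev (PF.od 6) (PF.od 7)).and ?_
    refine (DK.eq (((PF.lit 2).pow (gL (tau B))).mul (PF.od 8)) ((PF.od 4).mul (PF.od 6))).and ?_
    exact DK.rel ((PF.od 0).mul (PF.od 2)) (PF.od 8)
  refine h.congr fun R hR v => ?_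
  have key : ∀ a b c d : ℤ, Cd (x1 v) (y1 v) a → Cd (x2 v) (y2 v) b → Cd (x3 v) (y3 v) c →
      Cd (x4 v) (y4 v) d → (LER (tau B) (ratR R) a b c d ↔
        ∃ u : ℕ → K, MulR k (x1 v) (y1 v) (u 0) (u 1) ∧ MulR k (x2 v) (y2 v) (u 2) (u 3) ∧
        MulR k (x3 v) (y3 v) (u 4) (u 5) ∧ MulR k (x4 v) (y4 v) (u 6) (u 7) ∧
        (2 ^ gL (tau B) * u 8 = u 4 * u 6) ∧ R (u 0 * u 2) (u 8)) := by
    rintro a b c d ⟨e1, f1⟩ ⟨e2, f2⟩ ⟨e3, f3⟩ ⟨e4, f4⟩
    rw [e1, f1, e2, f2, e3, f3, e4, f4]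
    have hp : (2 : K) ^ gL (tau B) ≠ 0 := pow_ne_zero _ two_ne_zero
    have ecd : algebraMap ℚ K (HC.ptX ((k + 1) • U c) * HC.ptX ((k + 1) • U d) / 2 ^ gL (tau B)) =
        algebraMap ℚ K (HC.ptX ((k + 1) • U c)) * algebraMap ℚ K (HC.ptX ((k + 1) • U d)) /
          2 ^ gL (tau B) := by
      rw [map_div₀, map_mul, map_pow, map_ofNat]
    have eab : algebraMap ℚ K (HC.ptX ((k + 1) • U a) * HC.ptX ((k + 1) • U b)) =
        algebraMap ℚ K (HC.ptX ((k + 1) • U a)) * algebraMap ℚ K (HC.ptX ((k + 1) • U b)) :=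
      map_mul _ _ _
    unfold LER ratR
    rw [hk, ecd, eab]
    constructor
    · intro hS
      refine ⟨fun n => if n = 0 then algebraMap ℚ K (HC.ptX ((k + 1) • U a))
        else if n = 1 then algebraMap ℚ K (HC.ptY ((k + 1) • U a))
        else if n = 2 then algebraMap ℚ K (HC.ptX ((k + 1) • U b))
        else if n = 3 then algebraMap ℚ K (HC.ptY ((k + 1) • U b))
        else if n = 4 then algebraMap ℚ K (HC.ptX ((k + 1) • U c))
        else if n = 5 then algebraMap ℚ K (HC.ptY ((k + 1) • U c))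
        else if n = 6 then algebraMap ℚ K (HC.ptX ((k + 1) • U d))
        else if n = 7 then algebraMap ℚ K (HC.ptY ((k + 1) • U d))
        else algebraMap ℚ K (HC.ptX ((k + 1) • U c)) *
          algebraMap ℚ K (HC.ptX ((k + 1) • U d)) / 2 ^ gL (tau B),
        (mulR_rat (smul_U_ne a) _ _ _).mpr (by simp), (mulR_rat (smul_U_ne b) _ _ _).mpr (by simp),
        (mulR_rat (smul_U_ne c) _ _ _).mpr (by simp), (mulR_rat (smul_U_ne d) _ _ _).mpr (by simp),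
        ?_, ?_⟩
      · norm_num
        field_simp
      · norm_num
        exact hS
    · rintro ⟨u, hu1, hu2, hu3, hu4, hu5, hu6⟩
      obtain ⟨e5, -⟩ := (mulR_rat (smul_U_ne a) _ _ _).mp hu1
      obtain ⟨e6, -⟩ := (mulR_rat (smul_U_ne b) _ _ _).mp hu2
      obtain ⟨e7, -⟩ := (mulR_rat (smul_U_ne c) _ _ _).mp hu3
      obtain ⟨e8, -⟩ := (mulR_rat (smul_U_ne d) _ _ _).mp hu4
      have e9 : u 8 = algebraMap ℚ K (HC.ptX ((k + 1) • U c)) *
          algebraMap ℚ K (HC.ptX ((k + 1) • U d)) / 2 ^ gL (tau B) := by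
        rw [eq_div_iff hp, ← e7, ← e8, ← hu5, mul_comm]
      rw [e5, e6, e9] at hu6
      exact hu6
  constructor
  · rintro ⟨a, b, c, d, c1, c2, c3, c4, hS⟩
    exact ⟨⟨a, c1⟩, ⟨b, c2⟩, ⟨c, c3⟩, ⟨d, c4⟩, (key a b c d c1 c2 c3 c4).mp hS⟩
  · rintro ⟨⟨a, c1⟩, ⟨b, c2⟩, ⟨c, c3⟩, ⟨d, c4⟩, hu⟩
    exact ⟨a, b, c, d, c1, c2, c3, c4, (key a b c d c1 c2 c3 c4).mpr hu⟩

/-! ### addition -/

theorem dk_sum (hB : 1 ≤ B) {x1 y1 x2 y2 x3 y3 x4 y4 : (ℕ → K) → K} (h1 : PF x1) (k1 : PF y1)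
    (h2 : PF x2) (k2 : PF y2) (h3 : PF x3) (k3 : PF y3) (h4 : PF x4) (k4 : PF y4) :
    DK B (fun _ v => ∃ a b c d : ℤ, Cd (x1 v) (y1 v) a ∧ Cd (x2 v) (y2 v) b ∧
      Cd (x3 v) (y3 v) c ∧ Cd (x4 v) (y4 v) d ∧ a + b = c + d) := by
  have h : DK B (fun R v => (∃ n : ℤ, Cd (x1 v) (y1 v) n) ∧ (∃ n : ℤ, Cd (x2 v) (y2 v) n) ∧
      (∃ n : ℤ, Cd (x3 v) (y3 v) n) ∧ (∃ n : ℤ, Cd (x4 v) (y4 v) n) ∧
      ∃ u : ℕ → K, Col (x1 v) (y1 v) 0 0 (u 0) (- u 1) ∧
        Col (u 0) (u 1) (x2 v) (y2 v) (u 2) (- u 3) ∧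
        Col (x3 v) (y3 v) 0 0 (u 4) (- u 5) ∧
        Col (u 4) (u 5) (x4 v) (y4 v) (u 2) (- u 3)) := by
    refine (dk_code hB h1 k1).and ((dk_code hB h2 k2).and ((dk_code hB h3 k3).and
      ((dk_code hB h4 k4).and (DK.exs ?_))))
    refine (dk_col h1.ev k1.ev PF.zero PF.zero (PF.od 0) (PF.od 1).neg).and ?_
    refine (dk_col (PF.od 0) (PF.od 1) h2.ev k2.ev (PF.od 2) (PF.od 3).neg).and ?_
    refine (dk_col h3.ev k3.ev PF.zero PF.zero (PF.od 4) (PF.od 5).neg).and ?_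
    exact dk_col (PF.od 4) (PF.od 5) h4.ev k4.ev (PF.od 2) (PF.od 3).neg
  refine h.congr fun R hR v => ?_
  have key : ∀ a b c d : ℤ, Cd (x1 v) (y1 v) a → Cd (x2 v) (y2 v) b → Cd (x3 v) (y3 v) c →
      Cd (x4 v) (y4 v) d → (a + b = c + d ↔
      ∃ u : ℕ → K, Col (x1 v) (y1 v) 0 0 (u 0) (- u 1) ∧
        Col (u 0) (u 1) (x2 v) (y2 v) (u 2) (- u 3) ∧
        Col (x3 v) (y3 v) 0 0 (u 4) (- u 5) ∧
        Col (u 4) (u 5) (x4 v) (y4 v) (u 2) (- u 3)) := by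
    rintro a b c d ⟨e1, f1⟩ ⟨e2, f2⟩ ⟨e3, f3⟩ ⟨e4, f4⟩
    rw [e1, f1, e2, f2, e3, f3, e4, f4]
    have hT : ∀ (P : PtK ℚ) (hP : P ≠ 0) (x y : K), Col (algebraMap ℚ K (HC.ptX P))
        (algebraMap ℚ K (HC.ptY P)) 0 0 x (-y) ↔
        P + T ≠ 0 ∧ x = algebraMap ℚ K (HC.ptX (P + T)) ∧ y = algebraMap ℚ K (HC.ptY (P + T)) := by
      intro P hP x y
      have := col_rat (K := K) hP T_ne x y
      rwa [HC.ptX_T, HC.ptY_T, map_zero] at this
    constructor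
    · intro hS
      have hab : U a + T + U b = U c + T + U d := by
        have : U a + U b = U c + U d := by
          rw [U, U, U, U, ← add_smul, ← add_smul]
          congr 1
          linarith
        calc U a + T + U b = U a + U b + T := by abel
          _ = U c + U d + T := by rw [this]
          _ = _ := by abel
      refine ⟨fun n => if n = 0 then algebraMap ℚ K (HC.ptX (U a + T))
        else if n = 1 then algebraMap ℚ K (HC.ptY (U a + T))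
        else if n = 2 then algebraMap ℚ K (HC.ptX (U a + T + U b))
        else if n = 3 then algebraMap ℚ K (HC.ptY (U a + T + U b))
        else if n = 4 then algebraMap ℚ K (HC.ptX (U c + T))
        else algebraMap ℚ K (HC.ptY (U c + T)), ?_, ?_, ?_, ?_⟩
      · rw [hT _ (U_ne a)]
        exact ⟨U_add_T_ne a, by simp, by simp⟩
      · have := (col_rat (K := K) (U_add_T_ne a) (U_ne b) (algebraMap ℚ K (HC.ptX (U a + T + U b)))
          (algebraMap ℚ K (HC.ptY (U a + T + U b)))).mpr ⟨U_add_T_add_ne a b, rfl, rfl⟩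
        simpa using this
      · rw [hT _ (U_ne c)]
        exact ⟨U_add_T_ne c, by simp, by simp⟩
      · have := (col_rat (K := K) (U_add_T_ne c) (U_ne d) (algebraMap ℚ K (HC.ptX (U c + T + U d)))
          (algebraMap ℚ K (HC.ptY (U c + T + U d)))).mpr ⟨U_add_T_add_ne c d, rfl, rfl⟩
        rw [← hab] at this
        simpa using this
    · rintro ⟨u, hu1, hu2, hu3, hu4⟩
      rw [hT _ (U_ne a)] at hu1
      rw [hT _ (U_ne c)] at hu3
      obtain ⟨-, g1, g2⟩ := hu1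
      obtain ⟨-, g3, g4⟩ := hu3
      rw [g1, g2, col_rat (U_add_T_ne a) (U_ne b)] at hu2
      rw [g3, g4, col_rat (U_add_T_ne c) (U_ne d)] at hu4
      have h5 : U a + T + U b = U c + T + U d :=
        HC.pt_ext hu2.1 hu4.1 ((algebraMap ℚ K).injective (hu2.2.1.symm.trans hu4.2.1))
          ((algebraMap ℚ K).injective (hu2.2.2.symm.trans hu4.2.2))
      have h6 : U a + U b = U c + U d := by
        have h7 : U a + U b + T = U c + U d + T := by
          calc U a + U b + T = U a + T + U b := by abel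
            _ = _ := by rw [h5]; abel
        exact add_right_cancel h7
      rw [U, U, U, U, ← add_smul, ← add_smul] at h6
      have h8 : ((2 * a + 1 + (2 * b + 1)) - (2 * c + 1 + (2 * d + 1))) • G = 0 := by
        rw [sub_smul, h6, sub_self]
      have := zsmul_G h8
      linarith
  constructor
  · rintro ⟨a, b, c, d, c1, c2, c3, c4, hS⟩
    exact ⟨⟨a, c1⟩, ⟨b, c2⟩, ⟨c, c3⟩, ⟨d, c4⟩, (key a b c d c1 c2 c3 c4).mp hS⟩
  · rintro ⟨⟨a, c1⟩, ⟨b, c2⟩, ⟨c, c3⟩, ⟨d, c4⟩, hu⟩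
    exact ⟨a, b, c, d, c1, c2, c3, c4, (key a b c d c1 c2 c3 c4).mpr hu⟩

end Pool.Agent.TH255.HK
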