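import Pool.Agent.TH255.HK.Ht
import Mathlib.RingTheory.Localization.Integral
import Mathlib.RingTheory.Norm.Basic
import Mathlib.FieldTheory.PrimitiveElement

/-!
# Integer coefficients, and one equation
-/

set_option autoImplicit false

open Height NumberField Module

namespace Pool.Agent.TH255.HK.Int

open MvPolynomial

variable (K : Type) [Field K] [NumberField K]

/-- `2` is not an `m`-th power in `K` for some `m` -/
lemma exists_m : ∃ m : ℕ, m ≠ 0 ∧ ∀ t : K, t ^ m ≠ 2 := by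
  refine ⟨finrank ℚ K + 1, Nat.succ_ne_zero _, fun t ht => ?_⟩
  have h1 := congrArg (Algebra.norm ℚ) ht
  have h2 : (2 : K) = algebraMap ℚ K 2 := by rw [map_ofNat]
  rw [map_pow, h2, Algebra.norm_algebraMap] at h1
  set r := Algebra.norm ℚ t with hr
  have hf : Fact (Nat.Prime 2) := ⟨Nat.prime_two⟩
  have hr0 : r ≠ 0 := by
    intro h0
    rw [h0, zero_pow (Nat.succ_ne_zero _)] at h1
    exact pow_ne_zero _ two_ne_zero h1.symm
  have h3 := congrArg (padicValRat 2) h1
  rw [padicValRat.pow, padicValRat.pow] at h3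
  have h4 : padicValRat 2 (2 : ℚ) = 1 := by
    have := padicValRat.self (p := 2) (by norm_num)
    exact_mod_cast this
  rw [h4, mul_one] at h3
  have hd : 0 < finrank ℚ K := Module.finrank_pos
  have h5 : ((finrank ℚ K + 1 : ℕ) : ℤ) ∣ ((finrank ℚ K : ℕ) : ℤ) := ⟨_, h3.symm⟩
  have h6 := Int.le_of_dvd (by exact_mod_cast hd) h5
  push_cast at h6
  omega

/-- finitely many equations with integer coefficients are one equation over `K` -/
theorem single {τ : Type} (L : List (MvPolynomial τ ℤ)) :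
    ∃ G : MvPolynomial τ ℤ, ∀ y : τ → K, aeval y G = 0 ↔ ∀ p ∈ L, aeval y p = 0 := by
  obtain ⟨m, hm, hm'⟩ := exists_m K
  induction L with
  | nil => exact ⟨0, fun y => by simp⟩
  | cons p L ih =>
    obtain ⟨G, hG⟩ := ih
    refine ⟨p ^ m - 2 * G ^ m, fun y => ?_⟩
    rw [List.forall_mem_cons, ← hG, map_sub, map_mul, map_pow, map_pow, map_ofNat]
    constructor
    · intro h
      have h1 : (aeval y p : K) ^ m = 2 * (aeval y G) ^ m := sub_eq_zero.mp h
      have hG0 : (aeval y G : K) = 0 := by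
        by_contra hne
        apply hm' ((aeval y p : K) / aeval y G)
        rw [div_pow, h1, mul_div_assoc, div_self (pow_ne_zero _ hne), mul_one]
      rw [hG0, zero_pow hm, mul_zero] at h1
      exact ⟨pow_eq_zero_iff hm |>.mp h1, hG0⟩
    · rintro ⟨h1, h2⟩
      rw [h1, h2, zero_pow hm, mul_zero, sub_zero]

/-- clearing denominators in one variable -/
lemma clear (q : Polynomial ℚ) : ∃ (D : ℤ) (Q : Polynomial ℤ), D ≠ 0 ∧
    ∀ z : K, Polynomial.aeval z Q = (D : K) * Polynomial.aeval z q := by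
  obtain ⟨b, hbM, hb⟩ := IsLocalization.integerNormalization_spec (nonZeroDivisors ℤ) q
  refine ⟨b, IsLocalization.integerNormalization (nonZeroDivisors ℤ) q,
    nonZeroDivisors.ne_zero hbM, fun z => ?_⟩
  have h1 : Polynomial.aeval z ((IsLocalization.integerNormalization (nonZeroDivisors ℤ) q).map
      (algebraMap ℤ ℚ)) = Polynomial.aeval z
        (IsLocalization.integerNormalization (nonZeroDivisors ℤ) q) :=
    Polynomial.aeval_map_algebraMap ℚ z _
  rw [← h1, hb]
  have h2 : (b • q : Polynomial ℚ) = Polynomial.C (((b : ℤ) : ℚ)) * q := by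
    rw [Polynomial.C_mul', Int.cast_smul_eq_zsmul]
  rw [h2, map_mul, Polynomial.aeval_C]
  simp

variable {K}

/-- clearing denominators, with one more variable for the generator of `K` -/
lemma clear_mv (α : K) (hα : ∀ c : K, ∃ q : Polynomial ℚ, Polynomial.aeval α q = c) {n : ℕ}
    (p : MvPolynomial (Fin (n + 1)) K) :
    ∃ (D : ℤ) (P : MvPolynomial (Fin (n + 1 + 1)) ℤ), D ≠ 0 ∧
      ∀ (σ : K →ₐ[ℚ] K) (y : Fin (n + 1) → K),
        aeval (Fin.snoc (α := fun _ => K) (fun i => σ (y i)) (σ α)) P =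
          (D : K) * σ (eval y p) := by
  induction p using MvPolynomial.induction_on with
  | C c =>
    obtain ⟨q, hq⟩ := hα c
    obtain ⟨D, Q, hD, hQ⟩ := clear K q
    refine ⟨D, Polynomial.aeval (X (Fin.last (n + 1))) Q, hD, fun σ y => ?_⟩
    rw [eval_C, ← Polynomial.aeval_algHom_apply, aeval_X, Fin.snoc_last, hQ, ← hq,
      Polynomial.aeval_algHom_apply]
  | add p q hp hq =>
    obtain ⟨D₁, P₁, hD₁, hP₁⟩ := hp
    obtain ⟨D₂, P₂, hD₂, hP₂⟩ := hq
    refine ⟨D₁ * D₂, C D₂ * P₁ + C D₁ * P₂, mul_ne_zero hD₁ hD₂, fun σ y => ?_⟩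
    rw [map_add, map_mul, map_mul, hP₁, hP₂, map_add, map_add, aeval_C, aeval_C]
    simp only [algebraMap_int_eq, eq_intCast, Int.cast_mul]
    ring
  | mul_X p i hp =>
    obtain ⟨D, P, hD, hP⟩ := hp
    refine ⟨D, P * X (Fin.castSucc i), hD, fun σ y => ?_⟩
    rw [map_mul, hP, aeval_X, Fin.snoc_castSucc, map_mul, map_mul, eval_X]
    ring

lemma ht_alg (σ : K →ₐ[ℚ] K) (x : K) : mulHeight₁ (σ x) = mulHeight₁ x := by
  have h := ht_hom (σ : K →+* K) x
  have hd : (finrank ℚ K : ℝ) ≠ 0 := by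
    have := Module.finrank_pos (R := ℚ) (M := K)
    exact_mod_cast this.ne'
  have h1 := mul_left_cancel₀ hd h
  rw [logHeight₁_eq_log_mulHeight₁, logHeight₁_eq_log_mulHeight₁] at h1
  exact Real.log_injOn_pos (mulHeight₁_pos _) (mulHeight₁_pos _) h1

/-- a system with coefficients in `K` is replaced by one equation with integer coefficients -/
theorem to_int {n : ℕ} (F : List (MvPolynomial (Fin (n + 1)) K))
    (S : List (Fin (n + 1) × Fin (n + 1))) :
    ∃ (N : ℕ) (G : MvPolynomial (Fin (N + 1)) ℤ) (T : Finset (Fin (N + 1) × Fin (N + 1))),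
      ∀ (r : ℝ → ℝ → Prop) (c : ℕ),
        (∃ y : Fin (N + 1) → K, y 0 = c ∧ aeval y G = 0 ∧
          ∀ s ∈ T, r (mulHeight₁ (y s.1)) (mulHeight₁ (y s.2))) ↔
        (∃ y : Fin (n + 1) → K, y 0 = c ∧ (∀ p ∈ F, eval y p = 0) ∧
          ∀ s ∈ S, r (mulHeight₁ (y s.1)) (mulHeight₁ (y s.2))) := by
  classical
  set pb := Field.powerBasisOfFiniteOfSeparable ℚ K with hpb
  set α := pb.gen with hαd
  have hα : ∀ c : K, ∃ q : Polynomial ℚ, Polynomial.aeval α q = c := by
    intro c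
    obtain ⟨q, hq⟩ := pb.exists_eq_aeval' c
    exact ⟨q, hq.symm⟩
  obtain ⟨D₀, Q₀, hD₀, hQ₀⟩ := clear K (minpoly ℚ α)
  choose D P hD hP using clear_mv α hα (n := n)
  obtain ⟨G, hG⟩ := single K (Polynomial.aeval (X (Fin.last (n + 1)) : MvPolynomial (Fin (n + 1 + 1)) ℤ) Q₀ ::
    F.map P)
  refine ⟨n + 1, G, (S.map fun s => (Fin.castSucc s.1, Fin.castSucc s.2)).toFinset,
    fun r c => ?_⟩
  have e0 : ∀ y : Fin (n + 1 + 1) → K, aeval y (Polynomial.aeval
      (X (Fin.last (n + 1)) : MvPolynomial (Fin (n + 1 + 1)) ℤ) Q₀) =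
        (D₀ : K) * Polynomial.aeval (y (Fin.last (n + 1))) (minpoly ℚ α) := by
    intro y
    rw [← Polynomial.aeval_algHom_apply, aeval_X, hQ₀]
  have e1 : ∀ D : ℤ, D ≠ 0 → (D : K) ≠ 0 := fun D h => by exact_mod_cast h
  constructor
  · rintro ⟨y, hy0, hyG, hyT⟩
    rw [hG, List.forall_mem_cons, e0] at hyG
    have h1 := (mul_eq_zero.mp hyG.1).resolve_left (e1 _ hD₀)
    obtain ⟨σ, hσ⟩ : ∃ σ : K →ₐ[ℚ] K, σ α = y (Fin.last (n + 1)) :=
      ⟨pb.lift _ h1, pb.lift_gen _ h1⟩
    have hb : Function.Bijective σ := Algebra.IsAlgebraic.algHom_bijective σ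
    choose z hz using fun i : Fin (n + 1) => hb.2 (y (Fin.castSucc i))
    have ey : y = Fin.snoc (α := fun _ => K) (fun i => σ (z i)) (σ α) := by
      funext i
      refine Fin.lastCases ?_ (fun i => ?_) i
      · rw [Fin.snoc_last, hσ]
      · rw [Fin.snoc_castSucc, hz]
    refine ⟨z, ?_, fun p hp => ?_, fun s hs => ?_⟩
    · apply hb.1
      rw [hz, map_natCast]
      exact hy0
    · have h2 := hyG.2 (P p) (List.mem_map_of_mem hp)
      rw [ey, hP] at h2
      have h3 := (mul_eq_zero.mp h2).resolve_left (e1 _ (hD p))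
      exact (map_eq_zero σ).mp h3
    · have h2 := hyT (Fin.castSucc s.1, Fin.castSucc s.2) (by
        rw [List.mem_toFinset]
        exact List.mem_map_of_mem (f := fun s : Fin (n + 1) × Fin (n + 1) =>
          (Fin.castSucc s.1, Fin.castSucc s.2)) hs)
      rw [← ht_alg σ (z s.1), ← ht_alg σ (z s.2), hz, hz]
      exact h2
  · rintro ⟨z, hz0, hzF, hzS⟩
    refine ⟨Fin.snoc (α := fun _ => K) z α, ?_, ?_, fun s hs => ?_⟩
    · have : (0 : Fin (n + 1 + 1)) = Fin.castSucc 0 := rfl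
      rw [this, Fin.snoc_castSucc]
      exact hz0
    · rw [hG, List.forall_mem_cons, e0, Fin.snoc_last, minpoly.aeval, mul_zero]
      refine ⟨rfl, fun q hq => ?_⟩
      rw [List.mem_map] at hq
      obtain ⟨p, hp, rfl⟩ := hq
      have h2 := hP p (AlgHom.id ℚ K) z
      simp only [AlgHom.id_apply] at h2
      rw [h2, hzF p hp, mul_zero]
    · rw [List.mem_toFinset, List.mem_map] at hs
      obtain ⟨s, hs, rfl⟩ := hs
      simp only [Fin.snoc_castSucc]
      exact hzS s hs

end Pool.Agent.TH255.HK.Int
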