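import Pool.Agent.TH255.HK.Link
import Pool.Agent.TH255.HK.Int
import Pool.Agent.TH255.HC.Gap

/-!
# One equation with integer coefficients over a number field, with a gap
-/

set_option autoImplicit false

open Height

namespace Pool.Agent.TH255.HK

open MvPolynomial

variable (K : Type) [Field K] [NumberField K]

/-- the form with a gap between the two kinds of solutions -/
theorem gap_form (B : ℕ) {W : ℕ → Prop} (hW : REPred W) :
    ∃ (n : ℕ) (F : MvPolynomial (Fin (n + 1)) ℤ) (S : Finset (Fin (n + 1) × Fin (n + 1))),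
      ∀ c : ℕ,
        (W c → ∃ y : Fin (n + 1) → K, y 0 = c ∧ aeval y F = 0 ∧
          ∀ s ∈ S, B * mulHeight₁ (y s.1) ≤ mulHeight₁ (y s.2)) ∧
        ((∃ y : Fin (n + 1) → K, y 0 = c ∧ aeval y F = 0 ∧
          ∀ s ∈ S, mulHeight₁ (y s.1) ≤ B * mulHeight₁ (y s.2)) → W c) := by
  classical
  obtain ⟨n, F, S, h⟩ := DK.final (K := K) (B := B + 1) (Q := fun x => ∃ a : ℕ, x = a ∧ W a)
    (dk_re hW)
  obtain ⟨N, G, T, hT⟩ := Int.to_int F S
  have hpos : ∀ x : K, 0 < mulHeight₁ x := fun x => mulHeight₁_pos x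
  have hB0 : (0 : ℝ) ≤ B := Nat.cast_nonneg _
  have hmin : BtwK (B + 1) (fun x y : K => ((B + 1 : ℕ) : ℝ) * mulHeight₁ x ≤ mulHeight₁ y) := by
    refine ⟨fun x y h => h, fun x y hxy => ?_⟩
    have h1 := hpos x
    have h2 := hpos y
    push_cast at hxy ⊢
    nlinarith [mul_nonneg hB0 h1.le, mul_nonneg hB0 h2.le]
  have hmax : BtwK (B + 1) (fun x y : K => mulHeight₁ x ≤ ((B + 1 : ℕ) : ℝ) * mulHeight₁ y) := by
    refine ⟨fun x y hxy => ?_, fun x y h => h⟩
    have h1 := hpos x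
    have h2 := hpos y
    push_cast at hxy ⊢
    nlinarith [mul_nonneg hB0 h1.le, mul_nonneg hB0 h2.le]
  refine ⟨N, G, T, fun c => ⟨fun hc => ?_, fun hw => ?_⟩⟩
  · obtain ⟨y, hy, hF, hS⟩ := (h _ hmin c).mp ⟨c, rfl, hc⟩
    apply (hT (fun s t => B * s ≤ t) c).mpr
    refine ⟨y, hy, hF, fun s hs => ?_⟩
    have h1 := hS s hs
    have h2 := hpos (y s.1)
    push_cast at h1
    nlinarith
  · obtain ⟨y, hy, hF, hS⟩ := (hT (fun s t => s ≤ B * t) c).mp hw
    obtain ⟨c', hc', hW'⟩ := (h _ hmax c).mpr ⟨y, hy, hF, fun s hs => by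
      have h1 := hS s hs
      have h2 := hpos (y s.2)
      push_cast
      nlinarith⟩
    have : c = c' := by exact_mod_cast hc'
    rw [this]
    exact hW'

end Pool.Agent.TH255.HK
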