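import Pool.Agent.TH255.HK.Curve

/-!
# Heights and field homomorphisms
-/

set_option autoImplicit false

open Height NumberField Module

namespace Pool.Agent.TH255.HK

open Pool.Agent.TH942

section emb

variable {K : Type} [Field K] [NumberField K]

lemma prod_places (g : InfinitePlace K → ℝ) :
    ∏ v : InfinitePlace K, g v ^ v.mult = ∏ φ : K →+* ℂ, g (InfinitePlace.mk φ) := by
  classical
  rw [← Finset.prod_fiberwise Finset.univ (fun φ : K →+* ℂ => InfinitePlace.mk φ)]
  refine Finset.prod_congr rfl fun v _ => ?_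
  rw [← InfinitePlace.card_filter_mk_eq v, ← Finset.prod_const]
  refine Finset.prod_congr rfl fun φ hφ => ?_
  rw [(Finset.mem_filter.1 hφ).2]

variable {L : Type} [Field L] [NumberField L] [Algebra K L]

lemma fin_ext : FiniteDimensional K L :=
  Module.Finite.of_restrictScalars_finite ℚ K L

open Classical in
lemma card_ext (φ : K →+* ℂ) :
    (Finset.univ.filter (fun ψ : L →+* ℂ => ψ.comp (algebraMap K L) = φ)).card =
      finrank K L := by
  have := fin_ext (K := K) (L := L)
  letI := φ.toAlgebra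
  rw [← AlgHom.card K L ℂ, ← Fintype.card_subtype]
  refine Fintype.card_congr ?_
  exact
    { toFun := fun ψ => { ψ.1 with commutes' := fun x => RingHom.congr_fun ψ.2 x }
      invFun := fun f => ⟨f.toRingHom, RingHom.ext fun x => f.commutes x⟩
      left_inv := fun ψ => rfl
      right_inv := fun f => rfl }

lemma prod_places_ext (f : InfinitePlace K → ℝ) :
    ∏ w : InfinitePlace L, f (w.comap (algebraMap K L)) ^ w.mult =
      (∏ v : InfinitePlace K, f v ^ v.mult) ^ finrank K L := by
  classical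
  rw [prod_places (fun w : InfinitePlace L => f (w.comap (algebraMap K L))), prod_places f,
    ← Finset.prod_fiberwise Finset.univ (fun ψ : L →+* ℂ => ψ.comp (algebraMap K L)),
    ← Finset.prod_pow]
  refine Finset.prod_congr rfl fun φ _ => ?_
  rw [← card_ext (L := L) φ, ← Finset.prod_const]
  refine Finset.prod_congr rfl fun ψ hψ => ?_
  rw [InfinitePlace.comap_mk, (Finset.mem_filter.1 hψ).2]

lemma mulHeight₁_ext (x : K) :
    mulHeight₁ (algebraMap K L x) = mulHeight₁ x ^ finrank K L := by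
  have := fin_ext (K := K) (L := L)
  obtain ⟨a, b, hb, rfl⟩ := IsFractionRing.div_surjective (A := 𝓞 K) x
  have hb0 : b ≠ 0 := nonZeroDivisors.ne_zero hb
  let X : Fin 2 → 𝓞 K := ![a, b]
  let X' : Fin 2 → 𝓞 L := fun i => algebraMap (𝓞 K) (𝓞 L) (X i)
  have hX : X ≠ 0 := fun h => hb0 (by simpa [X] using congrFun h 1)
  have hX' : X' ≠ 0 := by
    intro h
    have h1 : algebraMap (𝓞 K) (𝓞 L) b = 0 := by simpa [X', X] using congrFun h 1
    exact hb0 ((FaithfulSMul.algebraMap_injective (𝓞 K) (𝓞 L)) (by rw [h1, map_zero]))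
  have eK : (fun i => ((X i : 𝓞 K) : K)) = ![(a : K), (b : K)] := by
    ext i; fin_cases i <;> rfl
  have hcast : ∀ z : 𝓞 K, ((algebraMap (𝓞 K) (𝓞 L) z : 𝓞 L) : L) = algebraMap K L (z : K) :=
    fun z => rfl
  have eL : (fun i => ((X' i : 𝓞 L) : L)) = ![algebraMap K L (a : K), algebraMap K L (b : K)] := by
    ext i; fin_cases i <;> rfl
  have hXK : (fun i => ((X i : 𝓞 K) : K)) ≠ 0 := by
    intro h
    apply hX
    ext i
    exact congrFun h i
  have hXL : (fun i => ((X' i : 𝓞 L) : L)) ≠ 0 := by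
    intro h
    apply hX'
    ext i
    exact congrFun h i
  have h1 : mulHeight₁ ((algebraMap (𝓞 K) K a) / (algebraMap (𝓞 K) K b)) =
      mulHeight (fun i => ((X i : 𝓞 K) : K)) := by
    rw [mulHeight₁_div_eq_mulHeight, eK]
  have h2 : mulHeight₁ (algebraMap K L ((algebraMap (𝓞 K) K a) / (algebraMap (𝓞 K) K b))) =
      mulHeight (fun i => ((X' i : 𝓞 L) : L)) := by
    rw [map_div₀, mulHeight₁_div_eq_mulHeight, eL]
  rw [h1, h2, NumberField.mulHeight_eq hXK, NumberField.mulHeight_eq hXL]
  have f1 := NumberField.absNorm_mul_finprod_finitePlace_eq_one hX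
  have f2 := NumberField.absNorm_mul_finprod_finitePlace_eq_one hX'
  have hspan : Ideal.span (Set.range X') =
      (Ideal.span (Set.range X)).map (algebraMap (𝓞 K) (𝓞 L)) := by
    rw [Ideal.map_span, ← Set.range_comp]
    rfl
  rw [hspan, Ideal.absNorm_algebraMap, ← IsFractionRing.finrank_eq (𝓞 K) K (𝓞 L) L] at f2
  have e1 : ∏ᶠ v : FinitePlace K, ⨆ i, v ((X i : 𝓞 K) : K) =
      ((Ideal.span (Set.range X)).absNorm : ℝ)⁻¹ := eq_inv_of_mul_eq_one_right f1
  have e2 : ∏ᶠ v : FinitePlace L, ⨆ i, v ((X' i : 𝓞 L) : L) =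
      (((Ideal.span (Set.range X)).absNorm ^ finrank K L : ℕ) : ℝ)⁻¹ :=
    eq_inv_of_mul_eq_one_right f2
  rw [e1, e2, mul_pow, inv_pow]
  push_cast
  congr 1
  exact prod_places_ext (K := K) (L := L) (fun v => ⨆ i, v ((X i : 𝓞 K) : K))

end emb

/-- heights and field homomorphisms -/
theorem ht_hom {K L : Type} [Field K] [NumberField K] [Field L] [NumberField L] (τ : K →+* L)
    (x : K) : (finrank ℚ K : ℝ) * logHeight₁ (τ x) = finrank ℚ L * logHeight₁ x := by
  letI := τ.toAlgebra
  have := fin_ext (K := K) (L := L)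
  have h1 : mulHeight₁ (τ x) = mulHeight₁ x ^ finrank K L := mulHeight₁_ext x
  have h2 : finrank ℚ K * finrank K L = finrank ℚ L := finrank_mul_finrank ℚ K L
  rw [logHeight₁_eq_log_mulHeight₁, logHeight₁_eq_log_mulHeight₁, h1, Real.log_pow, ← h2]
  push_cast
  ring

lemma sht_eq {K : Type} [Field K] [NumberField K] {P : PtK K} (hP : P ≠ 0) :
    sht P = logHeight₁ (pX P) := by
  obtain ⟨x, y, h, rfl⟩ := exists_some hP
  rw [sht, WeierstrassCurve.Affine.Point.xRep_some, ← logHeight₁_eq_logHeight, pX_some]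

theorem sht_mp {K L : Type} [Field K] [NumberField K] [Field L] [NumberField L] [DecidableEq K]
    [DecidableEq L] (τ : K →+* L) (P : PtK K) :
    (finrank ℚ K : ℝ) * sht (mp τ P) = finrank ℚ L * sht P := by
  by_cases hP : P = 0
  · subst hP
    rw [map_zero, sht_zero, sht_zero, mul_zero, mul_zero]
  · rw [sht_eq hP, sht_eq (mp_ne hP), pX_mp]
    exact ht_hom τ _

end Pool.Agent.TH255.HK
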