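import Pool.Agent.TH255.HK.Rat

/-!
# Isolating the multiples of a rational point by comparisons of heights
-/

set_option autoImplicit false

open Height NumberField Module

namespace Pool.Agent.TH255.HK

open Pool.Agent.TH942

section

variable {K : Type} [Field K] [NumberField K] [DecidableEq K] {n : ℕ}
  {ψ : PtK K →+ EuclideanSpace ℝ (Fin n)} {C : ℝ}

lemma fin_bdd (hψ : ∀ P, |‖ψ P‖ ^ 2 - sht P| ≤ C) (B : ℝ) :
    {P : PtK K | ‖ψ P‖ ^ 2 ≤ B}.Finite := by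
  refine (sfinite_ht (K := K) (a := -2) (b := 0) (B + C)).subset fun P hP => ?_
  have h1 := hψ P
  rw [abs_le] at h1
  have h2 : ‖ψ P‖ ^ 2 ≤ B := hP
  change sht P ≤ B + C
  linarith [h1.1]

lemma exists_tors (hψ : ∀ P, |‖ψ P‖ ^ 2 - sht P| ≤ C) :
    ∃ t : ℕ, t ≠ 0 ∧ ∀ P, ψ P = 0 → t • P = 0 := by
  have hfin : Finite ψ.ker := by
    apply Set.Finite.to_subtype
    refine (fin_bdd hψ 0).subset fun P hP => ?_
    have : ψ P = 0 := hP
    change ‖ψ P‖ ^ 2 ≤ 0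
    rw [this]; simp
  refine ⟨Nat.card ψ.ker, Nat.card_pos.ne', fun P hP => ?_⟩
  have h1 : Nat.card ψ.ker • (⟨P, hP⟩ : ψ.ker) = 0 := card_nsmul_eq_zero'
  have h2 := congrArg (fun z : ψ.ker => (z : PtK K)) h1
  simpa using h2

lemma exists_disc (hψ : ∀ P, |‖ψ P‖ ^ 2 - sht P| ≤ C) :
    ∃ ρ : ℝ, 0 < ρ ∧ ∀ P, ‖ψ P‖ < ρ → ψ P = 0 := by
  classical
  set F : Finset (PtK K) := (fin_bdd hψ 1).toFinset.filter (fun P => ψ P ≠ 0) with hF
  have hmem : ∀ P, ‖ψ P‖ < 1 → ψ P ≠ 0 → P ∈ F := by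
    intro P hP h0
    rw [hF, Finset.mem_filter, Set.Finite.mem_toFinset]
    refine ⟨?_, h0⟩
    change ‖ψ P‖ ^ 2 ≤ 1
    nlinarith [norm_nonneg (ψ P)]
  by_cases hne : F.Nonempty
  · obtain ⟨Q, hQ, hmin⟩ := F.exists_min_image (fun P => ‖ψ P‖) hne
    have hQ0 : 0 < ‖ψ Q‖ := by
      rw [hF, Finset.mem_filter] at hQ
      exact norm_pos_iff.mpr hQ.2
    refine ⟨min 1 ‖ψ Q‖, lt_min one_pos hQ0, fun P hP => ?_⟩
    by_contra h0
    have h1 := hmin P (hmem P (lt_of_lt_of_le hP (min_le_left _ _)) h0)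
    exact absurd (lt_of_lt_of_le hP (min_le_right _ _)) (not_lt.mpr h1)
  · refine ⟨1, one_pos, fun P hP => ?_⟩
    by_contra h0
    exact hne ⟨P, hmem P hP h0⟩

/-- finitely many linear tests -/
theorem exists_tests (hψ : ∀ P, |‖ψ P‖ ^ 2 - sht P| ≤ C) (g : PtK K) {d : ℕ} (hd : d ≠ 0)
    (hproj : ∀ a : PtK K, ∃ m : ℤ, inner ℝ (ψ ((d : ℤ) • a - m • g)) (ψ g) = 0) :
    ∃ (W : Finset (PtK K)) (ε : ℝ), 0 < ε ∧ (∀ w ∈ W, ψ w ≠ 0 ∧ inner ℝ (ψ w) (ψ g) = 0) ∧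
      ∀ a, (∀ w ∈ W, |inner ℝ (ψ a) (ψ w)| ≤ ε) → ∃ m : ℤ, ψ ((d : ℤ) • a - m • g) = 0 := by
  classical
  obtain ⟨ρ, hρ, hdisc⟩ := exists_disc hψ
  set S : Set (EuclideanSpace ℝ (Fin n)) := ψ '' {w | inner ℝ (ψ w) (ψ g) = 0} with hS
  obtain ⟨b, hbS, hspan, hli⟩ := exists_linearIndependent ℝ S
  have hbfin : b.Finite := hli.setFinite
  have : Fintype b := hbfin.fintype
  choose w hw1 hw2 using fun v : b => hbS v.2
  set V := Submodule.span ℝ S with hV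
  let T : V →ₗ[ℝ] (b → ℝ) :=
    LinearMap.pi fun u => (innerₗ (EuclideanSpace ℝ (Fin n)) (u : EuclideanSpace ℝ (Fin n))).comp
      V.subtype
  have hTa : ∀ (v : V) (u : b), T v u = inner ℝ (u : EuclideanSpace ℝ (Fin n)) (v : EuclideanSpace ℝ (Fin n)) :=
    fun v u => rfl
  have hker : LinearMap.ker T = ⊥ := by
    rw [LinearMap.ker_eq_bot']
    intro v hv
    have h1 : ∀ z ∈ Submodule.span ℝ b, inner ℝ z (v : EuclideanSpace ℝ (Fin n)) = 0 := by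
      intro z hz
      induction hz using Submodule.span_induction with
      | mem x hx => rw [← hTa v ⟨x, hx⟩, hv]; rfl
      | zero => exact inner_zero_left _
      | add x y _ _ hx hy => rw [inner_add_left, hx, hy, add_zero]
      | smul c x _ hx => rw [inner_smul_left, hx, mul_zero]
    have h2 := h1 v (by rw [hspan]; exact v.2)
    exact Subtype.ext (inner_self_eq_zero.mp h2)
  obtain ⟨c, hc, hT⟩ := T.exists_antilipschitzWith hker
  have hc' : (0 : ℝ) < c := hc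
  have hdpos : (0 : ℝ) < d := by exact_mod_cast Nat.pos_of_ne_zero hd
  refine ⟨Finset.univ.image w, ρ / (2 * c * d), by positivity, ?_, ?_⟩
  · intro x hx
    rw [Finset.mem_image] at hx
    obtain ⟨v, -, rfl⟩ := hx
    refine ⟨?_, hw1 v⟩
    rw [hw2 v]
    exact hli.ne_zero v
  · intro a ha
    obtain ⟨m, hm⟩ := hproj a
    refine ⟨m, hdisc _ ?_⟩
    set a' := (d : ℤ) • a - m • g with ha'
    have hmem : ψ a' ∈ V := Submodule.subset_span ⟨a', hm, rfl⟩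
    have h1 : ‖(⟨ψ a', hmem⟩ : V)‖ ≤ c * ‖T ⟨ψ a', hmem⟩‖ := by
      have h2 := hT.le_mul_dist ⟨ψ a', hmem⟩ 0
      rwa [dist_zero_right, map_zero, dist_zero_right] at h2
    have h3 : ‖T ⟨ψ a', hmem⟩‖ ≤ d * (ρ / (2 * c * d)) := by
      rw [pi_norm_le_iff_of_nonneg (by positivity)]
      intro u
      rw [hTa, ← hw2 u, Real.norm_eq_abs]
      change |inner ℝ (ψ (w u)) (ψ a')| ≤ _
      have h4 : inner ℝ (ψ (w u)) (ψ a') = d * inner ℝ (ψ a) (ψ (w u)) := by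
        rw [ha', map_sub, map_zsmul, map_zsmul, inner_sub_right, ← Int.cast_smul_eq_zsmul ℝ,
          ← Int.cast_smul_eq_zsmul ℝ, inner_smul_right, inner_smul_right]
        have h5 : inner ℝ (ψ (w u)) (ψ g) = 0 := hw1 u
        rw [h5, mul_zero, sub_zero, real_inner_comm]
        simp
      rw [h4, abs_mul, abs_of_pos hdpos]
      exact mul_le_mul_of_nonneg_left (ha _ (Finset.mem_image_of_mem _ (Finset.mem_univ u)))
        hdpos.le
    have h6 : ‖ψ a'‖ ≤ c * (d * (ρ / (2 * c * d))) :=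
      h1.trans (mul_le_mul_of_nonneg_left h3 hc'.le)
    have h7 : (c : ℝ) * (d * (ρ / (2 * c * d))) = ρ / 2 := by
      field_simp
    rw [h7] at h6
    linarith

lemma norm_comb (a w : PtK K) (x y : ℤ) : ‖ψ (x • a + y • w)‖ ^ 2 =
    (x : ℝ) ^ 2 * ‖ψ a‖ ^ 2 + 2 * (x * y) * inner ℝ (ψ a) (ψ w) + (y : ℝ) ^ 2 * ‖ψ w‖ ^ 2 := by
  rw [map_add, map_zsmul, map_zsmul, ← Int.cast_smul_eq_zsmul ℝ, ← Int.cast_smul_eq_zsmul ℝ,
    norm_add_sq_real, norm_smul, norm_smul, inner_smul_left, inner_smul_right, mul_pow, mul_pow,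
    Real.norm_eq_abs, Real.norm_eq_abs, sq_abs, sq_abs]
  simp
  ring

end

/-- the multiples of `g`, isolated by comparisons of heights -/
theorem exists_iso (K : Type) [Field K] [NumberField K] [DecidableEq K] {G : PtK ℚ}
    (hG0 : ∀ m : ℤ, m • G = 0 → m = 0)
    (hG : ∀ t : PtK ℚ, ∃ m : ℤ, (2 : ℤ) • t = (2 * m) • G) {B : ℝ} (hB : 1 ≤ B) :
    ∃ (W : Finset (PtK K)) (N₀ κ : ℕ), N₀ ≠ 0 ∧
      (∀ w ∈ W, (κ : ℤ) • w ≠ 0 ∧ (-(κ + 1) : ℤ) • w ≠ 0) ∧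
      let N : ℕ := 2 * N₀
      (∀ k : ℤ, k ≠ 0 → ∀ w ∈ W,
      (N : ℤ) • (k • mp (algebraMap ℚ K) G) + (κ : ℤ) • w ≠ 0 ∧
      (N : ℤ) • (k • mp (algebraMap ℚ K) G) + (-(κ + 1) : ℤ) • w ≠ 0 ∧
      B * mulHeight₁ (pX ((N : ℤ) • (k • mp (algebraMap ℚ K) G) + (κ : ℤ) • w)) ≤
        mulHeight₁ (pX ((N : ℤ) • (k • mp (algebraMap ℚ K) G) + (-(κ + 1) : ℤ) • w))) ∧
      ∀ a : PtK K, (∀ w ∈ W, (N : ℤ) • a + (κ : ℤ) • w ≠ 0 ∧
        (N : ℤ) • a + (-(κ + 1) : ℤ) • w ≠ 0 ∧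
        mulHeight₁ (pX ((N : ℤ) • a + (κ : ℤ) • w)) ≤
          B * mulHeight₁ (pX ((N : ℤ) • a + (-(κ + 1) : ℤ) • w))) →
        ∃ j : ℤ, (N : ℤ) • a = (2 * j) • mp (algebraMap ℚ K) G := by
  classical
  obtain ⟨n, ψ, C, hψ⟩ := can K
  set g := mp (algebraMap ℚ K) G with hg
  have hC : 0 ≤ C := (abs_nonneg _).trans (hψ 0)
  obtain ⟨t, ht0, ht⟩ := exists_tors hψ
  set d := finrank ℚ K with hd
  have hd0 : d ≠ 0 := finrank_pos.ne'
  obtain ⟨W, ε, hε, hW1, hW2⟩ := exists_tests hψ g hd0 (exists_proj hψ hG)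
  have hψg : ψ g ≠ 0 := by
    intro h0
    have h1 := ht g h0
    rw [hg, ← map_nsmul] at h1
    have h2 : t • G = 0 := by
      have := mp_inj (algebraMap ℚ K) (h1.trans (map_zero _).symm)
      exact this
    have h3 := hG0 t (by rw [natCast_zsmul]; exact h2)
    exact ht0 (by exact_mod_cast h3)
  have hgpos : 0 < ‖ψ g‖ ^ 2 := by
    have := norm_pos_iff.mpr hψg
    positivity
  -- a lower and an upper bound for the norms of the tests
  obtain ⟨r, hr, hr'⟩ : ∃ r : ℝ, 0 < r ∧ ∀ w ∈ W, r ≤ ‖ψ w‖ ^ 2 := by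
    by_cases hne : W.Nonempty
    · obtain ⟨w0, hw0, hmin⟩ := W.exists_min_image (fun w => ‖ψ w‖ ^ 2) hne
      refine ⟨‖ψ w0‖ ^ 2, ?_, hmin⟩
      have := norm_pos_iff.mpr (hW1 w0 hw0).1
      positivity
    · exact ⟨1, one_pos, fun w hw => absurd ⟨w, hw⟩ hne⟩
  obtain ⟨R, hR⟩ : ∃ R : ℝ, ∀ w ∈ W, ‖ψ w‖ ^ 2 ≤ R := by
    by_cases hne : W.Nonempty
    · obtain ⟨w0, hw0, hmax⟩ := W.exists_max_image (fun w => ‖ψ w‖ ^ 2) hne
      exact ⟨‖ψ w0‖ ^ 2, hmax⟩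
    · exact ⟨1, fun w hw => absurd ⟨w, hw⟩ hne⟩
  have hlB : 0 ≤ Real.log B := Real.log_nonneg hB
  obtain ⟨κ, hκ⟩ := exists_nat_gt ((2 * C + Real.log B) / r)
  rw [div_lt_iff₀ hr] at hκ
  obtain ⟨N', hN'⟩ := exists_nat_gt (R / ε)
  rw [div_lt_iff₀ hε] at hN'
  have hN₀ : t * d * (N' + 1) ≠ 0 := by
    have : t * d ≠ 0 := by
      simp [ht0, hd0]
    exact Nat.mul_ne_zero this (Nat.succ_ne_zero _)
  set N : ℕ := 2 * (t * d * (N' + 1)) with hN
  have hN0 : N ≠ 0 := by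
    rw [hN]
    exact Nat.mul_ne_zero two_ne_zero hN₀
  have hNN' : (N' : ℝ) ≤ N := by
    have h1 : N' ≤ N := by
      rw [hN]
      have h2 : 1 ≤ t * d := Nat.one_le_iff_ne_zero.mpr (by simp [ht0, hd0])
      nlinarith
    exact_mod_cast h1
  have hNpos : (0 : ℝ) < N := by exact_mod_cast Nat.pos_of_ne_zero hN0
  have hNε : R < N * ε := lt_of_lt_of_le hN' (mul_le_mul_of_nonneg_right hNN' hε.le)
  have hlog : ∀ P : PtK K, P ≠ 0 → sht P = Real.log (mulHeight₁ (pX P)) := by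
    intro P hP
    rw [sht_eq hP, logHeight₁_eq_log_mulHeight₁]
  have hmpos : ∀ x : K, 0 < mulHeight₁ x := fun x => lt_of_lt_of_le one_pos (one_le_mulHeight₁ x)
  -- symmetric set of tests
  have hκ0 : (0 : ℝ) < κ := by
    by_contra hc
    push Not at hc
    nlinarith
  refine ⟨W ∪ W.image (fun w => -w), t * d * (N' + 1), κ, hN₀, ?_, ?_⟩
  · intro w hw
    have hw0 : ψ w ≠ 0 := by
      rw [Finset.mem_union, Finset.mem_image] at hw
      rcases hw with hw | ⟨w', hw', rfl⟩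
      · exact (hW1 w hw).1
      · rw [map_neg]; exact neg_ne_zero.mpr (hW1 w' hw').1
    constructor
    · intro h0
      have h1 := congrArg ψ h0
      rw [map_zsmul, map_zero, ← Int.cast_smul_eq_zsmul ℝ, smul_eq_zero] at h1
      rcases h1 with h1 | h1
      · push_cast at h1; linarith
      · exact hw0 h1
    · intro h0
      have h1 := congrArg ψ h0
      rw [map_zsmul, map_zero, ← Int.cast_smul_eq_zsmul ℝ, smul_eq_zero] at h1
      rcases h1 with h1 | h1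
      · push_cast at h1; linarith
      · exact hw0 h1
  intro N
  refine ⟨?_, ?_⟩
  · intro k hk w hw
    obtain ⟨hw0, hwg, hwr⟩ : ψ w ≠ 0 ∧ inner ℝ (ψ w) (ψ g) = 0 ∧ r ≤ ‖ψ w‖ ^ 2 := by
      rw [Finset.mem_union, Finset.mem_image] at hw
      rcases hw with hw | ⟨w', hw', rfl⟩
      · exact ⟨(hW1 w hw).1, (hW1 w hw).2, hr' w hw⟩
      · refine ⟨?_, ?_, ?_⟩
        · rw [map_neg]; exact neg_ne_zero.mpr (hW1 w' hw').1
        · rw [map_neg, inner_neg_left, (hW1 w' hw').2, neg_zero]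
        · rw [map_neg, norm_neg]; exact hr' w' hw'
    have hin : inner ℝ (ψ (k • g)) (ψ w) = 0 := by
      rw [map_zsmul, ← Int.cast_smul_eq_zsmul ℝ, inner_smul_left, real_inner_comm, hwg, mul_zero]
    have hkg : 0 < ‖ψ (k • g)‖ ^ 2 := by
      rw [map_zsmul, ← Int.cast_smul_eq_zsmul ℝ, norm_smul, mul_pow, Real.norm_eq_abs, sq_abs]
      have : (k : ℝ) ≠ 0 := by exact_mod_cast hk
      positivity
    have e1 := norm_comb (ψ := ψ) (k • g) w N κ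
    have e2 := norm_comb (ψ := ψ) (k • g) w N (-(κ + 1))
    rw [hin, mul_zero, add_zero] at e1 e2
    have hne1 : (N : ℤ) • (k • g) + (κ : ℤ) • w ≠ 0 := by
      intro h0
      rw [h0, map_zero, norm_zero] at e1
      have h1 : 0 < ((N : ℤ) : ℝ) ^ 2 * ‖ψ (k • g)‖ ^ 2 := by
        push_cast
        positivity
      have h2 : 0 ≤ ((κ : ℤ) : ℝ) ^ 2 * ‖ψ w‖ ^ 2 := by positivity
      have h3 : (0 : ℝ) ^ 2 = 0 := by norm_num
      rw [h3] at e1
      linarith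
    have hne2 : (N : ℤ) • (k • g) + (-(κ + 1) : ℤ) • w ≠ 0 := by
      intro h0
      rw [h0, map_zero, norm_zero] at e2
      have h1 : 0 < ((N : ℤ) : ℝ) ^ 2 * ‖ψ (k • g)‖ ^ 2 := by
        push_cast
        positivity
      have h2 : 0 ≤ ((-(κ + 1) : ℤ) : ℝ) ^ 2 * ‖ψ w‖ ^ 2 := by positivity
      have h3 : (0 : ℝ) ^ 2 = 0 := by norm_num
      rw [h3] at e2
      linarith
    refine ⟨hne1, hne2, ?_⟩
    have b1 := hψ ((N : ℤ) • (k • g) + (κ : ℤ) • w)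
    have b2 := hψ ((N : ℤ) • (k • g) + (-(κ + 1) : ℤ) • w)
    rw [e1, hlog _ hne1, abs_le] at b1
    rw [e2, hlog _ hne2, abs_le] at b2
    have h3 : Real.log B + Real.log (mulHeight₁ (pX ((N : ℤ) • (k • g) + (κ : ℤ) • w))) ≤
        Real.log (mulHeight₁ (pX ((N : ℤ) • (k • g) + (-(κ + 1) : ℤ) • w))) := by
      have h4 : (κ : ℝ) * r ≤ κ * ‖ψ w‖ ^ 2 := mul_le_mul_of_nonneg_left hwr (Nat.cast_nonneg _)
      have h5 : 0 ≤ (κ : ℝ) * ‖ψ w‖ ^ 2 := by positivity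
      have h6 : 0 ≤ ‖ψ w‖ ^ 2 := by positivity
      push_cast at b1 b2
      have h7 : (-((κ : ℝ) + 1)) ^ 2 * ‖ψ w‖ ^ 2 =
          (κ : ℝ) ^ 2 * ‖ψ w‖ ^ 2 + 2 * (κ * ‖ψ w‖ ^ 2) + ‖ψ w‖ ^ 2 := by ring
      rw [h7] at b2
      linarith [b1.1, b2.2]
    rw [← Real.log_mul (by linarith) (hmpos _).ne'] at h3
    exact (Real.log_le_log_iff (mul_pos (by linarith) (hmpos _)) (hmpos _)).mp h3
  · intro a ha
    have key : ∀ w ∈ W ∪ W.image (fun w => -w), inner ℝ (ψ a) (ψ w) * N ≤ ‖ψ w‖ ^ 2 := by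
      intro w hw
      have hwr : r ≤ ‖ψ w‖ ^ 2 := by
        rw [Finset.mem_union, Finset.mem_image] at hw
        rcases hw with hw | ⟨w', hw', rfl⟩
        · exact hr' w hw
        · rw [map_neg, norm_neg]; exact hr' w' hw'
      obtain ⟨hne1, hne2, hle⟩ := ha w hw
      have e1 := norm_comb (ψ := ψ) a w N κ
      have e2 := norm_comb (ψ := ψ) a w N (-(κ + 1))
      have b1 := hψ ((N : ℤ) • a + (κ : ℤ) • w)
      have b2 := hψ ((N : ℤ) • a + (-(κ + 1) : ℤ) • w)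
      rw [e1, hlog _ hne1, abs_le] at b1
      rw [e2, hlog _ hne2, abs_le] at b2
      have h3 := Real.log_le_log (hmpos _) hle
      rw [Real.log_mul (by linarith) (hmpos _).ne'] at h3
      push_cast at b1 b2
      have h4 : (κ : ℝ) * r ≤ κ * ‖ψ w‖ ^ 2 := mul_le_mul_of_nonneg_left hwr (Nat.cast_nonneg _)
      have h6 : 0 ≤ ‖ψ w‖ ^ 2 := by positivity
      set I := inner ℝ (ψ a) (ψ w) with hI
      have h8 : (2 * κ + 1) * (2 * (I * N)) ≤ (2 * (κ : ℝ) + 1) * (2 * ‖ψ w‖ ^ 2) := by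
        have h9 : (-((κ : ℝ) + 1)) ^ 2 * ‖ψ w‖ ^ 2 =
          (κ : ℝ) ^ 2 * ‖ψ w‖ ^ 2 + 2 * (κ * ‖ψ w‖ ^ 2) + ‖ψ w‖ ^ 2 := by ring
        rw [h9] at b2
        have h10 : 2 * ((N : ℝ) * -((κ : ℝ) + 1)) * I = -(2 * (N * κ) * I) - 2 * (N * I) := by ring
        rw [h10] at b2
        have h11 : (2 * (κ : ℝ) + 1) * (2 * (I * N)) = 2 * (2 * (N * κ) * I) + 2 * (N * I) := by
          ring
        rw [h11]
        linarith [b1.2, b2.1]
      have h12 : (0 : ℝ) < 2 * κ + 1 := by positivity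
      have := le_of_mul_le_mul_left h8 h12
      linarith
    obtain ⟨m, hm⟩ := hW2 a (by
      intro w hw
      have k1 := key w (Finset.mem_union_left _ hw)
      have k2 := key (-w) (Finset.mem_union_right _ (Finset.mem_image_of_mem _ hw))
      rw [map_neg, norm_neg, inner_neg_right] at k2
      have h1 := hR w hw
      rw [abs_le]
      constructor
      · by_contra hc
        push Not at hc
        have : -ε * N > inner ℝ (ψ a) (ψ w) * N := mul_lt_mul_of_pos_right hc hNpos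
        linarith
      · by_contra hc
        push Not at hc
        have : ε * N < inner ℝ (ψ a) (ψ w) * N := mul_lt_mul_of_pos_right hc hNpos
        linarith)
    have h1 := ht _ hm
    refine ⟨(N' + 1) * t * m, ?_⟩
    have h2 : (t : ℤ) • ((d : ℤ) • a) = (t : ℤ) • (m • g) := by
      rw [← natCast_zsmul, smul_sub] at h1
      exact sub_eq_zero.mp h1
    have h3 : (N : ℤ) • a = (2 * ((N' : ℤ) + 1)) • ((t : ℤ) • ((d : ℤ) • a)) := by
      rw [← mul_smul, ← mul_smul]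
      congr 1
      simp only [N]; push_cast; ring
    rw [h3, h2, ← mul_smul, ← mul_smul]
    congr 1
    ring

end Pool.Agent.TH255.HK
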