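import Pool.Agent.TH255.HK.Core
import Pool.Agent.TH255.HK.Sys

/-!
# The link between a natural number and its code, over a number field
-/

set_option autoImplicit false

open Height

namespace Pool.Agent.TH255.HK

open Pool.Agent.TH255.HC (G U U_ne)

variable {K : Type} [Field K] [NumberField K] [DecidableEq K] {B : ℕ}

/-- `(n, k, k', a)` -/
def SK (k₀ : ℕ) : Set (Fin 4 → ℕ) :=
  {a | ((a 0 ≤ a 1 ∧ k₀ ≤ a 1) ∧ a 2 = 2 * (a 0 * a 1) + a 0 + a 1) ∧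
    2 * (2 * a 3 + 1) ^ 2 + (2 * a 1 + 1) ^ 2 ≤ 2 * ((2 * a 0 + 1) * (2 * a 1 + 1)) ^ 2}

lemma SK_dioph (k₀ : ℕ) : Dioph (SK k₀) := by
  have p : ∀ i : Fin 4, Dioph.DiophFn (fun v : Fin 4 → ℕ => v i) := fun i => Dioph.proj_dioph i
  have k : ∀ n : ℕ, Dioph.DiophFn (fun _ : Fin 4 → ℕ => n) := fun n => Dioph.const_dioph n
  have o : ∀ i : Fin 4, Dioph.DiophFn (fun v : Fin 4 → ℕ => 2 * v i + 1) := fun i =>
    Dioph.add_dioph (Dioph.mul_dioph (k 2) (p i)) (k 1)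
  have h1 : Dioph {a : Fin 4 → ℕ | a 0 ≤ a 1} := Dioph.le_dioph (p 0) (p 1)
  have h2 : Dioph {a : Fin 4 → ℕ | k₀ ≤ a 1} := Dioph.le_dioph (k k₀) (p 1)
  have h3 : Dioph {a : Fin 4 → ℕ | a 2 = 2 * (a 0 * a 1) + a 0 + a 1} :=
    Dioph.eq_dioph (p 2) (Dioph.add_dioph (Dioph.add_dioph (Dioph.mul_dioph (k 2)
      (Dioph.mul_dioph (p 0) (p 1))) (p 0)) (p 1))
  have h4 : Dioph {a : Fin 4 → ℕ | 2 * (2 * a 3 + 1) ^ 2 + (2 * a 1 + 1) ^ 2 ≤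
      2 * ((2 * a 0 + 1) * (2 * a 1 + 1)) ^ 2} :=
    Dioph.le_dioph (Dioph.add_dioph (Dioph.mul_dioph (k 2) (Dioph.pow_dioph (o 3) (k 2)))
      (Dioph.pow_dioph (o 1) (k 2)))
      (Dioph.mul_dioph (k 2) (Dioph.pow_dioph (Dioph.mul_dioph (o 0) (o 1)) (k 2)))
  exact Dioph.inter (Dioph.inter (Dioph.inter h1 h2) h3) h4

/-- the square of `2 n + 1` together with the code of `n` -/
theorem dk_sq : DK (K := K) (B + 1) (fun _ v => ∃ n : ℕ, v 0 = (2 * (n : K) + 1) ^ 2 ∧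
    Cd (v 1) (v 2) n) := by
  obtain ⟨k₀, hk₀⟩ := Core.sound K (Nat.le_add_left 1 B)
  have h : DK (K := K) (B + 1) (fun R v => ∃ u : ℕ → K,
      (∃ a : Fin 4 → ℕ, (∀ i : Fin 4, Co u i (a i)) ∧ a ∈ SK k₀) ∧
      (u 0 = v 1 ∧ u 1 = v 2) ∧ v 0 ≠ 0 ∧ R (v 0 ^ 24) (u 2) ∧
      R (v 0 * (u 2 - v 0 * u 4)) (u 6)) := by
    refine DK.exs ?_
    refine ((dk_dioph (SK_dioph k₀)).ren (fun n => 2 * n + 1)).and ?_
    refine ((DK.eq (PF.od 0) (PF.var 1).ev).and (DK.eq (PF.od 1) (PF.var 2).ev)).and ?_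
    refine (DK.ne (PF.var 0).ev PF.zero).and ?_
    refine (DK.rel ((PF.var 0).ev.pow 24) (PF.od 2)).and ?_
    exact DK.rel ((PF.var 0).ev.mul ((PF.od 2).sub ((PF.var 0).ev.mul (PF.od 4)))) (PF.od 6)
  refine h.congr fun R hR v => ?_
  constructor
  · rintro ⟨n, hv0, hv1, hv2⟩
    obtain ⟨k, a, h1, h2, h3, h4, h5⟩ := Core.complete K (Nat.le_add_left 1 B) k₀ n
    refine ⟨fun i => ([algebraMap ℚ K (HC.ptX (U n)), algebraMap ℚ K (HC.ptY (U n)),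
      algebraMap ℚ K (HC.ptX (U k)), algebraMap ℚ K (HC.ptY (U k)),
      algebraMap ℚ K (HC.ptX (U ((2 * (n * k) + n + k : ℕ) : ℤ))),
      algebraMap ℚ K (HC.ptY (U ((2 * (n * k) + n + k : ℕ) : ℤ))),
      algebraMap ℚ K (HC.ptX (U a)), algebraMap ℚ K (HC.ptY (U a))] : List K).getD i 0,
      ⟨![n, k, 2 * (n * k) + n + k, a], ?_, ?_⟩, ⟨hv1.symm, hv2.symm⟩, ?_, ?_, ?_⟩
    · intro i
      fin_cases i
      · exact ⟨rfl, rfl⟩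
      · exact ⟨rfl, rfl⟩
      · exact ⟨rfl, rfl⟩
      · exact ⟨rfl, rfl⟩
    · exact ⟨⟨⟨h1, h2⟩, rfl⟩, h3⟩
    · rw [hv0]
      apply pow_ne_zero
      have : ((2 * n + 1 : ℕ) : K) ≠ 0 := Nat.cast_ne_zero.mpr (Nat.succ_ne_zero _)
      push_cast at this
      exact this
    · rw [hv0]
      exact hR.1 _ _ h4
    · rw [hv0]
      exact hR.1 _ _ h5
  · rintro ⟨u, ⟨a, ha, ⟨⟨⟨s1, s2⟩, s3⟩, s4⟩⟩, ⟨hu0, hu1⟩, hv0, hR1, hR2⟩
    have c0 : Cd (u 0) (u 1) (a 0) := ha 0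
    have c1 : Cd (u 2) (u 3) (a 1) := ha 1
    have c2 : Cd (u 4) (u 5) (a 2) := ha 2
    have c3 : Cd (u 6) (u 7) (a 3) := ha 3
    rw [s3] at c2
    have h1 := hR.2 _ _ hR1
    have h2 := hR.2 _ _ hR2
    rw [c1.1] at h1
    rw [c1.1, c2.1, c3.1] at h2
    refine ⟨a 0, hk₀ (a 0) (a 1) (a 3) (v 0) s1 s2 hv0 s4 h1 h2, ?_⟩
    rw [← hu0, ← hu1]
    exact c0

lemma succ_dioph : Dioph {a : Fin 2 → ℕ | a 1 = a 0 + 1} :=
  Dioph.eq_dioph (Dioph.proj_dioph 1) (Dioph.add_dioph (Dioph.proj_dioph 0) (Dioph.const_dioph 1))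

/-- a natural number together with its code -/
theorem dk_link : DK (K := K) (B + 1) (fun _ v => ∃ n : ℕ, v 0 = n ∧ Cd (v 1) (v 2) n) := by
  have h : DK (K := K) (B + 1) (fun R v => ∃ u : ℕ → K,
      (∃ a : Fin 2 → ℕ, (∀ i : Fin 2, Co u i (a i)) ∧ a ∈ {a : Fin 2 → ℕ | a 1 = a 0 + 1}) ∧
      (u 0 = v 1 ∧ u 1 = v 2) ∧ (∃ n : ℕ, u 4 = (2 * (n : K) + 1) ^ 2 ∧ Cd (u 0) (u 1) n) ∧
      (∃ n : ℕ, u 5 = (2 * (n : K) + 1) ^ 2 ∧ Cd (u 2) (u 3) n) ∧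
      u 5 - u 4 = 8 * (v 0 + 1)) := by
    refine DK.exs ?_
    refine ((dk_dioph succ_dioph).ren (fun n => 2 * n + 1)).and ?_
    refine ((DK.eq (PF.od 0) (PF.var 1).ev).and (DK.eq (PF.od 1) (PF.var 2).ev)).and ?_
    refine (dk_sq.ren (fun k => if k = 0 then 2 * 4 + 1 else if k = 1 then 2 * 0 + 1 else
      2 * 1 + 1)).and ?_
    refine (dk_sq.ren (fun k => if k = 0 then 2 * 5 + 1 else if k = 1 then 2 * 2 + 1 else
      2 * 3 + 1)).and ?_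
    exact DK.eq ((PF.od 5).sub (PF.od 4)) ((PF.lit 8).mul ((PF.var 0).ev.add PF.one))
  refine h.congr fun R hR v => ?_
  constructor
  · rintro ⟨n, hv0, hv1, hv2⟩
    refine ⟨fun i => ([algebraMap ℚ K (HC.ptX (U n)), algebraMap ℚ K (HC.ptY (U n)),
      algebraMap ℚ K (HC.ptX (U ((n + 1 : ℕ) : ℤ))), algebraMap ℚ K (HC.ptY (U ((n + 1 : ℕ) : ℤ))),
      (2 * (n : K) + 1) ^ 2, (2 * ((n + 1 : ℕ) : K) + 1) ^ 2] : List K).getD i 0,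
      ⟨![n, n + 1], ?_, rfl⟩, ⟨hv1.symm, hv2.symm⟩, ⟨n, rfl, rfl, rfl⟩, ⟨n + 1, rfl, rfl, rfl⟩, ?_⟩
    · intro i
      fin_cases i
      · exact ⟨rfl, rfl⟩
      · exact ⟨rfl, rfl⟩
    · change (2 * ((n + 1 : ℕ) : K) + 1) ^ 2 - (2 * (n : K) + 1) ^ 2 = 8 * (v 0 + 1)
      rw [hv0]
      push_cast
      ring
  · rintro ⟨u, ⟨a, ha, hs⟩, ⟨hu0, hu1⟩, ⟨n, hn, hcn⟩, ⟨m, hm, hcm⟩, he⟩
    have c0 : Cd (u 0) (u 1) (a 0) := ha 0
    have c1 : Cd (u 2) (u 3) (a 1) := ha 1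
    have h1 : (n : ℤ) = a 0 := Cd.inj hcn c0
    have h2 : (m : ℤ) = a 1 := Cd.inj hcm c1
    have hs' : a 1 = a 0 + 1 := hs
    have h3 : m = n + 1 := by omega
    refine ⟨n, ?_, ?_⟩
    · rw [hn, hm, h3] at he
      push_cast at he
      have h8 : (8 : K) * (v 0 - n) = 0 := by linear_combination -he
      have := (mul_eq_zero.mp h8).resolve_left (by norm_num)
      linear_combination this
    · rw [← hu0, ← hu1]
      exact hcn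

/-- the natural numbers -/
theorem dk_nats (i : ℕ) : DK (K := K) (B + 1) (fun _ v => ∃ n : ℕ, v i = n) := by
  have h : DK (K := K) (B + 1) (fun _ v => ∃ u : ℕ → K, ∃ n : ℕ, v i = n ∧ Cd (u 0) (u 1) n) := by
    refine DK.exs ?_
    exact dk_link.ren (fun k => if k = 0 then 2 * i else 2 * (k - 1) + 1)
  refine h.congr fun _ _ v => ?_
  constructor
  · rintro ⟨n, hv⟩
    exact ⟨fun k => if k = 0 then algebraMap ℚ K (HC.ptX (U n)) else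
      algebraMap ℚ K (HC.ptY (U n)), n, hv, rfl, rfl⟩
  · rintro ⟨u, n, hv, -⟩
    exact ⟨n, hv⟩

/-- the integers -/
theorem dk_int (i : ℕ) : DK (K := K) (B + 1) (fun _ v => ∃ z : ℤ, v i = z) := by
  have h : DK (K := K) (B + 1) (fun _ v => ∃ u : ℕ → K, (∃ n : ℕ, u 0 = n) ∧
      (∃ n : ℕ, u 1 = n) ∧ v i = u 0 - u 1) := by
    refine DK.exs ?_
    exact (dk_nats 1).and ((dk_nats 3).and (DK.eq (PF.var (2 * i)) ((PF.var 1).sub (PF.var 3))))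
  refine h.congr fun _ _ v => ?_
  constructor
  · rintro ⟨z, hz⟩
    refine ⟨fun k => if k = 0 then ((z.toNat : ℕ) : K) else (((-z).toNat : ℕ) : K),
      ⟨_, rfl⟩, ⟨_, rfl⟩, ?_⟩
    simp only [if_true, one_ne_zero, if_false]
    rw [hz]
    have h1 : (z : ℤ) = ((z.toNat : ℕ) : ℤ) - (((-z).toNat : ℕ) : ℤ) := by omega
    have h2 := congrArg (fun t : ℤ => (t : K)) h1
    push_cast at h2
    exact h2
  · rintro ⟨u, ⟨n, hn⟩, ⟨m, hm⟩, h⟩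
    exact ⟨n - m, by rw [h, hn, hm]; push_cast; ring⟩

/-- recursively enumerable sets -/
theorem dk_re {W : ℕ → Prop} (hW : REPred W) :
    DK (K := K) (B + 1) (fun _ v => ∃ a : ℕ, v 0 = a ∧ W a) := by
  have h1 := Pool.Agent.Helper844.Dio.dprm hW
  have h2 : Dioph {v : Fin 1 → ℕ | W (v 0)} := Dioph.reindex_dioph _ (fun _ : Unit => 0) h1
  have h : DK (K := K) (B + 1) (fun _ v => ∃ u : ℕ → K, (∃ n : ℕ, v 0 = n ∧ Cd (u 0) (u 1) n) ∧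
      ∃ a : Fin 1 → ℕ, (∀ i : Fin 1, Co u i (a i)) ∧ a ∈ {v : Fin 1 → ℕ | W (v 0)}) := by
    refine DK.exs ?_
    refine DK.and ?_ ?_
    · exact dk_link.ren (fun k => if k = 0 then 2 * 0 else 2 * (k - 1) + 1)
    · exact (dk_dioph h2).ren (fun k => 2 * k + 1)
  refine h.congr fun _ _ v => ?_
  constructor
  · rintro ⟨a, ha, hW⟩
    refine ⟨fun k => if k = 0 then algebraMap ℚ K (HC.ptX (U a)) else
      algebraMap ℚ K (HC.ptY (U a)), ⟨a, ha, rfl, rfl⟩, fun _ => a, ?_, hW⟩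
    intro i
    fin_cases i
    exact ⟨rfl, rfl⟩
  · rintro ⟨u, ⟨n, hn, hc⟩, a, ha, hW⟩
    have h3 : Cd (u 0) (u 1) (a 0) := ha 0
    have h4 : (n : ℤ) = a 0 := Cd.inj hc h3
    have h5 : n = a 0 := by exact_mod_cast h4
    refine ⟨n, hn, ?_⟩
    rw [h5]
    exact hW

end Pool.Agent.TH255.HK
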