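import Pool.Agent.TH255.HC.Gadget

/-!
# Cancellation in `x(P) - n² x(n P)`
-/

set_option autoImplicit false

open Height

namespace Pool.Agent.TH255.HK.Pad

open Pool.Agent.TH255.HC

lemma xz {s : ℕ} [hs : Fact s.Prime] {P : Pt} (hP : padicValRat s (ptX P) < 0) :
    ptX P = (Formal.zf P ^ 2)⁻¹ + 2 / ptX P := by
  obtain ⟨hX, hY, hz, -⟩ := Formal.pole_facts hP
  have e := pt_eq (Formal.pole_ne hP)
  unfold Formal.zf
  field_simp
  linear_combination -e

lemma norm_neg_val {s : ℕ} [hs : Fact s.Prime] {x : ℚ} (hx : padicValRat s x < 0) :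
    1 < padicNorm s x := by
  have h0 : x ≠ 0 := by rintro rfl; simp at hx
  rw [padicNorm.eq_zpow_of_nonzero h0]
  have h1 : (1 : ℚ) < s := by exact_mod_cast hs.out.one_lt
  exact one_lt_zpow₀ h1 (by omega)

lemma inv_norm {s : ℕ} [hs : Fact s.Prime] {x : ℚ} (hx : padicValRat s x < 0) (m : ℤ) :
    padicNorm s (m / x) ≤ 1 := by
  have h1 := norm_neg_val hx
  rw [padicNorm.div, div_le_one (by linarith)]
  exact (padicNorm.of_int (p := s) m).trans h1.le

/-- the cancellation -/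
theorem cancel {s : ℕ} [hs : Fact s.Prime] {P : Pt} (hP : padicValRat s (ptX P) < 0) {n : ℕ}
    (hn : n ≠ 0) : padicNorm s (n * (ptX P - n ^ 2 * ptX (n • P))) ≤ 1 := by
  obtain ⟨h1, h2⟩ := Formal.nat_smul hP hn
  obtain ⟨hX, hY, hz, hv, hxv, -⟩ := Formal.pole_facts hP
  obtain ⟨hX', hY', hz', hv', hxv', -⟩ := Formal.pole_facts h1
  obtain ⟨-, h3⟩ := Formal.nsmul_aux hP n
  have e1 := xz hP
  have e2 := xz h1
  set z := Formal.zf P with hzd
  set z' := Formal.zf (n • P) with hzd'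
  have hnq : (n : ℚ) ≠ 0 := by exact_mod_cast hn
  have hD' : padicNorm s z' = padicNorm s (n * z) := by
    rw [padicNorm.eq_zpow_of_nonzero hz', padicNorm.eq_zpow_of_nonzero (mul_ne_zero hnq hz)]
    congr 2
    rw [padicValRat.mul hnq hz, padicValRat.of_nat]
    omega
  have e3 : (n : ℚ) * (ptX P - n ^ 2 * ptX (n • P)) =
      n * (z' - n * z) * (z' + n * z) / (z ^ 2 * z' ^ 2) +
        (((n : ℤ) * ((2 : ℤ) / ptX P)) - ((n : ℤ) : ℚ) * (((2 * n ^ 2 : ℤ) : ℚ) / ptX (n • P))) := by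
    nth_rewrite 1 [e1]
    nth_rewrite 1 [e2]
    push_cast
    field_simp
    ring
  rw [e3]
  apply Formal.N_add_le
  · have k1 : padicNorm s (z' + n * z) ≤ padicNorm s (n * z) :=
      Formal.N_add_le hD'.le le_rfl
    have k2 : padicNorm s (z ^ 2 * z' ^ 2) = padicNorm s z ^ 4 * padicNorm s (n : ℚ) ^ 2 := by
      rw [pow_two, pow_two, padicNorm.mul, padicNorm.mul, padicNorm.mul, hD', padicNorm.mul]
      ring
    have k3 : padicNorm s (n : ℚ) ≠ 0 := padicNorm.nonzero hnq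
    have k4 : padicNorm s z ≠ 0 := padicNorm.nonzero hz
    have k5 : 0 < padicNorm s (n : ℚ) := lt_of_le_of_ne (padicNorm.nonneg _) (Ne.symm k3)
    have k6 : 0 < padicNorm s z := lt_of_le_of_ne (padicNorm.nonneg _) (Ne.symm k4)
    rw [padicNorm.div, k2, div_le_one (by positivity)]
    refine (Formal.N_mul_le (Formal.N_mul_le le_rfl h3) k1).trans (le_of_eq ?_)
    rw [padicNorm.mul]
    ring
  · apply Formal.N_sub_le
    · exact Formal.N_int_mul_le _ (inv_norm hP 2)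
    · exact Formal.N_int_mul_le _ (inv_norm h1 _)

/-! ### denominators -/

lemma val_den {s : ℕ} (hs : s.Prime) {x : ℚ} (h : s ∣ x.den) :
    padicValRat s x = -(padicValNat s x.den : ℤ) ∧ padicValRat s x < 0 := by
  have := Fact.mk hs
  rw [padicValRat_def]
  have h1 : padicValNat s x.num.natAbs = 0 := by
    apply padicValNat.eq_zero_of_not_dvd
    intro h'
    exact (Nat.Prime.not_coprime_iff_dvd.mpr ⟨s, hs, h', h⟩) x.reduced
  have h2 : 1 ≤ padicValNat s x.den := one_le_padicValNat_of_dvd x.den_nz h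
  rw [padicValInt, h1]
  omega

lemma coprime_den {P : Pt} {n : ℕ} (hn : n ≠ 0) :
    Nat.Coprime ((n : ℚ) * (ptX P - n ^ 2 * ptX (n • P))).den (ptX P).den := by
  by_contra hc
  obtain ⟨s, hs, h1, h2⟩ := Nat.Prime.not_coprime_iff_dvd.mp hc
  have := Fact.mk hs
  have h3 := cancel (val_den hs h2).2 hn
  have h4 := norm_neg_val (val_den hs h1).2
  linarith

lemma den_dvd {P : Pt} {n : ℕ} (hn : n ≠ 0) : (ptX P).den ∣ (ptX (n • P)).den := by
  rw [← Nat.factorization_prime_le_iff_dvd (ptX P).den_nz (ptX (n • P)).den_nz]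
  intro s hs
  have := Fact.mk hs
  rw [Nat.factorization_def _ hs, Nat.factorization_def _ hs]
  by_cases h : s ∣ (ptX P).den
  · obtain ⟨h1, h2⟩ := val_den hs h
    obtain ⟨h3, h4⟩ := Formal.nat_smul h2 hn
    rw [padicValRat_def] at h4 h3
    have h5 : (0 : ℤ) ≤ padicValInt s (ptX (n • P)).num := Int.natCast_nonneg _
    omega
  · rw [padicValNat.eq_zero_of_not_dvd h]
    exact Nat.zero_le _

lemma den_dvd_of {q : ℚ} {d : ℕ} (hd : d ≠ 0) {m : ℤ} (h : q * d = m) : q.den ∣ d := by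
  have hd' : (d : ℚ) ≠ 0 := by exact_mod_cast hd
  have h1 : q = (m : ℚ) / ((d : ℤ) : ℚ) := by
    rw [eq_div_iff (by exact_mod_cast hd)]
    exact_mod_cast h
  have h2 : (q.den : ℤ) ∣ (d : ℤ) := by
    rw [h1, ← Rat.divInt_eq_div]
    exact Rat.den_dvd m d
  exact_mod_cast h2

lemma den_mul_dvd {P : Pt} {n : ℕ} (hn : n ≠ 0) :
    ((n : ℚ) * (ptX P - n ^ 2 * ptX (n • P))).den * (ptX P).den ∣ (ptX (n • P)).den := by
  apply Nat.Coprime.mul_dvd_of_dvd_of_dvd (coprime_den hn) _ (den_dvd hn)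
  obtain ⟨t, ht⟩ := den_dvd (P := P) hn
  apply den_dvd_of (ptX (n • P)).den_nz
    (m := n * ((ptX P).num * t - n ^ 2 * (ptX (n • P)).num))
  have h1 : ptX P * (ptX P).den = (ptX P).num := Rat.mul_den_eq_num _
  have h2 : ptX (n • P) * (ptX (n • P)).den = (ptX (n • P)).num := Rat.mul_den_eq_num _
  have h3 : ((ptX (n • P)).den : ℚ) = (ptX P).den * t := by exact_mod_cast ht
  push_cast
  calc (n : ℚ) * (ptX P - n ^ 2 * ptX (n • P)) * (ptX (n • P)).den =
      n * (ptX P * (ptX (n • P)).den - n ^ 2 * (ptX (n • P) * (ptX (n • P)).den)) := by ring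
    _ = n * (ptX P * (ptX P).den * t - n ^ 2 * (ptX (n • P) * (ptX (n • P)).den)) := by
        rw [h3]; ring
    _ = _ := by rw [h1, h2]

lemma abs_le_of_O {P : Pt} (hP : IsO P) : |ptX P| ≤ 3 / 2 := by
  have h := sq_le_two hP
  apply abs_le_of_sq_le_sq _ (by norm_num)
  linarith

/-- upper bound for the height of `n² (x(P) - n² x(n P))` -/
theorem H_le {P : Pt} {n : ℕ} (hn : n ≠ 0) (hP : IsO P) (hnP : IsO (n • P)) :
    H ((n : ℚ) ^ 2 * (ptX P - n ^ 2 * ptX (n • P))) * H (ptX P) ≤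
      6 * n ^ 4 * H (ptX (n • P)) := by
  set q : ℚ := (n : ℚ) * (ptX P - n ^ 2 * ptX (n • P)) with hq
  have e : (n : ℚ) ^ 2 * (ptX P - n ^ 2 * ptX (n • P)) = n * q := by rw [hq]; ring
  rw [e]
  have hn1 : 1 ≤ n := Nat.one_le_iff_ne_zero.mpr hn
  have hnq : (1 : ℚ) ≤ n := by exact_mod_cast hn1
  have h1 : q.den * (ptX P).den ≤ (ptX (n • P)).den :=
    Nat.le_of_dvd (Rat.den_pos _) (den_mul_dvd hn)
  have h2 : ((n : ℚ) * q).den ≤ q.den := by
    apply Nat.le_of_dvd q.den_pos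
    apply den_dvd_of q.den_nz (m := n * q.num)
    push_cast
    rw [mul_assoc, Rat.mul_den_eq_num]
  have hab : |(n : ℚ) * q| ≤ 3 * n ^ 4 := by
    have h3 := abs_le_of_O hP
    have h4 := abs_le_of_O hnP
    have h5 : |ptX P - n ^ 2 * ptX (n • P)| ≤ 3 / 2 + n ^ 2 * (3 / 2) := by
      refine (abs_sub _ _).trans ?_
      rw [abs_mul, abs_of_nonneg (by positivity : (0 : ℚ) ≤ (n : ℚ) ^ 2)]
      have : (n : ℚ) ^ 2 * |ptX (n • P)| ≤ n ^ 2 * (3 / 2) :=
        mul_le_mul_of_nonneg_left h4 (by positivity)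
      linarith
    rw [← e, abs_mul, abs_of_nonneg (by positivity : (0 : ℚ) ≤ (n : ℚ) ^ 2)]
    calc (n : ℚ) ^ 2 * |ptX P - n ^ 2 * ptX (n • P)| ≤ n ^ 2 * (3 / 2 + n ^ 2 * (3 / 2)) :=
          mul_le_mul_of_nonneg_left h5 (by positivity)
      _ ≤ n ^ 2 * (n ^ 2 * (3 / 2) + n ^ 2 * (3 / 2)) := by
          apply mul_le_mul_of_nonneg_left _ (by positivity)
          have : (1 : ℚ) ≤ (n : ℚ) ^ 2 := one_le_pow₀ hnq
          linarith
      _ = 3 * n ^ 4 := by ring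
  have hnum : ((n : ℚ) * q).num.natAbs ≤ 3 * n ^ 4 * ((n : ℚ) * q).den := by
    have h6 : ((((n : ℚ) * q).num.natAbs : ℕ) : ℚ) = |(n : ℚ) * q| * ((n : ℚ) * q).den := by
      rw [Nat.cast_natAbs, Int.cast_abs, ← Rat.mul_den_eq_num, abs_mul,
        abs_of_nonneg (by positivity : (0 : ℚ) ≤ (((n : ℚ) * q).den : ℚ))]
    have h7 : ((((n : ℚ) * q).num.natAbs : ℕ) : ℚ) ≤ 3 * n ^ 4 * ((n : ℚ) * q).den := by
      rw [h6]
      exact mul_le_mul_of_nonneg_right hab (by positivity)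
    exact_mod_cast h7
  have hH : H ((n : ℚ) * q) ≤ 3 * n ^ 4 * q.den := by
    unfold H
    apply max_le
    · exact hnum.trans (Nat.mul_le_mul_left _ h2)
    · refine h2.trans ?_
      have : 1 ≤ 3 * n ^ 4 := by
        have := Nat.one_le_pow 4 n hn1
        omega
      nlinarith
  have hHx : H (ptX P) ≤ 2 * (ptX P).den := by
    have h8 := H_sq_le (sq_le_two hP)
    have h9 : H (ptX P) ^ 2 ≤ (2 * (ptX P).den) ^ 2 := by
      calc H (ptX P) ^ 2 ≤ 2 * (ptX P).den ^ 2 := h8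
        _ ≤ (2 * (ptX P).den) ^ 2 := by nlinarith [Nat.zero_le ((ptX P).den ^ 2)]
    exact (Nat.pow_le_pow_iff_left two_ne_zero).mp h9
  calc H ((n : ℚ) * q) * H (ptX P) ≤ (3 * n ^ 4 * q.den) * (2 * (ptX P).den) :=
        Nat.mul_le_mul hH hHx
    _ = 6 * n ^ 4 * (q.den * (ptX P).den) := by ring
    _ ≤ 6 * n ^ 4 * (ptX (n • P)).den := Nat.mul_le_mul_left _ h1
    _ ≤ 6 * n ^ 4 * H (ptX (n • P)) := Nat.mul_le_mul_left _ (den_le_H _)

end Pool.Agent.TH255.HK.Pad
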