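import Pool.Agent.TH255.HK.Gad
import Pool.Agent.TH255.HK.Pad

/-!
# Lower bound for the height of `c (x(P) - c x(n P))` over a number field
-/

set_option autoImplicit false

open Height NumberField Module Real

namespace Pool.Agent.TH255.HK.Low

open Pool.Agent.TH255.HC (Pt ptX IsO H)

variable {K : Type} [Field K] [NumberField K]

/-- the finite part of the height -/
noncomputable def fh (x : K) : ℝ := ∑ᶠ v : FinitePlace K, log⁺ (v x)

lemma supp (x : K) : (Function.support (fun v : FinitePlace K => log⁺ (v x))).Finite := by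
  by_cases hx : x = 0
  · subst hx
    have : (fun v : FinitePlace K => log⁺ (v (0 : K))) = 0 := by
      funext v; simp
    rw [this]; simp
  · refine (FinitePlace.hasFiniteMulSupport hx).subset fun v hv => ?_
    rw [Function.mem_support] at hv
    rw [Function.mem_mulSupport]
    intro h
    apply hv
    rw [h]
    exact posLog_one

lemma fh_le (x : K) : fh x ≤ logHeight₁ x := by
  rw [NumberField.logHeight₁_eq]
  have : 0 ≤ ∑ v : InfinitePlace K, (v.mult : ℝ) * log⁺ (v x) :=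
    Finset.sum_nonneg fun v _ => mul_nonneg (Nat.cast_nonneg _) posLog_nonneg
  unfold fh
  linarith

lemma le_fh {x : K} (hx : ∀ v : InfinitePlace K, log⁺ (v x) ≤ 1) :
    logHeight₁ x ≤ finrank ℚ K + fh x := by
  rw [NumberField.logHeight₁_eq]
  have h1 : ∑ v : InfinitePlace K, (v.mult : ℝ) * log⁺ (v x) ≤
      ∑ v : InfinitePlace K, (v.mult : ℝ) := by
    apply Finset.sum_le_sum
    intro v _
    exact mul_le_of_le_one_right (Nat.cast_nonneg _) (hx v)
  have h2 : ∑ v : InfinitePlace K, (v.mult : ℝ) = finrank ℚ K := by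
    rw [← InfinitePlace.sum_mult_eq]
    push_cast
    rfl
  unfold fh
  linarith

lemma fh_mono {x f c g n : K} (h : ∀ v : FinitePlace K,
    log⁺ (v x) ≤ log⁺ (v f) + 2 * log⁺ (v c) + log⁺ (v g) + log⁺ (v n)) :
    fh x ≤ fh f + 2 * fh c + fh g + fh n := by
  classical
  let S : Finset (FinitePlace K) := (supp x).toFinset ∪ (supp f).toFinset ∪ (supp c).toFinset ∪
    (supp g).toFinset ∪ (supp n).toFinset
  have key : ∀ y : K, (Function.support (fun v : FinitePlace K => log⁺ (v y))) ⊆ S →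
      fh y = ∑ v ∈ S, log⁺ (v y) := by
    intro y hy
    exact finsum_eq_sum_of_support_subset _ hy
  have hS : ∀ v : FinitePlace K, v ∈ S ↔ log⁺ (v x) ≠ 0 ∨ log⁺ (v f) ≠ 0 ∨ log⁺ (v c) ≠ 0 ∨
      log⁺ (v g) ≠ 0 ∨ log⁺ (v n) ≠ 0 := by
    intro v
    simp only [S, Finset.mem_union, Set.Finite.mem_toFinset, Function.mem_support]
    tauto
  rw [key x fun v hv => Finset.mem_coe.mpr ((hS v).mpr (Or.inl hv)),
    key f fun v hv => Finset.mem_coe.mpr ((hS v).mpr (Or.inr (Or.inl hv))),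
    key c fun v hv => Finset.mem_coe.mpr ((hS v).mpr (Or.inr (Or.inr (Or.inl hv)))),
    key g fun v hv => Finset.mem_coe.mpr ((hS v).mpr (Or.inr (Or.inr (Or.inr (Or.inl hv))))),
    key n fun v hv => Finset.mem_coe.mpr ((hS v).mpr (Or.inr (Or.inr (Or.inr (Or.inr hv))))),
    Finset.mul_sum, ← Finset.sum_add_distrib, ← Finset.sum_add_distrib, ← Finset.sum_add_distrib]
  exact Finset.sum_le_sum fun v _ => h v

lemma intle (v : FinitePlace K) (z : ℤ) : v (z : K) ≤ 1 :=
  IsNonarchimedean.apply_intCast_le_one (f := v) (fun a b => FinitePlace.add_le v a b)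

lemma place_coprime (v : FinitePlace K) {x q : ℚ} (h : Nat.Coprime q.den x.den)
    (hx : 1 < v (algebraMap ℚ K x)) : v (algebraMap ℚ K q) ≤ 1 := by
  by_contra hq
  push Not at hq
  have key : ∀ y : ℚ, 1 < v (algebraMap ℚ K y) → v ((y.den : ℤ) : K) < 1 := by
    intro y hy
    have h1 : algebraMap ℚ K y * ((y.den : ℤ) : K) = ((y.num : ℤ) : K) := by
      have := congrArg (algebraMap ℚ K) (Rat.mul_den_eq_num y)
      rw [map_mul] at this
      simpa using this
    have h2 : v (algebraMap ℚ K y) * v ((y.den : ℤ) : K) ≤ 1 := by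
      rw [← map_mul, h1]
      exact intle v _
    by_contra hc
    push Not at hc
    nlinarith
  have h1 := key x hx
  have h2 := key q hq
  obtain ⟨a, b, hab⟩ := Nat.isCoprime_iff_coprime.mpr h
  have hm : ∀ (a : ℤ) (y : K), v y < 1 → v ((a : K) * y) < 1 := by
    intro a y hy
    rw [map_mul]
    have h3 := intle v a
    have h4 : 0 ≤ v y := apply_nonneg v y
    have h5 : 0 ≤ v (a : K) := apply_nonneg v _
    nlinarith
  have h4 : v ((a * (q.den : ℤ) + b * (x.den : ℤ) : ℤ) : K) < 1 := by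
    have e : ((a * (q.den : ℤ) + b * (x.den : ℤ) : ℤ) : K) =
        (a : K) * ((q.den : ℤ) : K) + (b : K) * ((x.den : ℤ) : K) := by push_cast; ring
    rw [e]
    exact (FinitePlace.add_le v _ _).trans_lt (max_lt (hm a _ h2) (hm b _ h1))
  rw [hab] at h4
  simp at h4

lemma arch {q : ℚ} (hq : |q| ≤ 3 / 2) (v : InfinitePlace K) : log⁺ (v (algebraMap ℚ K q)) ≤ 1 := by
  have h1 : v (algebraMap ℚ K q) = |(q : ℝ)| := by
    rw [← InfinitePlace.norm_embedding_eq, eq_ratCast, map_ratCast, ← Complex.ofReal_ratCast,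
      Complex.norm_real, Real.norm_eq_abs]
  rw [h1, posLog_abs]
  have h2 : |(q : ℝ)| ≤ 3 / 2 := by
    have : ((|q| : ℚ) : ℝ) ≤ ((3 / 2 : ℚ) : ℝ) := by exact_mod_cast hq
    rw [Rat.cast_abs] at this
    push_cast at this
    exact this
  rw [← posLog_abs]
  refine (posLog_le_posLog (abs_nonneg _) h2).trans ?_
  rw [posLog_eq_log (by rw [abs_of_nonneg] <;> norm_num)]
  have := Real.log_le_sub_one_of_pos (show (0 : ℝ) < 3 / 2 by norm_num)
  linarith

lemma log_max {a b c d e : ℝ} (ha : 0 ≤ a) (hb : 0 ≤ b) (hc : 0 ≤ c) (hd : 0 ≤ d) (he : 0 ≤ e)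
    (h : a ≤ max 1 b * (max 1 c) ^ 2 * max 1 d * max 1 e) :
    log⁺ a ≤ log⁺ b + 2 * log⁺ c + log⁺ d + log⁺ e := by
  have h1 : ∀ t : ℝ, (1 : ℝ) ≤ max 1 t := fun t => le_max_left _ _
  have p : ∀ t : ℝ, (0 : ℝ) < max 1 t := fun t => lt_of_lt_of_le one_pos (h1 t)
  have hR : (1 : ℝ) ≤ max 1 b * (max 1 c) ^ 2 * max 1 d * max 1 e :=
    one_le_mul_of_one_le_of_one_le (one_le_mul_of_one_le_of_one_le
      (one_le_mul_of_one_le_of_one_le (h1 b) (one_le_pow₀ (h1 c))) (h1 d)) (h1 e)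
  have h2 := Real.log_le_log (p a) (max_le hR h)
  rw [Real.log_mul (by have := p b; have := p c; have := p d; positivity) (p e).ne',
    Real.log_mul (by have := p b; have := p c; positivity) (p d).ne',
    Real.log_mul (p b).ne' (by have := p c; positivity), Real.log_pow] at h2
  rw [posLog_eq_log_max_one ha, posLog_eq_log_max_one hb, posLog_eq_log_max_one hc,
    posLog_eq_log_max_one hd, posLog_eq_log_max_one he]
  push_cast at h2
  exact h2

lemma logHeight_rat (q : ℚ) :
    logHeight₁ (algebraMap ℚ K q) = finrank ℚ K * Real.log (H q) := by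
  rw [logHeight₁_eq_log_mulHeight₁, log_rat]

lemma H_nat {n : ℕ} (hn : n ≠ 0) : H (n : ℚ) = n := by
  unfold HC.H
  simp
  omega

lemma logHeight_nat {n : ℕ} (hn : n ≠ 0) :
    logHeight₁ (n : K) = finrank ℚ K * Real.log n := by
  have := logHeight_rat (K := K) (n : ℚ)
  rw [H_nat hn, map_natCast] at this
  exact this

/-- the lower bound -/
theorem low {P : Pt} {n : ℕ} (hn : n ≠ 0) (hnP : IsO (n • P)) {c : K} (hc : c ≠ 0)
    (hcn : c ≠ (n : K) ^ 2) :
    (finrank ℚ K : ℝ) * Real.log (H (ptX (n • P))) ≤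
      logHeight₁ (c * (algebraMap ℚ K (ptX P) - c * algebraMap ℚ K (ptX (n • P)))) +
        3 * logHeight₁ c + finrank ℚ K * (3 * Real.log n + 2) := by
  set x : K := algebraMap ℚ K (ptX P) with hx
  set x' : K := algebraMap ℚ K (ptX (n • P)) with hx'
  set f : K := c * (x - c * x') with hf
  set g : K := c - (n : K) ^ 2 with hg
  have hg0 : g ≠ 0 := sub_ne_zero.mpr hcn
  have hnK : (n : K) ≠ 0 := by exact_mod_cast hn
  have h1 : fh x' ≤ fh f + 2 * fh c⁻¹ + fh g⁻¹ + fh (n : K)⁻¹ := by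
    apply fh_mono
    intro v
    have nn : ∀ y : K, 0 ≤ v y := fun y => apply_nonneg v y
    have m1 : ∀ t : ℝ, (1 : ℝ) ≤ max 1 t := fun t => le_max_left _ _
    have m2 : ∀ t : ℝ, t ≤ max 1 t := fun t => le_max_right _ _
    have m0 : ∀ t : ℝ, (0 : ℝ) ≤ max 1 t := fun t => zero_le_one.trans (m1 t)
    apply log_max (nn _) (nn _) (nn _) (nn _) (nn _)
    by_cases hvx : v x ≤ 1
    · have e : x' = c⁻¹ * x + -(f * (c⁻¹) ^ 2) := by
        rw [hf]
        field_simp
        ring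
      rw [e]
      refine (FinitePlace.add_le v _ _).trans (max_le ?_ ?_)
      · rw [map_mul]
        calc v c⁻¹ * v x ≤ max 1 (v c⁻¹) * 1 := mul_le_mul (m2 _) hvx (nn _) (m0 _)
          _ ≤ max 1 (v f) * (max 1 (v c⁻¹)) ^ 2 * max 1 (v g⁻¹) * max 1 (v (n : K)⁻¹) := by
            have k1 : max 1 (v c⁻¹) ≤ (max 1 (v c⁻¹)) ^ 2 := by
              have := m1 (v c⁻¹)
              nlinarith
            have k2 := one_le_mul_of_one_le_of_one_le (m1 (v f)) (m1 (v g⁻¹))
            have k3 := one_le_mul_of_one_le_of_one_le k2 (m1 (v (n : K)⁻¹))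
            calc max 1 (v c⁻¹) * 1 ≤ (max 1 (v c⁻¹)) ^ 2 *
                  (max 1 (v f) * max 1 (v g⁻¹) * max 1 (v (n : K)⁻¹)) :=
                  mul_le_mul k1 k3 zero_le_one (by positivity)
              _ = _ := by ring
      · rw [map_neg_eq_map, map_mul, map_pow]
        have k2 := one_le_mul_of_one_le_of_one_le (m1 (v g⁻¹)) (m1 (v (n : K)⁻¹))
        calc v f * v c⁻¹ ^ 2 ≤ max 1 (v f) * (max 1 (v c⁻¹)) ^ 2 :=
              mul_le_mul (m2 _) (pow_le_pow_left₀ (nn _) (m2 _) 2) (by have := nn c⁻¹; positivity)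
                (m0 _)
          _ = max 1 (v f) * (max 1 (v c⁻¹)) ^ 2 * 1 := (mul_one _).symm
          _ ≤ max 1 (v f) * (max 1 (v c⁻¹)) ^ 2 * (max 1 (v g⁻¹) * max 1 (v (n : K)⁻¹)) :=
              mul_le_mul_of_nonneg_left k2 (by have := m0 (v f); positivity)
          _ = _ := by ring
    · push Not at hvx
      have hq : v ((n : K) * (x - (n : K) ^ 2 * x')) ≤ 1 := by
        have e0 : algebraMap ℚ K ((n : ℚ) * (ptX P - (n : ℚ) ^ 2 * ptX (n • P))) =
            (n : K) * (x - (n : K) ^ 2 * x') := by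
          rw [map_mul, map_sub, map_mul, map_pow, map_natCast]
        rw [← e0]
        exact place_coprime v (Pad.coprime_den (P := P) hn) hvx
      have e : x' = g⁻¹ * (n : K)⁻¹ * ((n : K) * (x - (n : K) ^ 2 * x')) + -(g⁻¹ * (f * c⁻¹)) := by
        have e1 : f * c⁻¹ = x - c * x' := by rw [hf]; field_simp
        rw [e1]
        field_simp
        rw [hg]
        ring
      rw [e]
      refine (FinitePlace.add_le v _ _).trans (max_le ?_ ?_)
      · rw [map_mul, map_mul]
        have k2 := one_le_mul_of_one_le_of_one_le (m1 (v f)) (one_le_pow₀ (m1 (v c⁻¹)) (n := 2))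
        calc v g⁻¹ * v (n : K)⁻¹ * v ((n : K) * (x - (n : K) ^ 2 * x')) ≤
              max 1 (v g⁻¹) * max 1 (v (n : K)⁻¹) * 1 :=
              mul_le_mul (mul_le_mul (m2 _) (m2 _) (nn _) (m0 _)) hq (nn _)
                (mul_nonneg (m0 _) (m0 _))
          _ ≤ max 1 (v g⁻¹) * max 1 (v (n : K)⁻¹) * (max 1 (v f) * (max 1 (v c⁻¹)) ^ 2) :=
              mul_le_mul_of_nonneg_left k2 (mul_nonneg (m0 _) (m0 _))
          _ = _ := by ring
      · rw [map_neg_eq_map, map_mul, map_mul]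
        have k1 : max 1 (v c⁻¹) ≤ (max 1 (v c⁻¹)) ^ 2 := by
          have := m1 (v c⁻¹)
          nlinarith
        calc v g⁻¹ * (v f * v c⁻¹) ≤ max 1 (v g⁻¹) * (max 1 (v f) * (max 1 (v c⁻¹)) ^ 2) :=
              mul_le_mul (m2 _) (mul_le_mul (m2 _) ((m2 _).trans k1) (nn _) (m0 _))
                (mul_nonneg (nn _) (nn _)) (m0 _)
          _ = max 1 (v g⁻¹) * (max 1 (v f) * (max 1 (v c⁻¹)) ^ 2) * 1 := (mul_one _).symm
          _ ≤ max 1 (v g⁻¹) * (max 1 (v f) * (max 1 (v c⁻¹)) ^ 2) * max 1 (v (n : K)⁻¹) :=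
              mul_le_mul_of_nonneg_left (m1 _) (by
                have := m0 (v g⁻¹)
                have := m0 (v f)
                positivity)
          _ = _ := by ring
  have h2 := le_fh (arch (K := K) (Pad.abs_le_of_O hnP))
  rw [← hx', hx', logHeight_rat, ← hx'] at h2
  have h3 := fh_le f
  have h4 := fh_le c⁻¹
  have h5 := fh_le g⁻¹
  have h6 := fh_le (n : K)⁻¹
  rw [logHeight₁_inv] at h4 h5 h6
  rw [logHeight_nat hn] at h6
  have h7 := logHeight₁_sub_le c ((n : K) ^ 2)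
  rw [← hg, logHeight₁_pow, logHeight_nat hn, totalWeight_eq_finrank] at h7
  have h8 : Real.log 2 ≤ 1 := by
    have := Real.log_two_lt_d9
    linarith
  have hd : (0 : ℝ) ≤ finrank ℚ K := Nat.cast_nonneg _
  have h9 : (finrank ℚ K : ℝ) * Real.log 2 ≤ finrank ℚ K * 1 := mul_le_mul_of_nonneg_left h8 hd
  push_cast at h7
  have h10 : fh x' ≤ logHeight₁ f + 3 * logHeight₁ c +
      (finrank ℚ K * 1 + 3 * (finrank ℚ K * Real.log n)) := by linarith
  calc (finrank ℚ K : ℝ) * Real.log (H (ptX (n • P))) ≤ finrank ℚ K + fh x' := h2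
    _ ≤ finrank ℚ K + (logHeight₁ f + 3 * logHeight₁ c +
      (finrank ℚ K * 1 + 3 * (finrank ℚ K * Real.log n))) := by linarith
    _ = _ := by ring

end Pool.Agent.TH255.HK.Low
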