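import Pool.Agent.TH255.HK.Ht
import Pool.Agent.TH942.FG
import Pool.Agent.TH951.NF.Gal

/-!
# Canonical heights over number fields, and the orthogonal projection to a rational point
-/

set_option autoImplicit false

open Height NumberField Module

namespace Pool.Agent.TH255.HK

open Pool.Agent.TH942

/-- canonical height, as the norm of a homomorphism to a Euclidean space -/
theorem can (K : Type) [Field K] [NumberField K] [DecidableEq K] :
    ∃ (n : ℕ) (ψ : PtK K →+ EuclideanSpace ℝ (Fin n)) (C : ℝ),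
      ∀ P, |‖ψ P‖ ^ 2 - sht P| ≤ C := by
  obtain ⟨C, hC0, hC⟩ := spar_law (K := K) hD
  obtain ⟨q, C', hq1, hq2, hq3⟩ := H437R2.Man.MW.canon (fun P : PtK K => sht P) C
    (fun P => sht_nonneg P) hC
  obtain ⟨n, ψ, hψ⟩ := H437R2.Man.MW.embed (sfg hD) q hq2 hq3
  exact ⟨n, ψ, C', fun P => by rw [hψ P]; exact hq1 P⟩

section quad

variable {A E F : Type*} [AddCommGroup A] [NormedAddCommGroup E] [InnerProductSpace ℝ E]
  [NormedAddCommGroup F] [InnerProductSpace ℝ F]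

lemma norm_map_nsmul (f : A →+ E) (n : ℕ) (P : A) : ‖f (n • P)‖ ^ 2 = (n : ℝ) ^ 2 * ‖f P‖ ^ 2 := by
  rw [map_nsmul, ← Nat.cast_smul_eq_nsmul ℝ, norm_smul, mul_pow]
  simp

lemma norm_eq_of_bdd (f : A →+ E) (g : A →+ F) (c C : ℝ)
    (h : ∀ P, |‖f P‖ ^ 2 - c * ‖g P‖ ^ 2| ≤ C) (P : A) : ‖f P‖ ^ 2 = c * ‖g P‖ ^ 2 := by
  by_contra hne
  set D := |‖f P‖ ^ 2 - c * ‖g P‖ ^ 2| with hDdef
  have hD0 : 0 < D := abs_pos.mpr (sub_ne_zero.mpr hne)
  obtain ⟨n, hn⟩ := exists_nat_gt (C / D)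
  have h1 := h ((n + 1) • P)
  rw [norm_map_nsmul, norm_map_nsmul] at h1
  have h2 : ((n + 1 : ℕ) : ℝ) ^ 2 * ‖f P‖ ^ 2 - c * (((n + 1 : ℕ) : ℝ) ^ 2 * ‖g P‖ ^ 2) =
      ((n + 1 : ℕ) : ℝ) ^ 2 * (‖f P‖ ^ 2 - c * ‖g P‖ ^ 2) := by ring
  rw [h2, abs_mul, abs_of_nonneg (by positivity), ← hDdef] at h1
  rw [div_lt_iff₀ hD0] at hn
  push_cast at h1
  have h3 : (0 : ℝ) ≤ n := Nat.cast_nonneg n
  nlinarith [mul_nonneg h3 hD0.le, mul_nonneg (mul_nonneg h3 h3) hD0.le]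

lemma inner_eq_of_norm (f : A →+ E) (g : A →+ F) (c : ℝ)
    (h : ∀ P, ‖f P‖ ^ 2 = c * ‖g P‖ ^ 2) (P Q : A) :
    inner ℝ (f P) (f Q) = c * inner ℝ (g P) (g Q) := by
  have h1 := h (P + Q)
  rw [map_add, map_add, norm_add_sq_real, norm_add_sq_real, h P, h Q] at h1
  linarith

end quad

section

variable {K L : Type} [Field K] [NumberField K] [DecidableEq K] [Field L] [NumberField L]
  [DecidableEq L]

lemma deg_pos (K : Type) [Field K] [NumberField K] : (0 : ℝ) < finrank ℚ K := by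
  exact_mod_cast finrank_pos

/-- the canonical form and field homomorphisms -/
lemma inner_mp {n m : ℕ} {ψ : PtK K →+ EuclideanSpace ℝ (Fin n)}
    {φ : PtK L →+ EuclideanSpace ℝ (Fin m)} {C C' : ℝ}
    (hψ : ∀ P, |‖ψ P‖ ^ 2 - sht P| ≤ C) (hφ : ∀ P, |‖φ P‖ ^ 2 - sht P| ≤ C') (τ : K →+* L)
    (P Q : PtK K) : inner ℝ (φ (mp τ P)) (φ (mp τ Q)) =
      (finrank ℚ L : ℝ) / finrank ℚ K * inner ℝ (ψ P) (ψ Q) := by
  refine inner_eq_of_norm (φ.comp (mp τ)) ψ _ ?_ P Q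
  refine norm_eq_of_bdd _ _ _ (C' + (finrank ℚ L : ℝ) / finrank ℚ K * C) fun P => ?_
  have h1 := hφ (mp τ P)
  have h2 := hψ P
  have h3 := sht_mp τ P
  have hK := deg_pos K
  have hL := deg_pos L
  set r := (finrank ℚ L : ℝ) / finrank ℚ K with hr
  have hr0 : 0 < r := div_pos hL hK
  have h4 : sht (mp τ P) = r * sht P := by
    rw [hr, div_mul_eq_mul_div, eq_div_iff hK.ne']
    linarith
  rw [h4] at h1
  have h5 : r * |‖ψ P‖ ^ 2 - sht P| ≤ r * C := mul_le_mul_of_nonneg_left h2 hr0.le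
  rw [← abs_of_pos hr0, ← abs_mul, abs_of_pos hr0] at h5
  rw [abs_le] at h1 h5 ⊢
  change -(C' + r * C) ≤ ‖φ (mp τ P)‖ ^ 2 - r * ‖ψ P‖ ^ 2 ∧
    ‖φ (mp τ P)‖ ^ 2 - r * ‖ψ P‖ ^ 2 ≤ C' + r * C
  constructor
  · linarith [h1.1, h5.2]
  · linarith [h1.2, h5.1]

end

/-- the trace of a point -/
theorem exists_trace {K : Type} [Field K] [NumberField K] [DecidableEq K] {n m : ℕ}
    {ψ : PtK K →+ EuclideanSpace ℝ (Fin n)} {φ : PtK ℚ →+ EuclideanSpace ℝ (Fin m)} {C C' : ℝ}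
    (hψ : ∀ P, |‖ψ P‖ ^ 2 - sht P| ≤ C) (hφ : ∀ P, |‖φ P‖ ^ 2 - sht P| ≤ C')
    (G : PtK ℚ) (a : PtK K) : ∃ t : PtK ℚ,
      inner ℝ (ψ a) (ψ (mp (algebraMap ℚ K) G)) = inner ℝ (φ t) (φ G) := by
  classical
  obtain ⟨M, i1, i2, hgal, -, hcard⟩ := TH951.NF.exists_gal K
  obtain ⟨k, χ, C'', hχ⟩ := can M
  set t' : PtK M := ∑ e : K →ₐ[ℚ] M, mp (e : K →+* M) a with ht'
  have hfix : ∀ σ : M ≃ₐ[ℚ] M, mp (σ : M →+* M) t' = t' := by
    intro σ
    rw [ht', map_sum]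
    have hb : Function.Bijective (fun e : K →ₐ[ℚ] M => (σ : M →ₐ[ℚ] M).comp e) := by
      constructor
      · intro e e' h
        ext x
        have := congrArg (fun f : K →ₐ[ℚ] M => f x) h
        simpa using this
      · intro e
        refine ⟨(σ.symm : M →ₐ[ℚ] M).comp e, ?_⟩
        ext x
        simp
    refine Eq.trans ?_ (hb.sum_comp (fun e : K →ₐ[ℚ] M => mp (e : K →+* M) a))
    refine Finset.sum_congr rfl fun e _ => ?_
    rw [← mp_comp]
    rfl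
  obtain ⟨t, ht⟩ : ∃ t : PtK ℚ, mp (algebraMap ℚ M) t = t' := by
    by_cases h0 : t' = 0
    · exact ⟨0, by rw [map_zero, h0]⟩
    · have hx : ∀ σ : M ≃ₐ[ℚ] M, σ (pX t') = pX t' := by
        intro σ
        have := congrArg pX (hfix σ)
        rwa [pX_mp] at this
      have hy : ∀ σ : M ≃ₐ[ℚ] M, σ (pY t') = pY t' := by
        intro σ
        have := congrArg pY (hfix σ)
        rwa [pY_mp] at this
      obtain ⟨x, hx'⟩ := (IsGalois.mem_range_algebraMap_iff_fixed (pX t')).mpr hx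
      obtain ⟨y, hy'⟩ := (IsGalois.mem_range_algebraMap_iff_fixed (pY t')).mpr hy
      have hxy : y ^ 2 = x ^ 3 - 2 * x := by
        apply (algebraMap ℚ M).injective
        have := pt_eq h0
        rw [← hx', ← hy'] at this
        rw [map_pow, this]
        simp
      obtain ⟨t, ht0, htx, hty⟩ := exists_pt hxy
      refine ⟨t, pt_ext (mp_ne ht0) h0 ?_ ?_⟩
      · rw [pX_mp, htx, hx']
      · rw [pY_mp, hty, hy']
  refine ⟨t, ?_⟩
  have hK := deg_pos K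
  have hM := deg_pos M
  have h1 : inner ℝ (χ t') (χ (mp (algebraMap ℚ M) G)) =
      (finrank ℚ M : ℝ) * inner ℝ (ψ a) (ψ (mp (algebraMap ℚ K) G)) := by
    rw [ht', map_sum, sum_inner]
    have h2 : ∀ e : K →ₐ[ℚ] M, inner ℝ (χ (mp (e : K →+* M) a)) (χ (mp (algebraMap ℚ M) G)) =
        (finrank ℚ M : ℝ) / finrank ℚ K * inner ℝ (ψ a) (ψ (mp (algebraMap ℚ K) G)) := by
      intro e
      have h3 : mp (algebraMap ℚ M) G = mp (e : K →+* M) (mp (algebraMap ℚ K) G) := by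
        rw [← mp_comp]
        congr 2
        exact (AlgHom.comp_algebraMap e).symm
      rw [h3]
      exact inner_mp hψ hχ _ _ _
    rw [Finset.sum_congr rfl (fun e _ => h2 e), Finset.sum_const, Finset.card_univ, hcard,
      nsmul_eq_mul]
    field_simp
  have h4 : inner ℝ (χ (mp (algebraMap ℚ M) t)) (χ (mp (algebraMap ℚ M) G)) =
      (finrank ℚ M : ℝ) * inner ℝ (φ t) (φ G) := by
    have h5 := inner_mp hφ hχ (algebraMap ℚ M) t G
    rw [finrank_self] at h5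
    simpa using h5
  rw [ht, h1] at h4
  exact mul_left_cancel₀ hM.ne' h4

/-- the orthogonal projection to a rational point which generates the rational points up to
torsion is rational -/
theorem exists_proj {K : Type} [Field K] [NumberField K] [DecidableEq K] {n : ℕ}
    {ψ : PtK K →+ EuclideanSpace ℝ (Fin n)} {C : ℝ}
    (hψ : ∀ P, |‖ψ P‖ ^ 2 - sht P| ≤ C) {G : PtK ℚ}
    (hG : ∀ t : PtK ℚ, ∃ m : ℤ, (2 : ℤ) • t = (2 * m) • G) (a : PtK K) : ∃ m : ℤ,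
      inner ℝ (ψ (((finrank ℚ K : ℕ) : ℤ) • a - m • mp (algebraMap ℚ K) G))
        (ψ (mp (algebraMap ℚ K) G)) = 0 := by
  obtain ⟨k, φ, C', hφ⟩ := can ℚ
  obtain ⟨t, ht⟩ := exists_trace hψ hφ G a
  obtain ⟨m, hm⟩ := hG t
  refine ⟨m, ?_⟩
  have h1 : inner ℝ (φ t) (φ G) = (m : ℝ) * inner ℝ (φ G) (φ G) := by
    have h2 := congrArg φ hm
    rw [map_zsmul, map_zsmul, ← Int.cast_smul_eq_zsmul ℝ, ← Int.cast_smul_eq_zsmul ℝ] at h2
    have h3 : φ t = (m : ℝ) • φ G := by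
      have h4 : (2 : ℝ) • φ t = (2 : ℝ) • ((m : ℝ) • φ G) := by
        rw [smul_smul]
        push_cast at h2
        exact h2
      exact smul_right_injective _ (two_ne_zero) h4
    rw [h3, inner_smul_left]
    simp
  have h2 := inner_mp hφ hψ (algebraMap ℚ K) G G
  rw [finrank_self] at h2
  simp only [Nat.cast_one, div_one] at h2
  rw [map_sub, map_zsmul, map_zsmul, inner_sub_left, ← Int.cast_smul_eq_zsmul ℝ,
    ← Int.cast_smul_eq_zsmul ℝ, inner_smul_left, inner_smul_left, ht, h1, h2]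
  simp
  ring

end Pool.Agent.TH255.HK
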